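import Pool.Agent.Lib.MP_0e9c6a_an.Weighted

set_option autoImplicit false

open MeasureTheory Complex Set Filter Topology
open scoped Real ENNReal

namespace Pool.Agent.Lib.MP_0e9c6a_an

lemma lintegral_complex_le (f : ℂ → ℝ≥0∞) :
    ∫⁻ z, f z ≤ ∫⁻ y : ℝ, ∫⁻ x : ℝ, f (x + y * I) := by
  rw [← (Complex.volume_preserving_equiv_real_prod.symm).lintegral_comp_emb
    measurableEquivRealProd.symm.measurableEmbedding]
  have h1 : ∫⁻ p : ℝ × ℝ, f (measurableEquivRealProd.symm p) =
      ∫⁻ p : ℝ × ℝ, f (p.2 + p.1 * I) ∂((volume : Measure ℝ).prod (volume : Measure ℝ)) := by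
    have h2 := (Measure.measurePreserving_swap (μ := (volume : Measure ℝ))
      (ν := (volume : Measure ℝ))).lintegral_comp_emb
        (MeasurableEquiv.prodComm (α := ℝ) (β := ℝ)).measurableEmbedding
        (fun p : ℝ × ℝ => f (p.1 + p.2 * I))
    have h3 : ∫⁻ p : ℝ × ℝ, f (p.2 + p.1 * I) ∂((volume : Measure ℝ).prod (volume : Measure ℝ)) =
        ∫⁻ p : ℝ × ℝ, f (p.1 + p.2 * I) ∂((volume : Measure ℝ).prod (volume : Measure ℝ)) := h2
    rw [h3, Measure.volume_eq_prod]
    refine lintegral_congr fun p => ?_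
    congr 1
    apply Complex.ext <;> simp [measurableEquivRealProd_symm_apply]
  rw [h1]
  exact lintegral_prod_le _

lemma ennreal_mul_le_sq_add_sq (a b : ℝ≥0∞) : a * b ≤ a ^ 2 + b ^ 2 := by
  rcases le_total a b with h | h
  · calc a * b ≤ b * b := mul_le_mul_left h b
      _ = b ^ 2 := (sq b).symm
      _ ≤ a ^ 2 + b ^ 2 := le_add_self
  · calc a * b ≤ a * a := mul_le_mul_right h a
      _ = a ^ 2 := (sq a).symm
      _ ≤ a ^ 2 + b ^ 2 := le_self_add

lemma ennreal_add_sq_le (a : ℝ≥0∞) : (1 + a) ^ 2 ≤ 2 + 2 * a ^ 2 := by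
  have h := ennreal_mul_le_sq_add_sq 1 a
  calc (1 + a) ^ 2 = 1 + (1 * a + 1 * a) + a ^ 2 := by ring
    _ ≤ 2 + 2 * a ^ 2 := by
      by_cases ha : a = ⊤
      · subst ha
        simp
      · lift a to NNReal using ha
        norm_cast
        rw [← NNReal.coe_le_coe]
        push_cast
        nlinarith [sq_nonneg ((a:ℝ) - 1)]

lemma ennreal_le_min_mul (g : ℝ≥0∞) : g ≤ min g 1 * (1 + g) := by
  rcases le_total g 1 with h | h
  · rw [min_eq_left h, mul_add, mul_one]
    exact le_self_add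
  · rw [min_eq_right h, one_mul]
    exact le_add_self

/-- Bound of the weighted `L¹` norm on horizontal segments near the boundary, uniform in `N`. -/
theorem bottom {g : ℝ → ℝ → ℝ≥0∞} {W : ℝ → ℝ → ℝ≥0∞} {ω : ℝ → ℝ → ℝ} {E : Set ℝ} {a b r₀ : ℝ}
    {M : ℝ≥0∞} (hr₀ : 0 < r₀) (hE : MeasurableSet E) (N : ℝ)
    (hg : ∀ y, 0 < y → Measurable (g y)) (hω : ∀ y, 0 < y → Measurable (ω y))
    (hN : 0 ≤ N)
    (hW : ∀ y, 0 < y → y < r₀ → ∀ x, W y x ≤ ENNReal.ofReal (Real.exp (N * ω y x)))
    (hω1 : ∀ y, 0 < y → ∀ x, ω y x ≤ 1)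
    (hL2 : ∀ y, 0 < y → y < r₀ → ∫⁻ x in Icc a b, (g y x) ^ 2 ≤ M)
    (hlim : ∀ᵐ x : ℝ, x ∈ E → Tendsto (fun y : ℝ => g y x) (𝓝[>] 0) (𝓝 0))
    (hωE : ∀ᵐ x : ℝ, x ∉ E → Tendsto (fun y : ℝ => ω y x) (𝓝[>] 0) (𝓝 0)) :
    ∀ᶠ y in 𝓝[>] (0:ℝ), ∫⁻ x in Icc a b, g y x * W y x ≤
      3 * M + 3 * ENNReal.ofReal (b - a) + 1 := by
  classical
  set k : ℝ → ℝ → ℝ≥0∞ := fun y x => E.indicator (fun x => (ENNReal.ofReal (Real.exp N) *
    min (g y x) 1) ^ 2) x + Eᶜ.indicator (fun x => (ENNReal.ofReal (Real.exp (N * ω y x))) ^ 2) x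
    with hk
  have hkm : ∀ y, 0 < y → Measurable (k y) := by
    intro y hy
    have := hg y hy
    have := hω y hy
    refine Measurable.add ?_ ?_
    · refine Measurable.indicator ?_ hE
      fun_prop
    · refine Measurable.indicator ?_ hE.compl
      fun_prop
  -- pointwise bound
  have hpt : ∀ y, 0 < y → y < r₀ → ∀ x, g y x * W y x ≤ (2 + 2 * (g y x) ^ 2 + (g y x) ^ 2) + k y x := by
    intro y hy hy' x
    by_cases hx : x ∈ E
    · have h1 : W y x ≤ ENNReal.ofReal (Real.exp N) := by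
        refine (hW y hy hy' x).trans (ENNReal.ofReal_le_ofReal (Real.exp_le_exp.mpr ?_))
        nlinarith [hω1 y hy x]
      calc g y x * W y x ≤ (min (g y x) 1 * (1 + g y x)) * ENNReal.ofReal (Real.exp N) := by
            gcongr
            exact ennreal_le_min_mul _
        _ = (ENNReal.ofReal (Real.exp N) * min (g y x) 1) * (1 + g y x) := by ring
        _ ≤ (ENNReal.ofReal (Real.exp N) * min (g y x) 1) ^ 2 + (1 + g y x) ^ 2 :=
            ennreal_mul_le_sq_add_sq _ _
        _ ≤ (ENNReal.ofReal (Real.exp N) * min (g y x) 1) ^ 2 + (2 + 2 * (g y x) ^ 2) := by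
            gcongr
            exact ennreal_add_sq_le _
        _ ≤ _ := by
            simp only [hk, indicator_of_mem hx, indicator_of_notMem (show x ∉ Eᶜ from fun h => h hx),
              add_zero]
            rw [add_comm]
            gcongr ?_ + _
            exact le_self_add
    · calc g y x * W y x ≤ g y x * ENNReal.ofReal (Real.exp (N * ω y x)) := by
            gcongr
            exact hW y hy hy' x
        _ ≤ (g y x) ^ 2 + (ENNReal.ofReal (Real.exp (N * ω y x))) ^ 2 :=
            ennreal_mul_le_sq_add_sq _ _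
        _ ≤ _ := by
            simp only [hk, indicator_of_notMem hx, indicator_of_mem (show x ∈ Eᶜ from hx),
              zero_add]
            gcongr
            exact le_add_self
  -- dominated convergence
  have hconv : Tendsto (fun y => ∫⁻ x in Icc a b, k y x) (𝓝[>] (0:ℝ))
      (𝓝 (∫⁻ x in Icc a b, Eᶜ.indicator (fun _ => (1:ℝ≥0∞)) x)) := by
    refine tendsto_lintegral_filter_of_dominated_convergence
      (fun _ => (ENNReal.ofReal (Real.exp N)) ^ 2) ?_ ?_ ?_ ?_
    · filter_upwards [self_mem_nhdsWithin] with y hy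
      exact hkm y hy
    · filter_upwards [self_mem_nhdsWithin] with y hy
      refine Filter.Eventually.of_forall fun x => ?_
      by_cases hx : x ∈ E
      · simp only [hk, indicator_of_mem hx, indicator_of_notMem (show x ∉ Eᶜ from fun h => h hx),
          add_zero]
        gcongr
        calc ENNReal.ofReal (Real.exp N) * min (g y x) 1 ≤ ENNReal.ofReal (Real.exp N) * 1 := by
              gcongr
              exact min_le_right _ _
          _ = _ := mul_one _
      · simp only [hk, indicator_of_notMem hx, indicator_of_mem (show x ∈ Eᶜ from hx),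
          zero_add]
        gcongr
        have : ω y x ≤ 1 := hω1 y hy x
        nlinarith
    · rw [setLIntegral_const]
      exact ENNReal.mul_ne_top (by simp) (by simp)
    · have h1 : ∀ᵐ x ∂(volume.restrict (Icc a b)), x ∈ E →
          Tendsto (fun y : ℝ => g y x) (𝓝[>] 0) (𝓝 0) := ae_restrict_of_ae hlim
      have h2 : ∀ᵐ x ∂(volume.restrict (Icc a b)), x ∉ E →
          Tendsto (fun y : ℝ => ω y x) (𝓝[>] 0) (𝓝 0) := ae_restrict_of_ae hωE
      filter_upwards [h1, h2] with x hx1 hx2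
      by_cases hx : x ∈ E
      · simp only [hk, indicator_of_mem hx, indicator_of_notMem (show x ∉ Eᶜ from fun h => h hx),
          add_zero]
        have t1 : Tendsto (fun y => min (g y x) 1) (𝓝[>] 0) (𝓝 (min 0 1)) :=
          (hx1 hx).min tendsto_const_nhds
        have t2 : Tendsto (fun y => ENNReal.ofReal (Real.exp N) * min (g y x) 1) (𝓝[>] 0)
            (𝓝 (ENNReal.ofReal (Real.exp N) * min 0 1)) :=
          ENNReal.Tendsto.const_mul t1 (Or.inr ENNReal.ofReal_ne_top)
        have t3 := ENNReal.Tendsto.pow t2 (n := 2)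
        simpa using t3
      · simp only [hk, indicator_of_notMem hx, indicator_of_mem (show x ∈ Eᶜ from hx),
          zero_add]
        have t1 : Tendsto (fun y => Real.exp (N * ω y x)) (𝓝[>] 0) (𝓝 (Real.exp (N * 0))) :=
          (Real.continuous_exp.tendsto _).comp ((hx2 hx).const_mul N)
        have t2 := ENNReal.Tendsto.pow (ENNReal.tendsto_ofReal t1) (n := 2)
        simpa using t2
  have hlt : ∫⁻ x in Icc a b, Eᶜ.indicator (fun _ => (1:ℝ≥0∞)) x < ENNReal.ofReal (b - a) + 1 := by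
    have hle : ∫⁻ x in Icc a b, Eᶜ.indicator (fun _ => (1:ℝ≥0∞)) x ≤ ENNReal.ofReal (b - a) := by
      calc ∫⁻ x in Icc a b, Eᶜ.indicator (fun _ => (1:ℝ≥0∞)) x ≤ ∫⁻ x in Icc a b, 1 := by
            refine lintegral_mono fun x => ?_
            exact indicator_le_self' (fun _ _ => by simp) x
        _ = ENNReal.ofReal (b - a) := by simp
    exact lt_of_le_of_lt hle (ENNReal.lt_add_right ENNReal.ofReal_ne_top one_ne_zero)
  have hev := hconv.eventually (gt_mem_nhds hlt)
  have hr : ∀ᶠ y in 𝓝[>] (0:ℝ), y < r₀ := by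
    have := Ioo_mem_nhdsGT hr₀
    filter_upwards [this] with y hy using hy.2
  filter_upwards [hev, self_mem_nhdsWithin, hr] with y hy1 hy2 hy3
  have hy2 : 0 < y := hy2
  have hgm := hg y hy2
  calc ∫⁻ x in Icc a b, g y x * W y x
      ≤ ∫⁻ x in Icc a b, ((2 + 2 * (g y x) ^ 2 + (g y x) ^ 2) + k y x) :=
        lintegral_mono fun x => hpt y hy2 hy3 x
    _ = (∫⁻ x in Icc a b, (2 + 3 * (g y x) ^ 2)) + ∫⁻ x in Icc a b, k y x := by
        rw [lintegral_add_right _ (hkm y hy2)]
        congr 2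
        ext x
        ring
    _ = (2 * ENNReal.ofReal (b - a) + 3 * ∫⁻ x in Icc a b, (g y x) ^ 2) +
          ∫⁻ x in Icc a b, k y x := by
        rw [lintegral_add_left measurable_const, lintegral_const_mul _ (by fun_prop)]
        simp
    _ ≤ (2 * ENNReal.ofReal (b - a) + 3 * M) + (ENNReal.ofReal (b - a) + 1) := by
        gcongr
        exact hL2 y hy2 hy3
    _ = _ := by ring

end Pool.Agent.Lib.MP_0e9c6a_an
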