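import Pool.Agent.Lib.MP_0e9c6a_an.Leb

set_option autoImplicit false

open MeasureTheory Complex Set Filter Topology
open scoped Real ENNReal

namespace Pool.Agent.Lib.MP_0e9c6a_an

/-- Cauchy integral `∫ f(t)/(t - z) dt`. -/
noncomputable def cau (f : ℝ → ℂ) (z : ℂ) : ℂ := ∫ t : ℝ, f t / ((t : ℂ) - z)

lemma poisson_integrable (x : ℝ) {y : ℝ} (hy : 0 < y) :
    Integrable (fun t : ℝ => y / ((t - x) ^ 2 + y ^ 2)) := by
  have h1 : Integrable (fun t : ℝ => (1 + t ^ 2)⁻¹) := integrable_inv_one_add_sq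
  have h2 : Integrable (fun t : ℝ => (1 + (t / y) ^ 2)⁻¹) := h1.comp_div hy.ne'
  have h3 : Integrable (fun t : ℝ => (1 + ((t - x) / y) ^ 2)⁻¹) := h2.comp_sub_right x
  refine (h3.const_mul y⁻¹).congr (Filter.Eventually.of_forall fun t => ?_)
  simp only
  field_simp
  ring

lemma poisson_integral (x : ℝ) {y : ℝ} (hy : 0 < y) :
    ∫ t : ℝ, y / ((t - x) ^ 2 + y ^ 2) = π := by
  have h1 : ∫ t : ℝ, (1 + t ^ 2)⁻¹ = π := integral_univ_inv_one_add_sq
  have h2 : ∫ t : ℝ, (1 + (t / y) ^ 2)⁻¹ = y * π := by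
    rw [Measure.integral_comp_div (fun t : ℝ => (1 + t ^ 2)⁻¹) y, h1, abs_of_pos hy, smul_eq_mul]
  have h3 : ∫ t : ℝ, (1 + ((t - x) / y) ^ 2)⁻¹ = y * π := by
    rw [← h2, ← integral_sub_right_eq_self (fun t : ℝ => (1 + (t / y) ^ 2)⁻¹) x]
  have h4 : ∀ t : ℝ, y / ((t - x) ^ 2 + y ^ 2) = y⁻¹ * (1 + ((t - x) / y) ^ 2)⁻¹ := by
    intro t
    field_simp
    ring
  simp_rw [h4]
  rw [integral_const_mul, h3]
  field_simp

lemma lintegral_poisson (x : ℝ) {y : ℝ} (hy : 0 < y) :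
    ∫⁻ t : ℝ, ENNReal.ofReal (y / ((t - x) ^ 2 + y ^ 2)) = ENNReal.ofReal π := by
  rw [← ofReal_integral_eq_lintegral_ofReal (poisson_integrable x hy), poisson_integral x hy]
  exact Filter.Eventually.of_forall fun t => by positivity

lemma norm_sub_sq (t : ℝ) (z : ℂ) : ‖(t : ℂ) - z‖ ^ 2 = (t - z.re) ^ 2 + z.im ^ 2 := by
  rw [← Complex.normSq_eq_norm_sq, Complex.normSq_apply]
  simp
  ring

lemma sub_ne_zero_of_im {z : ℂ} (hz : z.im ≠ 0) (t : ℝ) : (t : ℂ) - z ≠ 0 := by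
  intro h
  apply hz
  have := congrArg Complex.im h
  simpa using this

lemma abs_im_le_norm_sub (t : ℝ) (z : ℂ) : |z.im| ≤ ‖(t : ℂ) - z‖ := by
  have := Complex.abs_im_le_norm ((t : ℂ) - z)
  simpa using this

lemma enorm_kernel_sq {z : ℂ} (hz : z.im ≠ 0) (t : ℝ) :
    ‖((t : ℂ) - z)⁻¹‖ₑ ^ 2 = ENNReal.ofReal |z.im|⁻¹ * ENNReal.ofReal (|z.im| / ((t - z.re) ^ 2 +
      |z.im| ^ 2)) := by
  have habs : 0 < |z.im| := abs_pos.mpr hz
  rw [← ofReal_norm, ← ENNReal.ofReal_pow (norm_nonneg _), ← ENNReal.ofReal_mul (by positivity)]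
  congr 1
  rw [norm_inv, inv_pow, norm_sub_sq, sq_abs]
  field_simp

lemma lintegral_kernel_sq {z : ℂ} (hz : z.im ≠ 0) :
    ∫⁻ t : ℝ, ‖((t : ℂ) - z)⁻¹‖ₑ ^ 2 = ENNReal.ofReal (π / |z.im|) := by
  have habs : 0 < |z.im| := abs_pos.mpr hz
  simp_rw [enorm_kernel_sq hz]
  rw [lintegral_const_mul' _ _ ENNReal.ofReal_ne_top, lintegral_poisson _ habs,
    ← ENNReal.ofReal_mul (by positivity)]
  congr 1
  field_simp

lemma continuous_kernel {z : ℂ} (hz : z.im ≠ 0) : Continuous (fun t : ℝ => ((t : ℂ) - z)⁻¹) := by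
  refine Continuous.inv₀ (by fun_prop) (sub_ne_zero_of_im hz)

lemma memLp_kernel {z : ℂ} (hz : z.im ≠ 0) : MemLp (fun t : ℝ => ((t : ℂ) - z)⁻¹) 2 := by
  refine ⟨(continuous_kernel hz).aestronglyMeasurable, ?_⟩
  rw [eLpNorm_lt_top_iff_lintegral_rpow_enorm_lt_top (by norm_num) (by norm_num)]
  have : ∫⁻ t : ℝ, ‖((t : ℂ) - z)⁻¹‖ₑ ^ (2:ℝ≥0∞).toReal = ∫⁻ t : ℝ, ‖((t : ℂ) - z)⁻¹‖ₑ ^ 2 := by
    simp
  rw [this, lintegral_kernel_sq hz]
  exact ENNReal.ofReal_lt_top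

lemma integrable_cau {f : ℝ → ℂ} (hf : MemLp f 2) {z : ℂ} (hz : z.im ≠ 0) :
    Integrable (fun t : ℝ => f t / ((t : ℂ) - z)) := by
  have := hf.integrable_mul (memLp_kernel hz)
  refine this.congr (Filter.Eventually.of_forall fun t => ?_)
  simp [div_eq_mul_inv]

lemma lintegral_sq_ne_top {f : ℝ → ℂ} (hf : MemLp f 2) : ∫⁻ t, ‖f t‖ₑ ^ 2 ≠ ⊤ := by
  have h1 := hf.2
  rw [eLpNorm_lt_top_iff_lintegral_rpow_enorm_lt_top (by norm_num) (by norm_num)] at h1
  simpa using h1.ne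

lemma memLp_two_of_lintegral {f : ℝ → ℂ} (hm : AEStronglyMeasurable f)
    (h : ∫⁻ t, ‖f t‖ₑ ^ 2 ≠ ⊤) : MemLp f 2 := by
  refine ⟨hm, ?_⟩
  rw [eLpNorm_lt_top_iff_lintegral_rpow_enorm_lt_top (by norm_num) (by norm_num)]
  simpa using h.lt_top

/-- Cauchy–Schwarz for `ℝ≥0∞`-valued functions. -/
lemma cauchy_schwarz {α : Type*} [MeasurableSpace α] {μ : Measure α} {f g : α → ℝ≥0∞}
    (hf : AEMeasurable f μ) (hg : AEMeasurable g μ) :
    (∫⁻ a, f a * g a ∂μ) ^ 2 ≤ (∫⁻ a, f a ^ 2 ∂μ) * ∫⁻ a, g a ^ 2 ∂μ := by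
  have h := ENNReal.lintegral_mul_le_Lp_mul_Lq μ (p := 2) (q := 2)
    (by constructor <;> norm_num) hf hg
  have h2 : (∫⁻ a, f a * g a ∂μ) ^ 2 ≤ ((∫⁻ a, f a ^ (2:ℝ) ∂μ) ^ (1 / (2:ℝ)) *
      (∫⁻ a, g a ^ (2:ℝ) ∂μ) ^ (1 / (2:ℝ))) ^ 2 := by
    gcongr
    exact h
  refine h2.trans (le_of_eq ?_)
  rw [mul_pow, ← ENNReal.rpow_natCast, ← ENNReal.rpow_natCast, ← ENNReal.rpow_mul,
    ← ENNReal.rpow_mul]
  norm_num

lemma enorm_cau_sq_le {f : ℝ → ℂ} (hf : AEStronglyMeasurable f) {z : ℂ} (hz : z.im ≠ 0) :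
    ‖cau f z‖ₑ ^ 2 ≤ (∫⁻ t, ‖f t‖ₑ ^ 2) * ENNReal.ofReal (π / |z.im|) := by
  have h1 : ‖cau f z‖ₑ ≤ ∫⁻ t : ℝ, ‖f t‖ₑ * ‖((t : ℂ) - z)⁻¹‖ₑ := by
    refine (enorm_integral_le_lintegral_enorm _).trans (le_of_eq ?_)
    refine lintegral_congr fun t => ?_
    rw [div_eq_mul_inv, enorm_mul]
  calc ‖cau f z‖ₑ ^ 2 ≤ (∫⁻ t : ℝ, ‖f t‖ₑ * ‖((t : ℂ) - z)⁻¹‖ₑ) ^ 2 := by gcongr
    _ ≤ (∫⁻ t, ‖f t‖ₑ ^ 2) * ∫⁻ t : ℝ, ‖((t : ℂ) - z)⁻¹‖ₑ ^ 2 :=
        cauchy_schwarz hf.enorm (continuous_kernel hz).enorm.aemeasurable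
    _ = _ := by rw [lintegral_kernel_sq hz]

/-- Pointwise bound `‖cau f z‖ ≤ C / √|im z|`. -/
lemma exists_norm_cau_le {f : ℝ → ℂ} (hf : MemLp f 2) :
    ∃ C : ℝ, 0 ≤ C ∧ ∀ z : ℂ, z.im ≠ 0 → ‖cau f z‖ ^ 2 ≤ C / |z.im| := by
  refine ⟨(∫⁻ t, ‖f t‖ₑ ^ 2).toReal * π, by positivity, fun z hz => ?_⟩
  have habs : 0 < |z.im| := abs_pos.mpr hz
  have h := enorm_cau_sq_le hf.1 hz
  have h2 := (ENNReal.toReal_le_toReal (by simp)
    (ENNReal.mul_ne_top (lintegral_sq_ne_top hf) ENNReal.ofReal_ne_top)).mpr h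
  rw [ENNReal.toReal_mul, ENNReal.toReal_ofReal (by positivity), ENNReal.toReal_pow,
    toReal_enorm] at h2
  refine h2.trans (le_of_eq ?_)
  ring

lemma half_norm_le {z w : ℂ} (_hz : z.im ≠ 0) (hw : w ∈ Metric.ball z (|z.im| / 2)) (t : ℝ) :
    ‖(t : ℂ) - z‖ / 2 ≤ ‖(t : ℂ) - w‖ := by
  rw [Metric.mem_ball, dist_eq_norm] at hw
  have h1 := abs_im_le_norm_sub t z
  have h2 : ‖(t : ℂ) - z‖ ≤ ‖(t : ℂ) - w‖ + ‖w - z‖ := by
    calc ‖(t : ℂ) - z‖ = ‖((t : ℂ) - w) + (w - z)‖ := by congr 1; ring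
      _ ≤ _ := norm_add_le _ _
  linarith

lemma im_ne_zero_of_mem_ball {z w : ℂ} (hz : z.im ≠ 0) (hw : w ∈ Metric.ball z (|z.im| / 2)) :
    w.im ≠ 0 := by
  rw [Metric.mem_ball, dist_eq_norm] at hw
  intro h0
  have h1 := Complex.abs_im_le_norm (w - z)
  rw [Complex.sub_im, h0, zero_sub, abs_neg] at h1
  have : 0 < |z.im| := abs_pos.mpr hz
  linarith

lemma hasDerivAt_cau {f : ℝ → ℂ} (hf : MemLp f 2) {z : ℂ} (hz : z.im ≠ 0) :
    Integrable (fun t : ℝ => f t / ((t : ℂ) - z) ^ 2) ∧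
    HasDerivAt (cau f) (∫ t : ℝ, f t / ((t : ℂ) - z) ^ 2) z := by
  have habs : 0 < |z.im| := abs_pos.mpr hz
  have hs : Metric.ball z (|z.im| / 2) ∈ 𝓝 z := Metric.ball_mem_nhds z (by positivity)
  refine hasDerivAt_integral_of_dominated_loc_of_deriv_le (𝕜 := ℂ)
    (F := fun (w : ℂ) (t : ℝ) => f t / ((t : ℂ) - w))
    (F' := fun (w : ℂ) (t : ℝ) => f t / ((t : ℂ) - w) ^ 2)
    (bound := fun t => 4 / |z.im| * ‖f t / ((t : ℂ) - z)‖) hs ?_ (integrable_cau hf hz) ?_ ?_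
    ((integrable_cau hf hz).norm.const_mul _) ?_
  · filter_upwards [hs] with w hw
    exact (integrable_cau hf (im_ne_zero_of_mem_ball hz hw)).1
  · have : (fun t : ℝ => f t / ((t : ℂ) - z) ^ 2) =
        fun t : ℝ => (f t / ((t : ℂ) - z)) * ((t : ℂ) - z)⁻¹ := by
      ext t
      have := sub_ne_zero_of_im hz t
      field_simp
    rw [this]
    exact (integrable_cau hf hz).1.mul (continuous_kernel hz).aestronglyMeasurable
  · refine Filter.Eventually.of_forall fun t w hw => ?_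
    have h1 := half_norm_le hz hw t
    have h2 := abs_im_le_norm_sub t z
    have h3 : 0 < ‖(t : ℂ) - z‖ := lt_of_lt_of_le habs h2
    rw [norm_div, norm_div, norm_pow]
    have h4 : (‖(t : ℂ) - z‖ / 2) ^ 2 ≤ ‖(t : ℂ) - w‖ ^ 2 := by gcongr
    calc ‖f t‖ / ‖(t : ℂ) - w‖ ^ 2 ≤ ‖f t‖ / (‖(t : ℂ) - z‖ / 2) ^ 2 := by gcongr
      _ = 4 / ‖(t : ℂ) - z‖ * (‖f t‖ / ‖(t : ℂ) - z‖) := by field_simp; norm_num
      _ ≤ 4 / |z.im| * (‖f t‖ / ‖(t : ℂ) - z‖) := by gcongr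
  · refine Filter.Eventually.of_forall fun t w hw => ?_
    have h1 : (t : ℂ) - w ≠ 0 := sub_ne_zero_of_im (im_ne_zero_of_mem_ball hz hw) t
    have h2 : HasDerivAt (fun w : ℂ => (t : ℂ) - w) (-1) w := (hasDerivAt_id w).const_sub _
    have := (hasDerivAt_const w (f t)).div h2 h1
    convert! this using 1
    ring

lemma cau_conj (f : ℝ → ℂ) (z : ℂ) :
    cau f (starRingEnd ℂ z) = starRingEnd ℂ (cau (fun t => starRingEnd ℂ (f t)) z) := by
  unfold cau
  rw [← integral_conj]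
  congr 1
  ext t
  simp

/-- Boundary limit of the jump. -/
lemma ae_tendsto_jump {f : ℝ → ℂ} (hf : MemLp f 2) :
    ∀ᵐ x : ℝ, Tendsto (fun y : ℝ => (cau f (x + y * I) - cau f (x - y * I)) / (2 * π * I))
      (𝓝[>] 0) (𝓝 (f x)) := by
  filter_upwards [ae_tendsto_poisson hf] with x hx
  rw [tendsto_iff_norm_sub_tendsto_zero]
  have h2 := (ENNReal.tendsto_toReal (a := 0) (by simp)).comp hx
  have h3 := h2.const_mul (π⁻¹)
  simp only [ENNReal.toReal_zero, mul_zero] at h3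
  refine tendsto_of_tendsto_of_tendsto_of_le_of_le' tendsto_const_nhds h3
    (Filter.Eventually.of_forall fun y => norm_nonneg _) ?_
  have hfin := hx.eventually (gt_mem_nhds (show (0:ℝ≥0∞) < ⊤ by simp))
  filter_upwards [self_mem_nhdsWithin, hfin] with y hy hyfin
  have hy : 0 < y := hy
  simp only [Function.comp]
  have him1 : ((x:ℂ) + y * I).im ≠ 0 := by simpa using hy.ne'
  have him2 : ((x:ℂ) - y * I).im ≠ 0 := by simpa using hy.ne'
  have e1 : (cau f (x + y * I) - cau f (x - y * I)) / (2 * π * I) - f x =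
      (π:ℂ)⁻¹ * ∫ t : ℝ, (f t - f x) * ((y / ((t - x) ^ 2 + y ^ 2) : ℝ) : ℂ) := by
    have i1 := integrable_cau hf him1
    have i2 := integrable_cau hf him2
    have e2 : cau f (x + y * I) - cau f (x - y * I) =
        2 * I * ∫ t : ℝ, f t * ((y / ((t - x) ^ 2 + y ^ 2) : ℝ) : ℂ) := by
      unfold cau
      rw [← integral_sub i1 i2, ← integral_const_mul]
      congr 1
      ext t
      have n1 := sub_ne_zero_of_im him1 t
      have n2 := sub_ne_zero_of_im him2 t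
      have n3 : (((t:ℂ) - x) ^ 2 + y ^ 2) ≠ 0 := by
        have : (0:ℝ) < (t - x) ^ 2 + y ^ 2 := by positivity
        exact_mod_cast this.ne'
      push_cast
      rw [div_sub_div _ _ n1 n2, mul_div_assoc', mul_div_assoc', div_eq_div_iff (mul_ne_zero n1 n2) n3]
      ring_nf
      simp only [show (I:ℂ)^3 = -I by rw [pow_succ, Complex.I_sq]; ring]
      ring
    have i3 : Integrable (fun t : ℝ => f t * ((y / ((t - x) ^ 2 + y ^ 2) : ℝ) : ℂ)) := by
      have := (i1.sub i2).const_mul (1 / (2 * I))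
      refine this.congr (Filter.Eventually.of_forall fun t => ?_)
      simp only [Pi.sub_apply]
      have n1 := sub_ne_zero_of_im him1 t
      have n2 := sub_ne_zero_of_im him2 t
      have n3 : (((t:ℂ) - x) ^ 2 + y ^ 2) ≠ 0 := by
        have : (0:ℝ) < (t - x) ^ 2 + y ^ 2 := by positivity
        exact_mod_cast this.ne'
      have n4 : (2 * I : ℂ) ≠ 0 := by simp
      push_cast
      rw [div_sub_div _ _ n1 n2, div_mul_div_comm, mul_div_assoc',
        div_eq_div_iff (mul_ne_zero n4 (mul_ne_zero n1 n2)) n3]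
      ring_nf
      simp only [show (I:ℂ)^3 = -I by rw [pow_succ, Complex.I_sq]; ring]
      ring
    have i4 : Integrable (fun t : ℝ => f x * ((y / ((t - x) ^ 2 + y ^ 2) : ℝ) : ℂ)) :=
      ((poisson_integrable x hy).ofReal).const_mul _
    have e3 : ∫ t : ℝ, f x * ((y / ((t - x) ^ 2 + y ^ 2) : ℝ) : ℂ) = f x * π := by
      rw [integral_const_mul]
      congr 1
      rw [integral_complex_ofReal, poisson_integral x hy]
    have e4 : ∫ t : ℝ, (f t - f x) * ((y / ((t - x) ^ 2 + y ^ 2) : ℝ) : ℂ) =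
        (∫ t : ℝ, f t * ((y / ((t - x) ^ 2 + y ^ 2) : ℝ) : ℂ)) - f x * π := by
      rw [← e3, ← integral_sub i3 i4]
      congr 1
      ext t
      ring
    rw [e4, e2]
    have hπ : (π:ℂ) ≠ 0 := by exact_mod_cast Real.pi_ne_zero
    field_simp
  rw [e1, norm_mul, norm_inv, Complex.norm_real, Real.norm_of_nonneg Real.pi_pos.le]
  refine mul_le_mul_of_nonneg_left ?_ (by positivity)
  refine (norm_integral_le_lintegral_norm _).trans ?_
  refine (ENNReal.toReal_le_toReal ?_ hyfin.ne).mpr ?_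
  · refine ne_top_of_le_ne_top hyfin.ne (le_of_eq ?_)
    refine lintegral_congr fun t => ?_
    rw [norm_mul, ENNReal.ofReal_mul (norm_nonneg _), ofReal_norm, Complex.norm_real,
      Real.norm_of_nonneg (by positivity)]
  · refine le_of_eq ?_
    refine lintegral_congr fun t => ?_
    rw [norm_mul, ENNReal.ofReal_mul (norm_nonneg _), ofReal_norm, Complex.norm_real,
      Real.norm_of_nonneg (by positivity)]

/-- At almost every zero of `f`, the Cauchy integral on both sides is asymptotic to minus the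
truncated Hilbert transform. -/
lemma ae_tendsto_hilbert {f : ℝ → ℂ} (hf : MemLp f 2) :
    ∀ᵐ x : ℝ, f x = 0 → ∀ σ : ℝ, (σ = 1 ∨ σ = -1) →
      Tendsto (fun y : ℝ => cau f (x + σ * y * I) +
        ∫ t in {t : ℝ | y < |x - t|}, f t / ((x - t : ℝ) : ℂ)) (𝓝[>] 0) (𝓝 0) := by
  filter_upwards [ae_tendsto_poisson hf] with x hx hfx σ hσ
  simp only [hfx, sub_zero] at hx
  have hσ2 : σ ^ 2 = 1 := by rcases hσ with h | h <;> rw [h] <;> norm_num
  rw [tendsto_zero_iff_norm_tendsto_zero]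
  have h2 := (ENNReal.tendsto_toReal (a := 0) (by simp)).comp hx
  have h3 := h2.const_mul (2:ℝ)
  simp only [ENNReal.toReal_zero, mul_zero] at h3
  refine tendsto_of_tendsto_of_tendsto_of_le_of_le' tendsto_const_nhds h3
    (Filter.Eventually.of_forall fun y => norm_nonneg _) ?_
  have hfin := hx.eventually (gt_mem_nhds (show (0:ℝ≥0∞) < ⊤ by simp))
  filter_upwards [self_mem_nhdsWithin, hfin] with y hy hyfin
  have hy : 0 < y := hy
  simp only [Function.comp]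
  have him : ((x:ℂ) + σ * y * I).im ≠ 0 := by
    have : σ ≠ 0 := by rintro rfl; norm_num at hσ2
    simpa using ⟨this, hy.ne'⟩
  have hre : ((x:ℂ) + σ * y * I).re = x := by simp
  have him' : ((x:ℂ) + σ * y * I).im = σ * y := by simp
  have hms : MeasurableSet {t : ℝ | y < |x - t|} :=
    (isOpen_lt continuous_const (by fun_prop)).measurableSet
  have i1 := integrable_cau hf him
  -- pointwise inequality
  have pt : ∀ t : ℝ, ‖f t / ((t:ℂ) - (x + σ * y * I)) +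
      {t : ℝ | y < |x - t|}.indicator (fun t => f t / ((x - t : ℝ) : ℂ)) t‖ ≤
      2 * (‖f t‖ * (y / ((t - x) ^ 2 + y ^ 2))) := by
    intro t
    have n1 := sub_ne_zero_of_im him t
    set s := ‖(t:ℂ) - (x + σ * y * I)‖ with hs
    have hs2 : s ^ 2 = (t - x) ^ 2 + y ^ 2 := by
      rw [hs, norm_sub_sq, hre, him', mul_pow, hσ2, one_mul]
    have hs0 : 0 < s := norm_pos_iff.mpr n1
    rw [← hs2]
    by_cases ht : y < |x - t|
    · rw [indicator_of_mem (show t ∈ {t : ℝ | y < |x - t|} from ht)]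
      have hxt : (x - t : ℝ) ≠ 0 := by
        intro h
        rw [h, abs_zero] at ht
        linarith
      have hxt' : ((x - t : ℝ) : ℂ) ≠ 0 := by exact_mod_cast hxt
      have e : f t / ((t:ℂ) - (x + σ * y * I)) + f t / ((x - t : ℝ) : ℂ) =
          f t * (-(σ * y * I)) / (((t:ℂ) - (x + σ * y * I)) * ((x - t : ℝ) : ℂ)) := by
        rw [div_add_div _ _ n1 hxt']
        congr 1
        push_cast
        ring
      rw [e, norm_div, norm_mul, norm_mul, ← hs, norm_neg, norm_mul, norm_mul, Complex.norm_I,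
        Complex.norm_real, Complex.norm_real, Complex.norm_real, Real.norm_eq_abs,
        Real.norm_eq_abs, Real.norm_eq_abs, abs_of_pos hy]
      have hσ1 : |σ| = 1 := by rcases hσ with h | h <;> rw [h] <;> norm_num
      rw [hσ1]
      have hA : 0 < |x - t| := abs_pos.mpr hxt
      have hle : s ≤ 2 * |x - t| := by
        refine abs_le_of_sq_le_sq' ?_ (by positivity) |>.2
        rw [hs2, mul_pow, sq_abs]
        nlinarith [sq_abs (x - t)]
      rw [mul_one, one_mul, div_le_iff₀ (by positivity)]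
      have : 2 * (‖f t‖ * (y / s ^ 2)) * (s * |x - t|) = ‖f t‖ * y * (2 * |x - t| / s) := by
        field_simp
      rw [this]
      have h1 : 1 ≤ 2 * |x - t| / s := by
        rw [le_div_iff₀ hs0]; linarith
      have h0 : 0 ≤ ‖f t‖ * y := by positivity
      nlinarith
    · rw [indicator_of_notMem (show t ∉ {t : ℝ | y < |x - t|} from ht), add_zero, norm_div, ← hs]
      have ht := not_lt.mp ht
      have hle : s ≤ 2 * y := by
        refine abs_le_of_sq_le_sq' ?_ (by positivity) |>.2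
        rw [hs2]
        have : (t - x) ^ 2 ≤ y ^ 2 := by
          rw [← sq_abs (t - x), abs_sub_comm]
          exact pow_le_pow_left₀ (abs_nonneg _) ht 2
        nlinarith
      rw [div_le_iff₀ hs0]
      have : 2 * (‖f t‖ * (y / s ^ 2)) * s = ‖f t‖ * (2 * y / s) := by
        field_simp
      rw [this]
      have h1 : 1 ≤ 2 * y / s := by
        rw [le_div_iff₀ hs0]; linarith
      nlinarith [norm_nonneg (f t)]
  have hfinal : ∫⁻ t, ENNReal.ofReal (2 * (‖f t‖ * (y / ((t - x) ^ 2 + y ^ 2)))) =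
      2 * ∫⁻ t, ‖f t‖ₑ * ENNReal.ofReal (y / ((t - x) ^ 2 + y ^ 2)) := by
    rw [← lintegral_const_mul' _ _ (by simp)]
    refine lintegral_congr fun t => ?_
    rw [ENNReal.ofReal_mul (by norm_num), ENNReal.ofReal_mul (norm_nonneg _), ofReal_norm]
    simp
  -- integrability of the indicator part
  have i2 : Integrable ({t : ℝ | y < |x - t|}.indicator (fun t => f t / ((x - t : ℝ) : ℂ))) := by
    have hm : AEStronglyMeasurable
        ({t : ℝ | y < |x - t|}.indicator (fun t => f t / ((x - t : ℝ) : ℂ))) := by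
      refine AEStronglyMeasurable.indicator ?_ hms
      simp only [div_eq_mul_inv]
      exact hf.1.mul
        (by fun_prop : Measurable fun t : ℝ => (((x - t : ℝ) : ℂ))⁻¹).aestronglyMeasurable
    have hd : AEStronglyMeasurable (fun t => f t / ((t:ℂ) - (x + σ * y * I)) +
      {t : ℝ | y < |x - t|}.indicator (fun t => f t / ((x - t : ℝ) : ℂ)) t) := i1.1.add hm
    have hi : Integrable (fun t => f t / ((t:ℂ) - (x + σ * y * I)) +
      {t : ℝ | y < |x - t|}.indicator (fun t => f t / ((x - t : ℝ) : ℂ)) t) := by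
      refine ⟨hd, ?_⟩
      rw [hasFiniteIntegral_iff_norm]
      refine lt_of_le_of_lt (lintegral_mono fun t => ENNReal.ofReal_le_ofReal (pt t)) ?_
      rw [hfinal]
      exact ENNReal.mul_lt_top (by simp) hyfin
    have := hi.sub i1
    refine this.congr (Filter.Eventually.of_forall fun t => ?_)
    simp
  have e1 : cau f (x + σ * y * I) + ∫ t in {t : ℝ | y < |x - t|}, f t / ((x - t : ℝ) : ℂ) =
      ∫ t, (f t / ((t:ℂ) - (x + σ * y * I)) +
      {t : ℝ | y < |x - t|}.indicator (fun t => f t / ((x - t : ℝ) : ℂ)) t) := by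
    rw [integral_add i1 i2, integral_indicator hms]
    rfl
  rw [e1]
  refine (norm_integral_le_lintegral_norm _).trans ?_
  have h4 : (2 * ∫⁻ t, ‖f t‖ₑ * ENNReal.ofReal (y / ((t - x) ^ 2 + y ^ 2))).toReal =
      2 * (∫⁻ t, ‖f t‖ₑ * ENNReal.ofReal (y / ((t - x) ^ 2 + y ^ 2))).toReal := by
    rw [ENNReal.toReal_mul]; simp
  rw [← h4]
  refine (ENNReal.toReal_le_toReal ?_ (ENNReal.mul_ne_top (by simp) hyfin.ne)).mpr ?_
  · refine ne_top_of_le_ne_top (ENNReal.mul_ne_top (by simp) hyfin.ne) (?_ : _ ≤ 2 * ∫⁻ t, ‖f t‖ₑ *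
      ENNReal.ofReal (y / ((t - x) ^ 2 + y ^ 2)))
    rw [← hfinal]
    exact lintegral_mono fun t => ENNReal.ofReal_le_ofReal (pt t)
  · rw [← hfinal]
    exact lintegral_mono fun t => ENNReal.ofReal_le_ofReal (pt t)

end Pool.Agent.Lib.MP_0e9c6a_an
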