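import Pool.Agent.Lib.MP_0e9c6a_an.Cau1

set_option autoImplicit false

open MeasureTheory Complex Set Filter Topology
open scoped Real ENNReal

namespace Pool.Agent.Lib.MP_0e9c6a_an

lemma tendsto_inv_sq_add {y : ℝ} :
    Tendsto (fun u : ℝ => (u ^ 2 + y ^ 2)⁻¹) (cocompact ℝ) (𝓝 0) := by
  refine tendsto_inv_atTop_zero.comp ?_
  refine tendsto_atTop_add_const_right _ _ ?_
  have h1 : Tendsto (fun u : ℝ => ‖u‖ ^ 2) (cocompact ℝ) atTop :=
    (tendsto_pow_atTop (by norm_num)).comp (tendsto_norm_cocompact_atTop (E := ℝ))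
  refine h1.congr fun u => ?_
  rw [Real.norm_eq_abs, sq_abs]

lemma tendsto_div_sq_add {y : ℝ} (hy : 0 < y) :
    Tendsto (fun u : ℝ => u / (u ^ 2 + y ^ 2)) (cocompact ℝ) (𝓝 0) := by
  have h1 : Tendsto (fun u : ℝ => √((u ^ 2 + y ^ 2)⁻¹)) (cocompact ℝ) (𝓝 0) := by
    have := (Real.continuous_sqrt.tendsto 0).comp (tendsto_inv_sq_add (y := y))
    rw [Real.sqrt_zero] at this
    exact this
  refine squeeze_zero_norm (fun u => ?_) h1
  rw [Real.norm_eq_abs]
  refine Real.abs_le_sqrt ?_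
  rw [div_pow, inv_eq_one_div, div_le_div_iff₀ (by positivity) (by positivity)]
  nlinarith [sq_nonneg u, sq_nonneg y, mul_nonneg (sq_nonneg u) (sq_nonneg y), sq_nonneg (y^2)]

/-- the real part integral vanishes -/
lemma integral_real_part (s t : ℝ) {y : ℝ} (hy : 0 < y)
    (hi : Integrable (fun x : ℝ => (x - t) / ((x - t) ^ 2 + y ^ 2) - (x - s) / ((x - s) ^ 2 + y ^ 2))) :
    ∫ x : ℝ, ((x - t) / ((x - t) ^ 2 + y ^ 2) - (x - s) / ((x - s) ^ 2 + y ^ 2)) = 0 := by
  set R : ℝ → ℝ := fun x => (Real.log ((x - t) ^ 2 + y ^ 2) - Real.log ((x - s) ^ 2 + y ^ 2)) / 2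
    with hR
  have hpos : ∀ a x : ℝ, 0 < (x - a) ^ 2 + y ^ 2 := fun a x => by positivity
  have hd : ∀ x, HasDerivAt R ((x - t) / ((x - t) ^ 2 + y ^ 2) - (x - s) / ((x - s) ^ 2 + y ^ 2)) x := by
    intro x
    have h1 : ∀ a : ℝ, HasDerivAt (fun x : ℝ => Real.log ((x - a) ^ 2 + y ^ 2))
        ((2 * (x - a)) / ((x - a) ^ 2 + y ^ 2)) x := by
      intro a
      have e1 : HasDerivAt (fun x : ℝ => (x - a) ^ 2 + y ^ 2) (2 * (x - a)) x := by
        have := (((hasDerivAt_id x).sub_const a).pow 2).add_const (y ^ 2)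
        simpa using this
      exact e1.log (hpos a x).ne'
    have := ((h1 t).sub (h1 s)).div_const 2
    convert! this using 1
    ring
  have hlim : Tendsto R (cocompact ℝ) (𝓝 0) := by
    have h1 : Tendsto (fun x : ℝ => x - s) (cocompact ℝ) (cocompact ℝ) :=
      (Homeomorph.subRight s).isClosedEmbedding.tendsto_cocompact
    have h2 := ((tendsto_div_sq_add hy).comp h1).const_mul (2 * (s - t))
    have h3 := ((tendsto_inv_sq_add (y := y)).comp h1).const_mul ((s - t) ^ 2)
    have h4 := (h2.add h3).const_add 1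
    simp only [Function.comp_def, mul_zero, add_zero] at h4
    have h5 : Tendsto (fun x : ℝ => ((x - t) ^ 2 + y ^ 2) / ((x - s) ^ 2 + y ^ 2)) (cocompact ℝ)
        (𝓝 1) := by
      refine h4.congr fun x => ?_
      have := (hpos s x).ne'
      field_simp
      ring
    have h6 := ((Real.continuousAt_log (one_ne_zero)).tendsto.comp h5).div_const 2
    simp only [Real.log_one, zero_div] at h6
    refine h6.congr fun x => ?_
    simp only [Function.comp, hR]
    rw [Real.log_div (hpos t x).ne' (hpos s x).ne']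
  have := integral_of_hasDerivAt_of_tendsto hd hi (hlim.mono_left atBot_le_cocompact)
    (hlim.mono_left atTop_le_cocompact)
  simpa using this

lemma memLp_kernel' {z : ℂ} (hz : z.im ≠ 0) : MemLp (fun x : ℝ => ((z : ℂ) - x)⁻¹) 2 := by
  have := (memLp_kernel hz).neg
  refine this.ae_eq (Filter.Eventually.of_forall fun t => ?_)
  simp only [Pi.neg_apply]
  rw [← inv_neg, neg_sub]

/-- `∫ dx / ((s - (x + iy)) (t - (x - iy))) = 2πi / (t - s + 2iy)`. -/
lemma integral_two_kernels (s t : ℝ) {y : ℝ} (hy : 0 < y) :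
    Integrable (fun x : ℝ => ((s : ℂ) - (x + y * I))⁻¹ * ((t : ℂ) - (x - y * I))⁻¹) ∧
    ∫ x : ℝ, ((s : ℂ) - (x + y * I))⁻¹ * ((t : ℂ) - (x - y * I))⁻¹ =
      2 * π * I / (t - s + 2 * y * I) := by
  have m1 : MemLp (fun x : ℝ => ((s : ℂ) - (x + y * I))⁻¹) 2 := by
    have := memLp_kernel' (z := (s:ℂ) - y * I) (by simpa using hy.ne')
    refine this.ae_eq (Filter.Eventually.of_forall fun x => ?_)
    simp only
    congr 1
    ring
  have m2 : MemLp (fun x : ℝ => ((t : ℂ) - (x - y * I))⁻¹) 2 := by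
    have := memLp_kernel' (z := (t:ℂ) + y * I) (by simpa using hy.ne')
    refine this.ae_eq (Filter.Eventually.of_forall fun x => ?_)
    simp only
    congr 1
    ring
  have hint : Integrable (fun x : ℝ => ((s : ℂ) - (x + y * I))⁻¹ * ((t : ℂ) - (x - y * I))⁻¹) :=
    m1.integrable_mul m2
  refine ⟨hint, ?_⟩
  set D : ℂ := t - s + 2 * y * I with hD
  have hD0 : D ≠ 0 := by
    intro h
    have := congrArg Complex.im h
    simp [hD] at this
    exact hy.ne' this
  have hpos : ∀ a x : ℝ, 0 < (x - a) ^ 2 + y ^ 2 := fun a x => by positivity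
  have hform : ∀ x : ℝ, D * (((s : ℂ) - (x + y * I))⁻¹ * ((t : ℂ) - (x - y * I))⁻¹) =
      (((x - t) / ((x - t) ^ 2 + y ^ 2) - (x - s) / ((x - s) ^ 2 + y ^ 2) : ℝ) : ℂ) +
      ((y / ((x - t) ^ 2 + y ^ 2) + y / ((x - s) ^ 2 + y ^ 2) : ℝ) : ℂ) * I := by
    intro x
    have n1 : (s : ℂ) - (x + y * I) ≠ 0 := by
      intro h
      have := congrArg Complex.im h
      simp at this
      exact hy.ne' this
    have n2 : (t : ℂ) - (x - y * I) ≠ 0 := by
      intro h
      have := congrArg Complex.im h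
      simp at this
      exact hy.ne' this
    have n3 : (((x:ℂ) - t) ^ 2 + y ^ 2) ≠ 0 := by exact_mod_cast (hpos t x).ne'
    have n4 : (((x:ℂ) - s) ^ 2 + y ^ 2) ≠ 0 := by exact_mod_cast (hpos s x).ne'
    have f3 : (((x:ℂ) - t) ^ 2 + y ^ 2) = ((t : ℂ) - (x - y * I)) * ((t : ℂ) - (x + y * I)) := by
      ring_nf
      rw [Complex.I_sq]
      ring
    have f4 : (((x:ℂ) - s) ^ 2 + y ^ 2) = ((s : ℂ) - (x + y * I)) * ((s : ℂ) - (x - y * I)) := by
      ring_nf
      rw [Complex.I_sq]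
      ring
    have n5 : (t : ℂ) - (x + y * I) ≠ 0 := by
      intro h
      rw [f3, h, mul_zero] at n3
      exact n3 rfl
    have n6 : (s : ℂ) - (x - y * I) ≠ 0 := by
      intro h
      rw [f4, h, mul_zero] at n4
      exact n4 rfl
    push_cast
    rw [f3, f4, hD]
    field_simp
    ring_nf
  have hre : Integrable (fun x : ℝ => (x - t) / ((x - t) ^ 2 + y ^ 2) -
      (x - s) / ((x - s) ^ 2 + y ^ 2)) := by
    have := (hint.const_mul D).re
    refine this.congr (Filter.Eventually.of_forall fun x => ?_)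
    simp only
    rw [hform x]
    show ((((x - t) / ((x - t) ^ 2 + y ^ 2) - (x - s) / ((x - s) ^ 2 + y ^ 2) : ℝ) : ℂ) +
      ((y / ((x - t) ^ 2 + y ^ 2) + y / ((x - s) ^ 2 + y ^ 2) : ℝ) : ℂ) * I).re = _
    rw [Complex.add_re, Complex.ofReal_re, Complex.re_ofReal_mul, Complex.I_re, mul_zero, add_zero]
  have him : Integrable (fun x : ℝ => y / ((x - t) ^ 2 + y ^ 2) + y / ((x - s) ^ 2 + y ^ 2)) :=
    (poisson_integrable t hy).add (poisson_integrable s hy)
  have hval : D * ∫ x : ℝ, ((s : ℂ) - (x + y * I))⁻¹ * ((t : ℂ) - (x - y * I))⁻¹ = 2 * π * I := by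
    have hre' : Integrable (fun x : ℝ => (((x - t) / ((x - t) ^ 2 + y ^ 2) -
      (x - s) / ((x - s) ^ 2 + y ^ 2) : ℝ) : ℂ)) := hre.ofReal
    have him' : Integrable (fun x : ℝ => ((y / ((x - t) ^ 2 + y ^ 2) +
      y / ((x - s) ^ 2 + y ^ 2) : ℝ) : ℂ) * I) := him.ofReal.mul_const I
    rw [← integral_const_mul]
    simp_rw [hform]
    rw [integral_add hre' him', integral_mul_const,
      integral_complex_ofReal, integral_complex_ofReal, integral_real_part s t hy hre,
      integral_add (poisson_integrable t hy) (poisson_integrable s hy), poisson_integral,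
      poisson_integral]
    · push_cast
      ring
    · exact hy
    · exact hy
  rw [← hval]
  field_simp

end Pool.Agent.Lib.MP_0e9c6a_an
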