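import Pool.Agent.Lib.MP_0e9c6a_an.Cau2

set_option autoImplicit false

open MeasureTheory Complex Set Filter Topology
open scoped Real ENNReal

namespace Pool.Agent.Lib.MP_0e9c6a_an

lemma ennreal_mul_le_sq_add_sq' (a b : ℝ≥0∞) : a * b ≤ a ^ 2 + b ^ 2 := by
  rcases le_total a b with h | h
  · calc a * b ≤ b * b := by gcongr
      _ = b ^ 2 := (sq b).symm
      _ ≤ a ^ 2 + b ^ 2 := le_add_self
  · calc a * b ≤ a * a := by gcongr
      _ = a ^ 2 := (sq a).symm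
      _ ≤ a ^ 2 + b ^ 2 := le_self_add

lemma im_pos_pt (x : ℝ) {y : ℝ} (hy : 0 < y) : ((x:ℂ) + y * I).im ≠ 0 := by simpa using hy.ne'
lemma im_neg_pt (x : ℝ) {y : ℝ} (hy : 0 < y) : ((x:ℂ) - y * I).im ≠ 0 := by simpa using hy.ne'

lemma lintegral_kernel_x (s : ℝ) {y : ℝ} (hy : 0 < y) :
    ∫⁻ x : ℝ, ‖((s : ℂ) - (x + y * I))⁻¹‖ₑ ^ 2 = ENNReal.ofReal (π / y) := by
  have h := lintegral_kernel_sq (z := (s:ℂ) - y * I) (by simpa using hy.ne')
  have h2 : |((s:ℂ) - y * I).im| = y := by simp [abs_of_pos hy]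
  rw [h2] at h
  rw [← h]
  refine lintegral_congr fun x => ?_
  congr 1
  rw [← enorm_neg, ← inv_neg]
  congr 2
  ring

lemma lintegral_kernel_x' (s : ℝ) {y : ℝ} (hy : 0 < y) :
    ∫⁻ x : ℝ, ‖((s : ℂ) - (x - y * I))⁻¹‖ₑ ^ 2 = ENNReal.ofReal (π / y) := by
  have h := lintegral_kernel_sq (z := (s:ℂ) + y * I) (by simpa using hy.ne')
  have h2 : |((s:ℂ) + y * I).im| = y := by simp [abs_of_pos hy]
  rw [h2] at h
  rw [← h]
  refine lintegral_congr fun x => ?_
  congr 1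
  rw [← enorm_neg, ← inv_neg]
  congr 2
  ring

lemma continuous_kernel2 {y : ℝ} (hy : 0 < y) :
    Continuous (fun p : ℝ × ℝ => ((p.2 : ℂ) - (p.1 + y * I))⁻¹) := by
  refine Continuous.inv₀ (by fun_prop) fun p => ?_
  exact sub_ne_zero_of_im (im_pos_pt p.1 hy) p.2

lemma continuous_kernel2' {y : ℝ} (hy : 0 < y) :
    Continuous (fun p : ℝ × ℝ => ((p.2 : ℂ) - (p.1 - y * I))⁻¹) := by
  refine Continuous.inv₀ (by fun_prop) fun p => ?_
  exact sub_ne_zero_of_im (im_neg_pt p.1 hy) p.2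

lemma continuous_cau_line {f : ℝ → ℂ} (hf : MemLp f 2) {y : ℝ} (hy : 0 < y) :
    Continuous (fun x : ℝ => cau f (x + y * I)) := by
  rw [continuous_iff_continuousAt]
  intro x
  have h1 : ContinuousAt (cau f) ((x:ℂ) + y * I) := (hasDerivAt_cau hf (im_pos_pt x hy)).2.continuousAt
  have h2 : ContinuousAt (fun x : ℝ => (x:ℂ) + y * I) x := by fun_prop
  exact ContinuousAt.comp (f := fun x : ℝ => (x:ℂ) + y * I) h1 h2

/-- a-priori bound for functions supported in `[-n, n]`. -/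
lemma lintegral_cau_sq_le_of_support {f : ℝ → ℂ} (hf : MemLp f 2) {n : ℝ}
    (hs : ∀ t, t ∉ Icc (-n) n → f t = 0) {y : ℝ} (hy : 0 < y) :
    ∫⁻ x : ℝ, ‖cau f (x + y * I)‖ₑ ^ 2 ≤
      (∫⁻ t, ‖f t‖ₑ ^ 2) * (ENNReal.ofReal (π / y) * volume (Icc (-n) n)) := by
  set k : ℝ → ℝ → ℝ≥0∞ := fun x s => ‖((s : ℂ) - (x + y * I))⁻¹‖ₑ with hk
  have hpt : ∀ x : ℝ, ‖cau f (x + y * I)‖ₑ ^ 2 ≤
      (∫⁻ t, ‖f t‖ₑ ^ 2) * ∫⁻ s in Icc (-n) n, (k x s) ^ 2 := by
    intro x
    have h1 : ‖cau f (x + y * I)‖ₑ ≤ ∫⁻ t in Icc (-n) n, ‖f t‖ₑ * k x t := by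
      have h0 : cau f (x + y * I) = ∫ t in Icc (-n) n, f t / ((t : ℂ) - (x + y * I)) := by
        unfold cau
        rw [setIntegral_eq_integral_of_forall_compl_eq_zero]
        intro t ht
        rw [hs t ht, zero_div]
      rw [h0]
      refine (enorm_integral_le_lintegral_enorm _).trans (le_of_eq ?_)
      refine lintegral_congr fun t => ?_
      rw [div_eq_mul_inv, enorm_mul]
    have hkm : AEMeasurable (fun t => k x t) (volume.restrict (Icc (-n) n)) := by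
      have := (continuous_kernel (im_pos_pt x hy)).enorm.measurable
      exact this.aemeasurable
    calc ‖cau f (x + y * I)‖ₑ ^ 2 ≤ (∫⁻ t in Icc (-n) n, ‖f t‖ₑ * k x t) ^ 2 := by gcongr
      _ ≤ (∫⁻ t in Icc (-n) n, ‖f t‖ₑ ^ 2) * ∫⁻ s in Icc (-n) n, (k x s) ^ 2 :=
          cauchy_schwarz hf.1.enorm.restrict hkm
      _ ≤ _ := by
          gcongr
          exact Measure.restrict_le_self
  have hm2 : Measurable (fun p : ℝ × ℝ => (k p.1 p.2) ^ 2) := by
    have := (continuous_kernel2 hy).enorm.measurable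
    exact this.pow_const 2
  calc ∫⁻ x : ℝ, ‖cau f (x + y * I)‖ₑ ^ 2
      ≤ ∫⁻ x : ℝ, (∫⁻ t, ‖f t‖ₑ ^ 2) * ∫⁻ s in Icc (-n) n, (k x s) ^ 2 := lintegral_mono hpt
    _ = (∫⁻ t, ‖f t‖ₑ ^ 2) * ∫⁻ x : ℝ, ∫⁻ s in Icc (-n) n, (k x s) ^ 2 := by
        rw [lintegral_const_mul' _ _ (lintegral_sq_ne_top hf)]
    _ = (∫⁻ t, ‖f t‖ₑ ^ 2) * ∫⁻ s in Icc (-n) n, ∫⁻ x : ℝ, (k x s) ^ 2 := by
        rw [lintegral_lintegral_swap]
        exact hm2.aemeasurable
    _ = _ := by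
        congr 1
        have : ∀ s : ℝ, ∫⁻ x : ℝ, (k x s) ^ 2 = ENNReal.ofReal (π / y) := fun s =>
          lintegral_kernel_x s hy
        simp_rw [this]
        rw [setLIntegral_const]

/-- The key identity. -/
lemma cau_identity {f : ℝ → ℂ} (hf : MemLp f 2) (hf1 : Integrable f)
    {y : ℝ} (hy : 0 < y) (hfin : ∫⁻ x : ℝ, ‖cau f (x + y * I)‖ₑ ^ 2 ≠ ⊤) :
    ∫ x : ℝ, cau f (x + y * I) * starRingEnd ℂ (cau f (x + y * I)) =
      ∫ t : ℝ, starRingEnd ℂ (f t) * (-(2 * π * I) * cau f (t + (2 * y : ℝ) * I)) := by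
  have hfL1 : ∫⁻ t, ‖f t‖ₑ ≠ ⊤ := hf1.2.ne
  set u : ℝ → ℂ := fun x => cau f (x + y * I) with hu
  have huc : Continuous u := continuous_cau_line hf hy
  -- inner integral
  have inner : ∀ t : ℝ, ∫ x : ℝ, u x * ((t : ℂ) - (x - y * I))⁻¹ =
      -(2 * π * I) * cau f (t + (2 * y : ℝ) * I) := by
    intro t
    have hswap : Integrable (Function.uncurry fun (x : ℝ) (s : ℝ) =>
        f s * (((s : ℂ) - (x + y * I))⁻¹ * ((t : ℂ) - (x - y * I))⁻¹))
        ((volume : Measure ℝ).prod (volume : Measure ℝ)) := by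
      have hmeas : AEStronglyMeasurable (Function.uncurry fun (x : ℝ) (s : ℝ) =>
        f s * (((s : ℂ) - (x + y * I))⁻¹ * ((t : ℂ) - (x - y * I))⁻¹))
        ((volume : Measure ℝ).prod (volume : Measure ℝ)) := by
        refine AEStronglyMeasurable.mul hf.1.comp_snd ?_
        refine AEStronglyMeasurable.mul (continuous_kernel2 hy).aestronglyMeasurable ?_
        have : Continuous (fun p : ℝ × ℝ => ((t : ℂ) - (p.1 - y * I))⁻¹) := by
          refine Continuous.inv₀ (by fun_prop) fun p => ?_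
          exact sub_ne_zero_of_im (im_neg_pt p.1 hy) t
        exact this.aestronglyMeasurable
      refine ⟨hmeas, ?_⟩
      rw [HasFiniteIntegral, lintegral_prod_symm _ hmeas.enorm]
      refine lt_of_le_of_lt (b := ∫⁻ s : ℝ, ‖f s‖ₑ * (2 * ENNReal.ofReal (π / y))) ?_ ?_
      · refine lintegral_mono fun s => ?_
        simp only [Function.uncurry_apply_pair, enorm_mul]
        rw [lintegral_const_mul' _ _ enorm_ne_top]
        gcongr
        calc ∫⁻ x : ℝ, ‖((s : ℂ) - (x + y * I))⁻¹‖ₑ * ‖((t : ℂ) - (x - y * I))⁻¹‖ₑ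
            ≤ ∫⁻ x : ℝ, (‖((s : ℂ) - (x + y * I))⁻¹‖ₑ ^ 2 + ‖((t : ℂ) - (x - y * I))⁻¹‖ₑ ^ 2) :=
              lintegral_mono fun x => ennreal_mul_le_sq_add_sq' _ _
          _ = 2 * ENNReal.ofReal (π / y) := by
              rw [lintegral_add_left, lintegral_kernel_x s hy, lintegral_kernel_x' t hy, two_mul]
              have : Continuous (fun x : ℝ => ((s : ℂ) - (x + y * I))⁻¹) := by
                refine Continuous.inv₀ (by fun_prop) fun x => ?_
                exact sub_ne_zero_of_im (im_pos_pt x hy) s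
              exact this.enorm.measurable.pow_const 2
      · rw [lintegral_mul_const' _ _ (ENNReal.mul_ne_top (by simp) ENNReal.ofReal_ne_top)]
        exact ENNReal.mul_lt_top hfL1.lt_top (ENNReal.mul_lt_top (by simp) ENNReal.ofReal_lt_top)
    have e1 : ∀ x : ℝ, u x * ((t : ℂ) - (x - y * I))⁻¹ =
        ∫ s : ℝ, f s * (((s : ℂ) - (x + y * I))⁻¹ * ((t : ℂ) - (x - y * I))⁻¹) := by
      intro x
      simp only [hu, cau]
      rw [← integral_mul_const]
      congr 1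
      ext s
      ring
    simp_rw [e1]
    rw [integral_integral_swap hswap]
    have e2 : ∀ s : ℝ, ∫ x : ℝ, f s * (((s : ℂ) - (x + y * I))⁻¹ * ((t : ℂ) - (x - y * I))⁻¹) =
        f s * (2 * π * I / (t - s + 2 * y * I)) := by
      intro s
      rw [integral_const_mul, (integral_two_kernels s t hy).2]
    simp_rw [e2]
    unfold cau
    rw [← integral_const_mul]
    congr 1
    ext s
    have n1 : ((s:ℂ) - (t + (2 * y : ℝ) * I)) ≠ 0 := sub_ne_zero_of_im (by simpa using hy.ne') s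
    have n2 : ((t:ℂ) - s + 2 * y * I) ≠ 0 := by
      intro h
      apply n1
      push_cast
      linear_combination -h
    push_cast at n1 ⊢
    have : (s:ℂ) - (t + 2 * y * I) = -(t - s + 2 * y * I) := by ring
    rw [this]
    field_simp
  -- outer swap
  have hswap : Integrable (Function.uncurry fun (x : ℝ) (t : ℝ) =>
      starRingEnd ℂ (f t) * (u x * ((t : ℂ) - (x - y * I))⁻¹))
      ((volume : Measure ℝ).prod (volume : Measure ℝ)) := by
    have hfc : AEStronglyMeasurable (fun t => starRingEnd ℂ (f t)) :=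
      Complex.continuous_conj.comp_aestronglyMeasurable hf.1
    have hmeas : AEStronglyMeasurable (Function.uncurry fun (x : ℝ) (t : ℝ) =>
      starRingEnd ℂ (f t) * (u x * ((t : ℂ) - (x - y * I))⁻¹))
      ((volume : Measure ℝ).prod (volume : Measure ℝ)) := by
      refine AEStronglyMeasurable.mul hfc.comp_snd ?_
      refine AEStronglyMeasurable.mul ?_ (continuous_kernel2' hy).aestronglyMeasurable
      exact (huc.comp continuous_fst).aestronglyMeasurable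
    refine ⟨hmeas, ?_⟩
    rw [HasFiniteIntegral, lintegral_prod_symm _ hmeas.enorm]
    refine lt_of_le_of_lt (b := ∫⁻ t : ℝ, ‖f t‖ₑ * ((∫⁻ x : ℝ, ‖u x‖ₑ ^ 2) +
      ENNReal.ofReal (π / y))) ?_ ?_
    · refine lintegral_mono fun t => ?_
      simp only [Function.uncurry_apply_pair, enorm_mul]
      rw [lintegral_const_mul' _ _ enorm_ne_top]
      have : ‖(starRingEnd ℂ) (f t)‖ₑ = ‖f t‖ₑ := by
        rw [← ofReal_norm, RCLike.norm_conj, ofReal_norm]
      rw [this]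
      gcongr
      calc ∫⁻ x : ℝ, ‖u x‖ₑ * ‖((t : ℂ) - (x - y * I))⁻¹‖ₑ
          ≤ ∫⁻ x : ℝ, (‖u x‖ₑ ^ 2 + ‖((t : ℂ) - (x - y * I))⁻¹‖ₑ ^ 2) :=
            lintegral_mono fun x => ennreal_mul_le_sq_add_sq' _ _
        _ = _ := by
            rw [lintegral_add_left (huc.enorm.measurable.pow_const 2), lintegral_kernel_x' t hy]
    · have hb : (∫⁻ x : ℝ, ‖u x‖ₑ ^ 2) + ENNReal.ofReal (π / y) ≠ ⊤ :=
        ENNReal.add_ne_top.mpr ⟨hfin, ENNReal.ofReal_ne_top⟩
      rw [lintegral_mul_const' _ _ hb]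
      exact ENNReal.mul_lt_top hfL1.lt_top hb.lt_top
  have e1 : ∀ x : ℝ, u x * starRingEnd ℂ (u x) =
      ∫ t : ℝ, starRingEnd ℂ (f t) * (u x * ((t : ℂ) - (x - y * I))⁻¹) := by
    intro x
    have h1 : starRingEnd ℂ (u x) = ∫ t : ℝ, starRingEnd ℂ (f t) * ((t : ℂ) - (x - y * I))⁻¹ := by
      simp only [hu, cau]
      rw [← integral_conj]
      congr 1
      ext t
      simp only [div_eq_mul_inv, map_mul, map_inv₀, map_sub, map_add, Complex.conj_ofReal,
        Complex.conj_I]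
      congr 2
      ring
    rw [h1, ← integral_const_mul]
    congr 1
    ext t
    ring
  have e0 : ∫ x : ℝ, u x * starRingEnd ℂ (u x) =
      ∫ x : ℝ, ∫ t : ℝ, starRingEnd ℂ (f t) * (u x * ((t : ℂ) - (x - y * I))⁻¹) :=
    integral_congr_ae (Filter.Eventually.of_forall e1)
  refine e0.trans ?_
  rw [integral_integral_swap hswap]
  congr 1
  ext t
  rw [integral_const_mul, inner t]

lemma lintegral_cau_step {f : ℝ → ℂ} (hf : MemLp f 2) (hf1 : Integrable f)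
    {y : ℝ} (hy : 0 < y) (hfin : ∫⁻ x : ℝ, ‖cau f (x + y * I)‖ₑ ^ 2 ≠ ⊤) :
    (∫⁻ x : ℝ, ‖cau f (x + y * I)‖ₑ ^ 2) ^ 2 ≤
      (ENNReal.ofReal (4 * π ^ 2) * ∫⁻ t, ‖f t‖ₑ ^ 2) *
        ∫⁻ x : ℝ, ‖cau f (x + (2 * y : ℝ) * I)‖ₑ ^ 2 := by
  have hid := cau_identity hf hf1 hy hfin
  set u : ℝ → ℂ := fun x => cau f (x + y * I) with hu
  have huc : Continuous u := continuous_cau_line hf hy
  have huL2 : MemLp u 2 := memLp_two_of_lintegral huc.aestronglyMeasurable hfin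
  have hint : Integrable (fun x => ‖u x‖ ^ 2) := by
    have := huL2.integrable_norm_pow (by norm_num)
    simpa using this
  have e1 : ∫ x : ℝ, u x * starRingEnd ℂ (u x) = ((∫ x : ℝ, ‖u x‖ ^ 2 : ℝ) : ℂ) := by
    rw [← integral_complex_ofReal]
    congr 1
    ext x
    rw [Complex.mul_conj, Complex.normSq_eq_norm_sq]
  have e2 : ‖∫ x : ℝ, u x * starRingEnd ℂ (u x)‖ₑ = ∫⁻ x : ℝ, ‖u x‖ₑ ^ 2 := by
    rw [e1, ← ofReal_norm, Complex.norm_real, Real.norm_of_nonneg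
      (integral_nonneg fun x => by positivity), ofReal_integral_eq_lintegral_ofReal hint
      (Filter.Eventually.of_forall fun x => by positivity)]
    refine lintegral_congr fun x => ?_
    rw [ENNReal.ofReal_pow (norm_nonneg _), ofReal_norm]
  rw [← e2, hid]
  have e3 : ‖∫ t : ℝ, starRingEnd ℂ (f t) * (-(2 * π * I) * cau f (t + (2 * y : ℝ) * I))‖ₑ ≤
      ∫⁻ t : ℝ, (ENNReal.ofReal (2 * π) * ‖f t‖ₑ) * ‖cau f (t + (2 * y : ℝ) * I)‖ₑ := by
    refine (enorm_integral_le_lintegral_enorm _).trans (le_of_eq ?_)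
    refine lintegral_congr fun t => ?_
    rw [enorm_mul, enorm_mul, enorm_neg]
    have h1 : ‖(starRingEnd ℂ) (f t)‖ₑ = ‖f t‖ₑ := by
      rw [← ofReal_norm, RCLike.norm_conj, ofReal_norm]
    have h2 : ‖(2 * π * I : ℂ)‖ₑ = ENNReal.ofReal (2 * π) := by
      rw [← ofReal_norm]
      congr 1
      simp [abs_of_pos Real.pi_pos]
    rw [h1, h2]
    ring
  calc ‖∫ t : ℝ, starRingEnd ℂ (f t) * (-(2 * π * I) * cau f (t + (2 * y : ℝ) * I))‖ₑ ^ 2
      ≤ (∫⁻ t : ℝ, (ENNReal.ofReal (2 * π) * ‖f t‖ₑ) * ‖cau f (t + (2 * y : ℝ) * I)‖ₑ) ^ 2 := by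
        gcongr
    _ ≤ (∫⁻ t : ℝ, (ENNReal.ofReal (2 * π) * ‖f t‖ₑ) ^ 2) *
          ∫⁻ t : ℝ, ‖cau f (t + (2 * y : ℝ) * I)‖ₑ ^ 2 := by
        refine cauchy_schwarz (hf.1.enorm.const_mul _) ?_
        exact (continuous_cau_line hf (show 0 < 2 * y by linarith)).enorm.measurable.aemeasurable
    _ = _ := by
        congr 1
        rw [← lintegral_const_mul' _ _ ENNReal.ofReal_ne_top]
        refine lintegral_congr fun t => ?_
        rw [mul_pow, ← ENNReal.ofReal_pow (by positivity)]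
        congr 2
        ring

/-- `L²` bound on horizontal lines for compactly supported `f`. -/
lemma lintegral_cau_sq_of_support {f : ℝ → ℂ} (hf : MemLp f 2) {n : ℝ}
    (hs : ∀ t, t ∉ Icc (-n) n → f t = 0) {y₀ : ℝ} (hy₀ : 0 < y₀) :
    ∫⁻ x : ℝ, ‖cau f (x + y₀ * I)‖ₑ ^ 2 ≤ ENNReal.ofReal (4 * π ^ 2) * ∫⁻ t, ‖f t‖ₑ ^ 2 := by
  have hf1 : Integrable f := by
    have h1 : IntegrableOn f (Icc (-n) n) := by
      have : MemLp f 2 (volume.restrict (Icc (-n) n)) := hf.restrict _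
      exact this.integrable (by norm_num)
    rw [← integrableOn_univ]
    have : IntegrableOn f (Icc (-n) n)ᶜ := by
      refine (integrableOn_zero).congr_fun ?_ measurableSet_Icc.compl
      intro t ht
      exact (hs t ht).symm
    have h2 := h1.union this
    rwa [union_compl_self] at h2
  set A : ℝ → ℝ≥0∞ := fun y => ∫⁻ x : ℝ, ‖cau f (x + y * I)‖ₑ ^ 2 with hA
  set B : ℝ≥0∞ := (∫⁻ t, ‖f t‖ₑ ^ 2) * (ENNReal.ofReal (π / y₀) * volume (Icc (-n) n)) with hB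
  set Cst : ℝ≥0∞ := ENNReal.ofReal (4 * π ^ 2) * ∫⁻ t, ‖f t‖ₑ ^ 2 with hCst
  have hBfin : B ≠ ⊤ := by
    rw [hB]
    refine ENNReal.mul_ne_top (lintegral_sq_ne_top hf) (ENNReal.mul_ne_top ENNReal.ofReal_ne_top ?_)
    rw [Real.volume_Icc]
    exact ENNReal.ofReal_ne_top
  have hAB : ∀ y, y₀ ≤ y → A y ≤ B := by
    intro y hy
    refine (lintegral_cau_sq_le_of_support hf hs (lt_of_lt_of_le hy₀ hy)).trans ?_
    rw [hB]
    gcongr
  have hstep : ∀ y, y₀ ≤ y → (A y) ^ 2 ≤ Cst * A (2 * y) := by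
    intro y hy
    have hy0 : 0 < y := lt_of_lt_of_le hy₀ hy
    exact lintegral_cau_step hf hf1 hy0 (ne_top_of_le_ne_top hBfin (hAB y hy))
  set S : ℝ≥0∞ := ⨆ y : {y : ℝ // y₀ ≤ y}, A y.1 with hS
  have hSB : S ≤ B := iSup_le fun y => hAB y.1 y.2
  have hSfin : S ≠ ⊤ := ne_top_of_le_ne_top hBfin hSB
  have hle : ∀ y, y₀ ≤ y → A y ≤ S := fun y hy => le_iSup (fun y : {y : ℝ // y₀ ≤ y} => A y.1) ⟨y, hy⟩
  have h1 : ∀ y, y₀ ≤ y → A y ≤ (Cst * S) ^ (1 / 2 : ℝ) := by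
    intro y hy
    have h2 : (A y) ^ 2 ≤ Cst * S := by
      refine (hstep y hy).trans ?_
      gcongr
      exact hle _ (by linarith)
    have h3 : ((A y) ^ 2) ^ (1 / 2 : ℝ) ≤ (Cst * S) ^ (1 / 2 : ℝ) :=
      ENNReal.rpow_le_rpow h2 (by norm_num)
    rw [← ENNReal.rpow_natCast, ← ENNReal.rpow_mul] at h3
    norm_num at h3
    simpa using h3
  have h2 : S ≤ (Cst * S) ^ (1 / 2 : ℝ) := iSup_le fun y => h1 y.1 y.2
  have h3 : S ^ 2 ≤ Cst * S := by
    calc S ^ 2 ≤ ((Cst * S) ^ (1 / 2 : ℝ)) ^ 2 := by gcongr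
      _ = Cst * S := by
        rw [← ENNReal.rpow_natCast, ← ENNReal.rpow_mul]
        norm_num
  refine (hle y₀ le_rfl).trans ?_
  by_cases hS0 : S = 0
  · rw [hS0]; exact bot_le
  · rw [sq] at h3
    exact (ENNReal.mul_le_mul_iff_left hS0 hSfin).mp h3

/-- `L²` bound on horizontal lines. -/
theorem lintegral_cau_sq {f : ℝ → ℂ} (hf : MemLp f 2) {y : ℝ} (hy : 0 < y) :
    ∫⁻ x : ℝ, ‖cau f (x + y * I)‖ₑ ^ 2 ≤ ENNReal.ofReal (4 * π ^ 2) * ∫⁻ t, ‖f t‖ₑ ^ 2 := by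
  set fn : ℕ → ℝ → ℂ := fun n => (Icc (-(n:ℝ)) n).indicator f with hfn
  have hfnL : ∀ n, MemLp (fn n) 2 := fun n => hf.indicator measurableSet_Icc
  have hlim : ∀ x : ℝ, Tendsto (fun n => cau (fn n) (x + y * I)) atTop (𝓝 (cau f (x + y * I))) := by
    intro x
    have hz := im_pos_pt x hy
    unfold cau
    refine tendsto_integral_of_dominated_convergence
      (fun t => ‖f t / ((t:ℂ) - (x + y * I))‖) ?_ (integrable_cau hf hz).norm ?_ ?_
    · intro n
      exact (integrable_cau (hfnL n) hz).1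
    · intro n
      refine Filter.Eventually.of_forall fun t => ?_
      rw [norm_div, norm_div]
      gcongr
      exact norm_indicator_le_norm_self f t
    · refine Filter.Eventually.of_forall fun t => ?_
      refine tendsto_const_nhds.congr' ?_
      obtain ⟨N, hN⟩ := exists_nat_ge |t|
      filter_upwards [eventually_ge_atTop N] with n hn
      have hmem : t ∈ Icc (-(n:ℝ)) n := by
        have h1 : |t| ≤ (n:ℝ) := hN.trans (by exact_mod_cast hn)
        exact abs_le.mp h1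
      simp only [hfn, indicator_of_mem hmem]
  have hFatou : ∫⁻ x : ℝ, ‖cau f (x + y * I)‖ₑ ^ 2 ≤
      liminf (fun n => ∫⁻ x : ℝ, ‖cau (fn n) (x + y * I)‖ₑ ^ 2) atTop := by
    calc ∫⁻ x : ℝ, ‖cau f (x + y * I)‖ₑ ^ 2
        = ∫⁻ x : ℝ, liminf (fun n => ‖cau (fn n) (x + y * I)‖ₑ ^ 2) atTop := by
          refine lintegral_congr fun x => ?_
          have h1 := (ENNReal.Tendsto.pow (n := 2) ((hlim x).enorm)).liminf_eq
          exact h1.symm
      _ ≤ _ := lintegral_liminf_le fun n =>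
          ((continuous_cau_line (hfnL n) hy).enorm.measurable.pow_const 2)
  refine hFatou.trans ?_
  refine liminf_le_of_frequently_le' ?_
  refine Filter.Frequently.of_forall fun n => ?_
  refine (lintegral_cau_sq_of_support (hfnL n) (n := n) (fun t ht => ?_) hy).trans ?_
  · simp only [hfn, indicator_of_notMem ht]
  · gcongr with t
    simp only [hfn]
    exact enorm_indicator_le_enorm_self f t

theorem lintegral_cau_sq' {f : ℝ → ℂ} (hf : MemLp f 2) {y : ℝ} (hy : 0 < y) :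
    ∫⁻ x : ℝ, ‖cau f (x - y * I)‖ₑ ^ 2 ≤ ENNReal.ofReal (4 * π ^ 2) * ∫⁻ t, ‖f t‖ₑ ^ 2 := by
  have hconj : MemLp (fun t => starRingEnd ℂ (f t)) 2 := by
    refine ⟨Complex.continuous_conj.comp_aestronglyMeasurable hf.1, ?_⟩
    have : eLpNorm (fun t => starRingEnd ℂ (f t)) 2 volume = eLpNorm f 2 volume := by
      refine eLpNorm_congr_norm_ae (Filter.Eventually.of_forall fun t => ?_)
      exact RCLike.norm_conj _
    rw [this]
    exact hf.2
  have h := lintegral_cau_sq hconj hy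
  have e1 : ∀ x : ℝ, ‖cau f (x - y * I)‖ₑ = ‖cau (fun t => starRingEnd ℂ (f t)) (x + y * I)‖ₑ := by
    intro x
    have : (x:ℂ) - y * I = starRingEnd ℂ (x + y * I) := by
      simp
      ring
    rw [this, cau_conj, ← ofReal_norm, RCLike.norm_conj, ofReal_norm]
  have e2 : ∀ t : ℝ, ‖starRingEnd ℂ (f t)‖ₑ = ‖f t‖ₑ := by
    intro t
    rw [← ofReal_norm, RCLike.norm_conj, ofReal_norm]
  simp_rw [e2] at h
  simp_rw [e1]
  exact h

end Pool.Agent.Lib.MP_0e9c6a_an
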