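import Pool.Agent.Lib.MP_0e9c6a_an.L1

set_option autoImplicit false

open MeasureTheory Complex Set Filter Topology
open scoped Real ENNReal

namespace Pool.Agent.Lib.MP_0e9c6a_an

lemma deriv_smoothTransition_of_nonpos {x : ℝ} (hx : x ≤ 0) :
    deriv Real.smoothTransition x = 0 := by
  -- global minimum
  have hmin : IsLocalMin Real.smoothTransition x := by
    refine Filter.Eventually.of_forall fun y => ?_
    rw [Real.smoothTransition.zero_of_nonpos hx]
    exact Real.smoothTransition.nonneg y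
  exact hmin.deriv_eq_zero

lemma deriv_smoothTransition_of_one_le {x : ℝ} (hx : 1 ≤ x) :
    deriv Real.smoothTransition x = 0 := by
  have hmax : IsLocalMax Real.smoothTransition x := by
    refine Filter.Eventually.of_forall fun y => ?_
    rw [Real.smoothTransition.one_of_one_le hx]
    exact Real.smoothTransition.le_one y
  exact hmax.deriv_eq_zero

lemma continuous_deriv_smoothTransition : Continuous (deriv Real.smoothTransition) :=
  (Real.smoothTransition.contDiff (n := 1)).continuous_deriv (by norm_num)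

lemma exists_bound_deriv_smoothTransition :
    ∃ K : ℝ, 0 < K ∧ ∀ x, |deriv Real.smoothTransition x| ≤ K := by
  obtain ⟨K, hK⟩ := (isCompact_Icc (a := (0:ℝ)) (b := 1)).exists_bound_of_continuousOn
    continuous_deriv_smoothTransition.continuousOn
  refine ⟨max K 1, by positivity, fun x => ?_⟩
  by_cases h0 : x ≤ 0
  · rw [deriv_smoothTransition_of_nonpos h0]; simp
  · by_cases h1 : 1 ≤ x
    · rw [deriv_smoothTransition_of_one_le h1]; simp
    · exact (hK x ⟨(not_le.mp h0).le, (not_le.mp h1).le⟩).trans (le_max_left _ _)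

lemma hasDerivAt_smoothTransition (x : ℝ) :
    HasDerivAt Real.smoothTransition (deriv Real.smoothTransition x) x :=
  ((Real.smoothTransition.contDiff (n := 1)).differentiable (by norm_num) x).hasDerivAt

/-- One-dimensional cut-off functions with controlled derivative. -/
lemma exists_cut : ∃ K : ℝ, 0 < K ∧ ∀ α β γ δ : ℝ, α < β → β ≤ γ → γ < δ →
    ∃ g g' : ℝ → ℝ, (∀ x, HasDerivAt g (g' x) x) ∧ Continuous g' ∧
      (∀ x, 0 ≤ g x ∧ g x ≤ 1) ∧ (∀ x, β ≤ x → x ≤ γ → g x = 1) ∧
      (∀ x, x ≤ α → g x = 0 ∧ g' x = 0) ∧ (∀ x, δ ≤ x → g x = 0 ∧ g' x = 0) ∧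
      (∀ x, β ≤ x → x ≤ γ → g' x = 0) ∧
      (∀ x, x ≤ β → |g' x| ≤ K / (β - α)) ∧ (∀ x, γ ≤ x → |g' x| ≤ K / (δ - γ)) := by
  obtain ⟨K, hK0, hK⟩ := exists_bound_deriv_smoothTransition
  refine ⟨K, hK0, fun α β γ δ h1 h2 h3 => ?_⟩
  have hβα : 0 < β - α := by linarith
  have hδγ : 0 < δ - γ := by linarith
  set S := Real.smoothTransition with hS
  set g1 : ℝ → ℝ := fun x => S ((x - α) / (β - α)) with hg1
  set g2 : ℝ → ℝ := fun x => S ((δ - x) / (δ - γ)) with hg2
  set g1' : ℝ → ℝ := fun x => deriv S ((x - α) / (β - α)) / (β - α) with hg1'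
  set g2' : ℝ → ℝ := fun x => -(deriv S ((δ - x) / (δ - γ)) / (δ - γ)) with hg2'
  have d1 : ∀ x, HasDerivAt g1 (g1' x) x := by
    intro x
    have e : HasDerivAt (fun x : ℝ => (x - α) / (β - α)) (1 / (β - α)) x :=
      ((hasDerivAt_id x).sub_const α).div_const _
    have := (hasDerivAt_smoothTransition ((x - α) / (β - α))).comp x e
    convert! this using 1
    simp only [hg1']
    ring
  have d2 : ∀ x, HasDerivAt g2 (g2' x) x := by
    intro x
    have e : HasDerivAt (fun x : ℝ => (δ - x) / (δ - γ)) ((-1) / (δ - γ)) x :=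
      ((hasDerivAt_id x).const_sub δ).div_const _
    have := (hasDerivAt_smoothTransition ((δ - x) / (δ - γ))).comp x e
    convert! this using 1
    simp only [hg2']
    ring
  have c1 : Continuous g1 := continuous_iff_continuousAt.mpr fun x => (d1 x).continuousAt
  have c2 : Continuous g2 := continuous_iff_continuousAt.mpr fun x => (d2 x).continuousAt
  have c1' : Continuous g1' := by
    have := continuous_deriv_smoothTransition
    simp only [hg1']
    fun_prop
  have c2' : Continuous g2' := by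
    have := continuous_deriv_smoothTransition
    simp only [hg2']
    fun_prop
  have b1 : ∀ x, 0 ≤ g1 x ∧ g1 x ≤ 1 := fun x =>
    ⟨Real.smoothTransition.nonneg _, Real.smoothTransition.le_one _⟩
  have b2 : ∀ x, 0 ≤ g2 x ∧ g2 x ≤ 1 := fun x =>
    ⟨Real.smoothTransition.nonneg _, Real.smoothTransition.le_one _⟩
  have one1 : ∀ x, β ≤ x → g1 x = 1 ∧ g1' x = 0 := by
    intro x hx
    have : 1 ≤ (x - α) / (β - α) := by
      rw [le_div_iff₀ hβα]; linarith
    exact ⟨Real.smoothTransition.one_of_one_le this, by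
      simp only [hg1', hS, deriv_smoothTransition_of_one_le this, zero_div]⟩
  have one2 : ∀ x, x ≤ γ → g2 x = 1 ∧ g2' x = 0 := by
    intro x hx
    have : 1 ≤ (δ - x) / (δ - γ) := by
      rw [le_div_iff₀ hδγ]; linarith
    exact ⟨Real.smoothTransition.one_of_one_le this, by
      simp only [hg2', hS, deriv_smoothTransition_of_one_le this, zero_div, neg_zero]⟩
  have z1 : ∀ x, x ≤ α → g1 x = 0 ∧ g1' x = 0 := by
    intro x hx
    have : (x - α) / (β - α) ≤ 0 := div_nonpos_of_nonpos_of_nonneg (by linarith) hβα.le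
    exact ⟨Real.smoothTransition.zero_of_nonpos this, by
      simp only [hg1', hS, deriv_smoothTransition_of_nonpos this, zero_div]⟩
  have z2 : ∀ x, δ ≤ x → g2 x = 0 ∧ g2' x = 0 := by
    intro x hx
    have : (δ - x) / (δ - γ) ≤ 0 := div_nonpos_of_nonpos_of_nonneg (by linarith) hδγ.le
    exact ⟨Real.smoothTransition.zero_of_nonpos this, by
      simp only [hg2', hS, deriv_smoothTransition_of_nonpos this, zero_div, neg_zero]⟩
  have k1 : ∀ x, |g1' x| ≤ K / (β - α) := by
    intro x
    simp only [hg1']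
    rw [abs_div, abs_of_pos hβα]
    exact div_le_div_of_nonneg_right (hK _) hβα.le
  have k2 : ∀ x, |g2' x| ≤ K / (δ - γ) := by
    intro x
    simp only [hg2']
    rw [abs_neg, abs_div, abs_of_pos hδγ]
    exact div_le_div_of_nonneg_right (hK _) hδγ.le
  refine ⟨fun x => g1 x * g2 x, fun x => g1' x * g2 x + g1 x * g2' x, fun x => (d1 x).mul (d2 x),
    by fun_prop, ?_, ?_, ?_, ?_, ?_, ?_, ?_⟩
  · intro x
    exact ⟨mul_nonneg (b1 x).1 (b2 x).1, mul_le_one₀ (b1 x).2 (b2 x).1 (b2 x).2⟩
  · intro x hx hx'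
    simp only [(one1 x hx).1, (one2 x hx').1, mul_one]
  · intro x hx
    simp [(z1 x hx).1, (z1 x hx).2]
  · intro x hx
    simp [(z2 x hx).1, (z2 x hx).2]
  · intro x hx hx'
    simp [(one1 x hx).2, (one2 x hx').2]
  · intro x hx
    simp only [(one2 x (hx.trans h2)).2, (one2 x (hx.trans h2)).1, mul_zero, add_zero, mul_one]
    exact k1 x
  · intro x hx
    simp only [(one1 x (h2.trans hx)).2, (one1 x (h2.trans hx)).1, zero_mul, zero_add, one_mul]
    exact k2 x

/-- Gluing: product of a cut-off supported in `im ≥ τ > 0` and a function smooth on the upper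
half-plane. -/
lemma glue {χ pχ qχ G pG qG : ℂ → ℂ} {τ : ℝ} (hτ : 0 < τ)
    (hχ : ∀ z, HasDbar χ (pχ z) (qχ z) z) (hpχ : Continuous pχ) (hqχ : Continuous qχ)
    (hz : ∀ z : ℂ, z.im ≤ τ → χ z = 0 ∧ pχ z = 0 ∧ qχ z = 0)
    (hG : ∀ z : ℂ, 0 < z.im → HasDbar G (pG z) (qG z) z)
    (hpG : ContinuousOn pG {z : ℂ | 0 < z.im}) (hqG : ContinuousOn qG {z : ℂ | 0 < z.im}) :
    (∀ z, HasDbar (fun z => χ z * G z) (pχ z * G z + χ z * pG z) (qχ z * G z + χ z * qG z) z) ∧
    Continuous (fun z => pχ z * G z + χ z * pG z) ∧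
    Continuous (fun z => qχ z * G z + χ z * qG z) := by
  have hopen : IsOpen {z : ℂ | 0 < z.im} := isOpen_lt continuous_const Complex.continuous_im
  have hopen' : IsOpen {z : ℂ | z.im < τ} := isOpen_lt Complex.continuous_im continuous_const
  have hχc : Continuous χ := continuous_iff_continuousAt.mpr fun z => (hχ z).continuousAt
  have hGc : ContinuousOn G {z : ℂ | 0 < z.im} := fun z hz =>
    (hG z hz).continuousAt.continuousWithinAt
  have key : ∀ z : ℂ, ¬ 0 < z.im → z ∈ {z : ℂ | z.im < τ} := by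
    intro z hz
    show z.im < τ
    linarith
  refine ⟨?_, ?_, ?_⟩
  · intro z
    by_cases h : 0 < z.im
    · exact (hχ z).mul (hG z h)
    · have h1 : (fun z => χ z * G z) =ᶠ[𝓝 z] fun _ => 0 := by
        filter_upwards [hopen'.mem_nhds (key z h)] with w hw
        have hw : w.im < τ := hw
        simp [(hz w hw.le).1]
      have h0 : HasFDerivAt (fun _ : ℂ => (0 : ℂ)) (dlin 0 0) z := hasDbar_const 0 z
      have h2 : HasDbar (fun z => χ z * G z) 0 0 z := h0.congr_of_eventuallyEq h1
      have h3 := hz z (key z h).le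
      simpa [h3.1, h3.2.1, h3.2.2] using h2
  · rw [continuous_iff_continuousAt]
    intro z
    by_cases h : 0 < z.im
    · have hm := hopen.mem_nhds h
      exact (hpχ.continuousAt.mul (hGc.continuousAt hm)).add
        (hχc.continuousAt.mul (hpG.continuousAt hm))
    · have h1 : (fun z => pχ z * G z + χ z * pG z) =ᶠ[𝓝 z] fun _ => 0 := by
        filter_upwards [hopen'.mem_nhds (key z h)] with w hw
        have hw : w.im < τ := hw
        simp [(hz w hw.le).1, (hz w hw.le).2.1]
      exact continuousAt_const.congr h1.symm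
  · rw [continuous_iff_continuousAt]
    intro z
    by_cases h : 0 < z.im
    · have hm := hopen.mem_nhds h
      exact (hqχ.continuousAt.mul (hGc.continuousAt hm)).add
        (hχc.continuousAt.mul (hqG.continuousAt hm))
    · have h1 : (fun z => qχ z * G z + χ z * qG z) =ᶠ[𝓝 z] fun _ => 0 := by
        filter_upwards [hopen'.mem_nhds (key z h)] with w hw
        have hw : w.im < τ := hw
        simp [(hz w hw.le).1, (hz w hw.le).2.2]
      exact continuousAt_const.congr h1.symm

/-- Two-dimensional cut-off. -/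
lemma hasDbar_cut2 {a a' b b' : ℝ → ℝ} (ha : ∀ x, HasDerivAt a (a' x) x)
    (hb : ∀ x, HasDerivAt b (b' x) x) (z : ℂ) :
    HasDbar (fun z : ℂ => (a z.re : ℂ) * (b z.im : ℂ))
      ((a' z.re : ℂ) / 2 * (b z.im) + a z.re * (-(I * (b' z.im) / 2)))
      ((a' z.re : ℂ) / 2 * (b z.im) + a z.re * (I * (b' z.im) / 2)) z := by
  have h1 : HasDbar (fun z : ℂ => (a z.re : ℂ)) ((a' z.re : ℂ) / 2) ((a' z.re : ℂ) / 2) z := by
    have h := (ha z.re).hasFDerivAt.comp z (Complex.reCLM.hasFDerivAt (x := z))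
    have := hasDbar_ofReal_comp h
    convert! this using 1 <;> simp
  have h2 : HasDbar (fun z : ℂ => (b z.im : ℂ)) (-(I * (b' z.im : ℂ) / 2)) (I * (b' z.im : ℂ) / 2)
      z := by
    have h := (hb z.im).hasFDerivAt.comp z (Complex.imCLM.hasFDerivAt (x := z))
    have := hasDbar_ofReal_comp h
    convert! this using 1 <;> simp
    ring
  exact h1.mul h2

end Pool.Agent.Lib.MP_0e9c6a_an
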