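import Mathlib

set_option autoImplicit false

open MeasureTheory Complex Set Filter Topology

namespace Pool.Agent.Lib.MP_0e9c6a_an

/-- The real-linear map `w ↦ p * w + q * conj w`. -/
noncomputable def dlin (p q : ℂ) : ℂ →L[ℝ] ℂ :=
  p • (ContinuousLinearMap.id ℝ ℂ) + q • (Complex.conjCLE : ℂ →L[ℝ] ℂ)

lemma dlin_apply (p q w : ℂ) : dlin p q w = p * w + q * (starRingEnd ℂ w) := by
  simp [dlin]

lemma dlin_ext {L : ℂ →L[ℝ] ℂ} {p q : ℂ} (h1 : L 1 = p + q) (hI : L I = (p - q) * I) :
    L = dlin p q := by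
  ext w
  have hw : w = w.re • (1 : ℂ) + w.im • I := by
    simp [Complex.re_add_im]
  conv_lhs => rw [hw]
  conv_rhs => rw [hw]
  rw [map_add, map_add, map_smul, map_smul, map_smul, map_smul, h1, hI, dlin_apply, dlin_apply]
  simp only [map_one, Complex.conj_I]
  ring_nf

/-- `h` is real differentiable at `z` with `∂h = p` and `∂̄h = q`. -/
def HasDbar (h : ℂ → ℂ) (p q z : ℂ) : Prop := HasFDerivAt h (dlin p q) z

lemma HasDbar.continuousAt {h : ℂ → ℂ} {p q z : ℂ} (H : HasDbar h p q z) : ContinuousAt h z :=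
  HasFDerivAt.continuousAt H

lemma hasDbar_of_hasDerivAt {h : ℂ → ℂ} {p z : ℂ} (H : HasDerivAt h p z) :
    HasDbar h p 0 z := by
  have := H.hasFDerivAt.restrictScalars ℝ
  unfold HasDbar
  convert! this using 1
  symm
  apply dlin_ext
  · simp
  · simp [mul_comm]

lemma hasDbar_conj (z : ℂ) : HasDbar (fun w => starRingEnd ℂ w) 0 1 z := by
  have := (Complex.conjCLE : ℂ →L[ℝ] ℂ).hasFDerivAt (x := z)
  unfold HasDbar
  convert! this using 1
  symm
  apply dlin_ext
  · simp
  · simp

lemma hasDbar_of_hasDerivAt_conj {h : ℂ → ℂ} {q z : ℂ}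
    (H : HasDerivAt h q (starRingEnd ℂ z)) :
    HasDbar (fun w => h (starRingEnd ℂ w)) 0 q z := by
  have h1 : HasFDerivAt h (dlin q 0) (starRingEnd ℂ z) := hasDbar_of_hasDerivAt H
  have h2 : HasFDerivAt (fun w => starRingEnd ℂ w) (dlin 0 1) z := hasDbar_conj z
  have := h1.comp z h2
  unfold HasDbar
  convert! this using 1
  symm
  apply dlin_ext
  · simp [dlin_apply]
  · simp [dlin_apply]

lemma HasDbar.add {h k : ℂ → ℂ} {p q p' q' z : ℂ} (H : HasDbar h p q z) (K : HasDbar k p' q' z) :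
    HasDbar (fun w => h w + k w) (p + p') (q + q') z := by
  have := HasFDerivAt.add H K
  unfold HasDbar
  convert! this using 1
  symm
  apply dlin_ext
  · simp [dlin_apply]; ring
  · simp [dlin_apply]; ring

lemma HasDbar.sub {h k : ℂ → ℂ} {p q p' q' z : ℂ} (H : HasDbar h p q z) (K : HasDbar k p' q' z) :
    HasDbar (fun w => h w - k w) (p - p') (q - q') z := by
  have := HasFDerivAt.sub H K
  unfold HasDbar
  convert! this using 1
  symm
  apply dlin_ext
  · simp [dlin_apply]; ring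
  · simp [dlin_apply]; ring

lemma HasDbar.mul {h k : ℂ → ℂ} {p q p' q' z : ℂ} (H : HasDbar h p q z) (K : HasDbar k p' q' z) :
    HasDbar (fun w => h w * k w) (p * k z + h z * p') (q * k z + h z * q') z := by
  have := HasFDerivAt.mul H K
  unfold HasDbar
  convert! this using 1
  symm
  apply dlin_ext
  · simp [dlin_apply]; ring
  · simp [dlin_apply]; ring

lemma HasDbar.conj {h : ℂ → ℂ} {p q z : ℂ} (H : HasDbar h p q z) :
    HasDbar (fun w => starRingEnd ℂ (h w)) (starRingEnd ℂ q) (starRingEnd ℂ p) z := by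
  have h1 : HasFDerivAt (fun w => starRingEnd ℂ w) (dlin 0 1) (h z) := hasDbar_conj (h z)
  have := h1.comp z H
  unfold HasDbar
  convert! this using 1
  symm
  apply dlin_ext
  · simp [dlin_apply]; ring
  · simp [dlin_apply]; ring

lemma hasDbar_const (c z : ℂ) : HasDbar (fun _ => c) 0 0 z := by
  have := hasFDerivAt_const (𝕜 := ℝ) c z
  unfold HasDbar
  convert! this using 1
  symm
  apply dlin_ext
  · simp
  · simp

lemma HasDbar.const_mul {h : ℂ → ℂ} {p q z : ℂ} (c : ℂ) (H : HasDbar h p q z) :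
    HasDbar (fun w => c * h w) (c * p) (c * q) z := by
  have := (hasDbar_const c z).mul H
  simpa using this

lemma hasDbar_ofReal_comp {u : ℂ → ℝ} {L : ℂ →L[ℝ] ℝ} {z : ℂ} (H : HasFDerivAt u L z) :
    HasDbar (fun w => (u w : ℂ)) (((L 1 : ℝ) - I * (L I : ℝ)) / 2) (((L 1 : ℝ) + I * (L I : ℝ)) / 2)
      z := by
  have := Complex.ofRealCLM.hasFDerivAt.comp z H
  unfold HasDbar
  convert! this using 1
  symm
  apply dlin_ext
  · simp only [ContinuousLinearMap.comp_apply, Complex.ofRealCLM_apply]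
    ring
  · simp only [ContinuousLinearMap.comp_apply, Complex.ofRealCLM_apply]
    ring_nf
    simp

lemma hasDbar_im (z : ℂ) : HasDbar (fun w => (w.im : ℂ)) (-(I / 2)) (I / 2) z := by
  have := hasDbar_ofReal_comp (Complex.imCLM.hasFDerivAt (x := z))
  simpa [neg_div] using this

end Pool.Agent.Lib.MP_0e9c6a_an
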