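import Pool.Agent.Lib.MP_0e9c6a_an.Main

set_option autoImplicit false

open MeasureTheory Complex Set Filter Topology
open scoped Real ENNReal

namespace Pool.Agent.Lib.MP_0e9c6a_an

variable {c : ℂ} {ε : ℝ} {f : ℝ → ℂ}

lemma ennreal_add_sq_le3 (a b : ℝ≥0∞) : (a + b) ^ 2 ≤ 3 * (a ^ 2 + b ^ 2) := by
  have h := ennreal_mul_le_sq_add_sq a b
  calc (a + b) ^ 2 = (a ^ 2 + b ^ 2) + (a * b + a * b) := by ring
    _ ≤ (a ^ 2 + b ^ 2) + ((a ^ 2 + b ^ 2) + (a ^ 2 + b ^ 2)) := by gcongr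
    _ = _ := by ring

lemma enorm_conj' (w : ℂ) : ‖starRingEnd ℂ w‖ₑ = ‖w‖ₑ := by
  rw [← ofReal_norm, RCLike.norm_conj, ofReal_norm]

lemma enorm_Wf_le (hε : 0 < ε) {X : ℝ} {w : ℂ} (hw : w.re ≤ X) :
    ‖Wf ε f w‖ₑ ≤ ENNReal.ofReal (Real.exp (ε * X)) * ‖cau f w‖ₑ := by
  rw [Wf, enorm_mul, enorm_exp]
  gcongr
  simp only [Complex.mul_re, Complex.ofReal_re, Complex.ofReal_im, zero_mul, sub_zero]
  exact mul_le_mul_of_nonneg_left hw hε.le

lemma exists_pair_bound (hε : 0 < ε) (hf : MemLp f 2) (x₀ : ℝ) {r₀ : ℝ} (_hr₀ : 0 < r₀) :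
    ∃ M : ℝ≥0∞, M ≠ ⊤ ∧ ∀ y : ℝ, 0 < y → y < r₀ →
      ∫⁻ x in Icc (x₀ - r₀) (x₀ + r₀),
        (‖Phi c ε f (x + y * I)‖ₑ + ‖starRingEnd ℂ (Psi c ε f (x + y * I))‖ₑ) ^ 2 ≤ M := by
  set g := gee ε f with hgdef
  have hg : MemLp g 2 := memLp_gee hε hf
  set X : ℝ≥0∞ := ENNReal.ofReal (Real.exp (ε * (x₀ + r₀))) with hX
  set k : ℝ≥0∞ := ‖(1 / (2 * π * I) : ℂ)‖ₑ with hk
  set L : ℝ≥0∞ := X * (1 + 2 * (‖c‖ₑ * k) + ‖c / π‖ₑ * ENNReal.ofReal r₀) with hL
  have hLfin : L ≠ ⊤ := by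
    rw [hL]
    refine ENNReal.mul_ne_top ENNReal.ofReal_ne_top (ENNReal.add_ne_top.mpr
      ⟨ENNReal.add_ne_top.mpr ⟨by simp, ?_⟩, ?_⟩)
    · exact ENNReal.mul_ne_top (by simp) (ENNReal.mul_ne_top enorm_ne_top enorm_ne_top)
    · exact ENNReal.mul_ne_top enorm_ne_top ENNReal.ofReal_ne_top
  set P : ℝ≥0∞ := ENNReal.ofReal (4 * π ^ 2) * ∫⁻ t, ‖f t‖ₑ ^ 2 with hP
  set Q : ℝ≥0∞ := ENNReal.ofReal (4 * π ^ 2) * ∫⁻ t, ‖g t‖ₑ ^ 2 with hQ
  have hPfin : P ≠ ⊤ := ENNReal.mul_ne_top ENNReal.ofReal_ne_top (lintegral_sq_ne_top hf)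
  have hQfin : Q ≠ ⊤ := ENNReal.mul_ne_top ENNReal.ofReal_ne_top (lintegral_sq_ne_top hg)
  refine ⟨L ^ 2 * (9 * ((P + P) + (Q + Q))), ?_, ?_⟩
  · refine ENNReal.mul_ne_top (ENNReal.pow_ne_top hLfin) (ENNReal.mul_ne_top (by simp) ?_)
    exact ENNReal.add_ne_top.mpr ⟨ENNReal.add_ne_top.mpr ⟨hPfin, hPfin⟩,
      ENNReal.add_ne_top.mpr ⟨hQfin, hQfin⟩⟩
  intro y hy hyr
  -- pointwise bound
  have hpt : ∀ x ∈ Icc (x₀ - r₀) (x₀ + r₀),
      (‖Phi c ε f (x + y * I)‖ₑ + ‖starRingEnd ℂ (Psi c ε f (x + y * I))‖ₑ) ^ 2 ≤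
      L ^ 2 * (9 * ((‖cau f (x + y * I)‖ₑ ^ 2 + ‖cau f (x - y * I)‖ₑ ^ 2) +
        (‖cau g (x + y * I)‖ₑ ^ 2 + ‖cau g (x - y * I)‖ₑ ^ 2))) := by
    intro x hx
    set a := ‖cau f (x + y * I)‖ₑ with ha
    set b := ‖cau f (x - y * I)‖ₑ with hb
    set p := ‖cau g (x + y * I)‖ₑ with hp
    set q := ‖cau g (x - y * I)‖ₑ with hq
    have w1 : ‖Wf ε f (x + y * I)‖ₑ ≤ X * a := enorm_Wf_le hε (by simpa using hx.2)
    have w2 : ‖Wf ε f (x - y * I)‖ₑ ≤ X * b := enorm_Wf_le hε (by simpa using hx.2)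
    have w3 : ‖Wf ε g (x + y * I)‖ₑ ≤ X * p := enorm_Wf_le hε (by simpa using hx.2)
    have w4 : ‖Wf ε g (x - y * I)‖ₑ ≤ X * q := enorm_Wf_le hε (by simpa using hx.2)
    have wG : ‖Gh ε f (x + y * I)‖ₑ ≤ k * (X * p + X * q) := by
      simp only [Gh, conj_pt]
      rw [enorm_mul]
      gcongr
      exact enorm_sub_le.trans (add_le_add w3 w4)
    have him : ‖((((x:ℂ) + y * I).im : ℝ) : ℂ)‖ₑ ≤ ENNReal.ofReal r₀ := by
      rw [← ofReal_norm, Complex.norm_real]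
      refine ENNReal.ofReal_le_ofReal ?_
      simp only [Complex.add_im, Complex.ofReal_im, Complex.mul_im, Complex.ofReal_re,
        Complex.I_im, mul_one, Complex.I_re, mul_zero, add_zero, zero_add]
      rw [Real.norm_of_nonneg hy.le]
      exact hyr.le
    have bPhi : ‖Phi c ε f (x + y * I)‖ₑ ≤
        X * a + ‖c‖ₑ * (k * (X * p + X * q)) + ‖c / π‖ₑ * (ENNReal.ofReal r₀ * (X * a)) := by
      simp only [Phi]
      refine (enorm_add_le _ _).trans ?_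
      refine add_le_add ?_ ?_
      · refine enorm_sub_le.trans (add_le_add w1 ?_)
        rw [enorm_mul]
        gcongr
      · rw [enorm_mul, enorm_mul]
        gcongr
    have bPsi : ‖starRingEnd ℂ (Psi c ε f (x + y * I))‖ₑ ≤
        X * b + ‖c‖ₑ * (k * (X * p + X * q)) + ‖c / π‖ₑ * (ENNReal.ofReal r₀ * (X * b)) := by
      rw [enorm_conj']
      simp only [Psi, conj_pt]
      refine (enorm_add_le _ _).trans ?_
      refine add_le_add ?_ ?_
      · refine enorm_sub_le.trans (add_le_add w2 ?_)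
        rw [enorm_mul]
        gcongr
      · rw [enorm_mul, enorm_mul]
        gcongr
    have hsum : ‖Phi c ε f (x + y * I)‖ₑ + ‖starRingEnd ℂ (Psi c ε f (x + y * I))‖ₑ ≤
        L * ((a + b) + (p + q)) := by
      refine (add_le_add bPhi bPsi).trans ?_
      have e1 : (X * a + ‖c‖ₑ * (k * (X * p + X * q)) + ‖c / π‖ₑ * (ENNReal.ofReal r₀ * (X * a))) +
          (X * b + ‖c‖ₑ * (k * (X * p + X * q)) + ‖c / π‖ₑ * (ENNReal.ofReal r₀ * (X * b))) =
          X * (1 + ‖c / π‖ₑ * ENNReal.ofReal r₀) * (a + b) + X * (2 * (‖c‖ₑ * k)) * (p + q) := by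
        ring
      rw [e1, hL]
      calc X * (1 + ‖c / π‖ₑ * ENNReal.ofReal r₀) * (a + b) + X * (2 * (‖c‖ₑ * k)) * (p + q)
          ≤ X * (1 + 2 * (‖c‖ₑ * k) + ‖c / π‖ₑ * ENNReal.ofReal r₀) * (a + b) +
            X * (1 + 2 * (‖c‖ₑ * k) + ‖c / π‖ₑ * ENNReal.ofReal r₀) * (p + q) := by
            gcongr
            · exact le_self_add
            · calc 2 * (‖c‖ₑ * k) ≤ 1 + 2 * (‖c‖ₑ * k) := le_add_self
                _ ≤ _ := le_self_add
        _ = _ := by ring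
    calc (‖Phi c ε f (x + y * I)‖ₑ + ‖starRingEnd ℂ (Psi c ε f (x + y * I))‖ₑ) ^ 2
        ≤ (L * ((a + b) + (p + q))) ^ 2 := by gcongr
      _ = L ^ 2 * ((a + b) + (p + q)) ^ 2 := by ring
      _ ≤ L ^ 2 * (3 * ((a + b) ^ 2 + (p + q) ^ 2)) := by
          gcongr
          exact ennreal_add_sq_le3 _ _
      _ ≤ L ^ 2 * (3 * (3 * (a ^ 2 + b ^ 2) + 3 * (p ^ 2 + q ^ 2))) := by
          gcongr
          · exact ennreal_add_sq_le3 _ _
          · exact ennreal_add_sq_le3 _ _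
      _ = _ := by ring
  have m1 : Measurable fun x : ℝ => ‖cau f (x + y * I)‖ₑ ^ 2 :=
    (continuous_cau_line hf hy).enorm.measurable.pow_const 2
  have cneg : ∀ h : ℝ → ℂ, MemLp h 2 → Continuous (fun x : ℝ => cau h (x - y * I)) := by
    intro h hh
    rw [continuous_iff_continuousAt]
    intro x
    have h1 : ContinuousAt (cau h) ((x:ℂ) - y * I) :=
      (hasDerivAt_cau hh (im_neg_pt x hy)).2.continuousAt
    have h2 : ContinuousAt (fun x : ℝ => (x:ℂ) - y * I) x := by fun_prop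
    exact ContinuousAt.comp (f := fun x : ℝ => (x:ℂ) - y * I) h1 h2
  have m2 : Measurable fun x : ℝ => ‖cau f (x - y * I)‖ₑ ^ 2 :=
    (cneg f hf).enorm.measurable.pow_const 2
  have m3 : Measurable fun x : ℝ => ‖cau g (x + y * I)‖ₑ ^ 2 :=
    (continuous_cau_line hg hy).enorm.measurable.pow_const 2
  have m12 : Measurable fun x : ℝ => ‖cau f (x + y * I)‖ₑ ^ 2 + ‖cau f (x - y * I)‖ₑ ^ 2 :=
    m1.add m2
  calc ∫⁻ x in Icc (x₀ - r₀) (x₀ + r₀),
        (‖Phi c ε f (x + y * I)‖ₑ + ‖starRingEnd ℂ (Psi c ε f (x + y * I))‖ₑ) ^ 2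
      ≤ ∫⁻ x in Icc (x₀ - r₀) (x₀ + r₀),
        L ^ 2 * (9 * ((‖cau f (x + y * I)‖ₑ ^ 2 + ‖cau f (x - y * I)‖ₑ ^ 2) +
        (‖cau g (x + y * I)‖ₑ ^ 2 + ‖cau g (x - y * I)‖ₑ ^ 2))) :=
        setLIntegral_mono' measurableSet_Icc hpt
    _ ≤ ∫⁻ x : ℝ, L ^ 2 * (9 * ((‖cau f (x + y * I)‖ₑ ^ 2 + ‖cau f (x - y * I)‖ₑ ^ 2) +
        (‖cau g (x + y * I)‖ₑ ^ 2 + ‖cau g (x - y * I)‖ₑ ^ 2))) := setLIntegral_le_lintegral _ _
    _ = L ^ 2 * (9 * (((∫⁻ x : ℝ, ‖cau f (x + y * I)‖ₑ ^ 2) + ∫⁻ x : ℝ, ‖cau f (x - y * I)‖ₑ ^ 2) +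
        ((∫⁻ x : ℝ, ‖cau g (x + y * I)‖ₑ ^ 2) + ∫⁻ x : ℝ, ‖cau g (x - y * I)‖ₑ ^ 2))) := by
        rw [lintegral_const_mul' _ _ (ENNReal.pow_ne_top hLfin), lintegral_const_mul' _ _ (by simp),
          lintegral_add_left m12, lintegral_add_left m1, lintegral_add_left m3]
    _ ≤ _ := by
        gcongr
        · exact lintegral_cau_sq hf hy
        · exact lintegral_cau_sq' hf hy
        · exact lintegral_cau_sq hg hy
        · exact lintegral_cau_sq' hg hy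

/-- If `Wf` has zero derivative near a point of a half-plane, `cau f` vanishes on it. -/
lemma cau_eq_zero (hε : 0 < ε) (hf : MemLp f 2) {H : Set ℂ} (hHo : IsOpen H) (hHc : Convex ℝ H)
    (hHim : ∀ z ∈ H, z.im ≠ 0) (hHt : ∀ z ∈ H, ∀ x : ℝ, z + x ∈ H) {z₀ : ℂ} (hz₀ : z₀ ∈ H)
    (hev : ∀ᶠ z in 𝓝 z₀, deriv (Wf ε f) z = 0) : ∀ z ∈ H, cau f z = 0 := by
  have hpre : IsPreconnected H := hHc.isPreconnected
  have hdo : DifferentiableOn ℂ (Wf ε f) H := (differentiableOn_Wf hf).mono hHim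
  have hd2 : DifferentiableOn ℂ (deriv (Wf ε f)) H := hdo.deriv hHo
  have han : AnalyticOnNhd ℂ (deriv (Wf ε f)) H := hd2.analyticOnNhd hHo
  have hzero : EqOn (deriv (Wf ε f)) 0 H :=
    han.eqOn_zero_of_preconnected_of_eventuallyEq_zero hpre hz₀ hev
  have hconst : ∀ z ∈ H, ∀ w ∈ H, Wf ε f z = Wf ε f w := by
    intro z hz w hw
    exact hHo.is_const_of_deriv_eq_zero hpre hdo hzero hz hw
  obtain ⟨C, hC0, hC⟩ := exists_norm_cau_le hf
  intro z hz
  -- the constant value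
  set k := Wf ε f z with hk
  have hkz : k = 0 := by
    by_contra hne
    have hkpos : 0 < ‖k‖ := norm_pos_iff.mpr hne
    have habs : 0 < |z.im| := abs_pos.mpr (hHim z hz)
    have key : ∀ x : ℝ, ‖k‖ ^ 2 ≤ Real.exp (2 * ε * (z.re + x)) * (C / |z.im|) := by
      intro x
      have h1 : Wf ε f (z + x) = k := hconst _ (hHt z hz x) _ hz
      have h2 := hC (z + x) (by simpa using hHim z hz)
      have h3 : (z + (x:ℂ)).im = z.im := by simp
      rw [h3] at h2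
      rw [← h1, Wf, norm_mul, mul_pow, Complex.norm_exp]
      have h4 : ((ε:ℂ) * (z + x)).re = ε * (z.re + x) := by simp
      rw [h4, ← Real.exp_nat_mul]
      have h5 : ((2:ℕ):ℝ) * (ε * (z.re + x)) = 2 * ε * (z.re + x) := by push_cast; ring
      rw [h5]
      gcongr
    have hlim : Tendsto (fun x : ℝ => Real.exp (2 * ε * (z.re + x)) * (C / |z.im|)) atBot (𝓝 0) := by
      have h2 : Tendsto (fun x : ℝ => 2 * ε * (z.re + x)) atBot atBot :=
        (tendsto_atBot_add_const_left _ z.re tendsto_id).const_mul_atBot (by linarith)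
      have := (Real.tendsto_exp_atBot.comp h2).mul_const (C / |z.im|)
      simpa using this
    have := ge_of_tendsto' hlim key
    have : 0 < ‖k‖ ^ 2 := by positivity
    linarith
  rw [hk, Wf] at hkz
  exact (mul_eq_zero.mp hkz).resolve_left (Complex.exp_ne_zero _)

theorem main (hε : 0 < ε) {E : Set ℝ} (hE : MeasurableSet E) (hpos : 0 < volume E)
    (hf : MemLp f 2) (h0 : ∀ᵐ x : ℝ, x ∈ E → f x = 0)
    (hH : ∀ᵐ x : ℝ, x ∈ E → Tendsto (fun δ : ℝ =>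
      (∫ τ in {τ : ℝ | δ < |x - τ|}, f τ / ((x - τ : ℝ) : ℂ)) + c * gee ε f x) (𝓝[>] 0) (𝓝 0)) :
    f =ᵐ[volume] 0 := by
  -- a bounded piece of positive measure
  obtain ⟨n, hn⟩ : ∃ n : ℕ, volume (E ∩ Icc (-(n:ℝ)) n) ≠ 0 := by
    by_contra hcon
    push Not at hcon
    have h1 : E = ⋃ n : ℕ, E ∩ Icc (-(n:ℝ)) n := by
      rw [← inter_iUnion]
      refine (inter_eq_left.mpr ?_).symm
      intro x _
      obtain ⟨n, hn⟩ := exists_nat_ge |x|
      exact mem_iUnion.mpr ⟨n, abs_le.mp hn⟩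
    rw [h1] at hpos
    exact hpos.ne' (measure_iUnion_null hcon)
  set E₀ := E ∩ Icc (-(n:ℝ)) n with hE₀
  have hE₀m : MeasurableSet E₀ := hE.inter measurableSet_Icc
  have hE₀fin : volume E₀ ≠ ⊤ := by
    refine ne_top_of_le_ne_top ?_ (measure_mono inter_subset_right)
    rw [Real.volume_Icc]
    exact ENNReal.ofReal_ne_top
  obtain ⟨A, A', hA, cA', hA1', hAE, hA1⟩ := exists_weight hE₀m hE₀fin
  obtain ⟨x₀, -, hx₀⟩ : ∃ x₀ : ℝ, x₀ ∈ E₀ ∧
      Tendsto (fun y : ℝ => (A (x₀ + y * I)).re) (𝓝[>] 0) (𝓝 1) := by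
    by_contra hcon
    push Not at hcon
    apply hn
    refine measure_mono_null ?_ (ae_iff.mp hA1)
    intro x hx
    show ¬ (x ∈ E₀ → Tendsto (fun y : ℝ => (A (x + y * I)).re) (𝓝[>] 0) (𝓝 1))
    intro h
    exact hcon x hx (h hx)
  -- scale
  set r₀ : ℝ := π / (2 * (‖c‖ + 1)) with hr₀def
  have hπ := Real.pi_pos
  have hr₀ : 0 < r₀ := by positivity
  have hsmall : ∀ y : ℝ, 0 < y → y < r₀ → ‖c‖ / π * y ≤ 1 / 2 := by
    intro y hy hyr
    have h1 : ‖c‖ / π * y ≤ ‖c‖ / π * r₀ := by gcongr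
    refine h1.trans ?_
    rw [hr₀def]
    have : ‖c‖ / π * (π / (2 * (‖c‖ + 1))) = ‖c‖ / (2 * (‖c‖ + 1)) := by field_simp
    rw [this, div_le_iff₀ (by positivity)]
    linarith
  obtain ⟨M, hMfin, hM⟩ := exists_pair_bound (c := c) hε hf x₀ hr₀
  have hpair := ae_tendsto_pair hε hf h0 hH
  have csub : {z : ℂ | 0 < z.im} ⊆ {z : ℂ | z.im ≠ 0} := fun z (hz : 0 < z.im) => hz.ne'
  have cW : ContinuousOn (Wf ε f) {z : ℂ | 0 < z.im} := (continuousOn_Wf hf).mono csub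
  have cW' : ContinuousOn (deriv (Wf ε f)) {z : ℂ | 0 < z.im} := (continuousOn_deriv_Wf hf).mono csub
  have hmaps : MapsTo (fun z => starRingEnd ℂ z) {z : ℂ | 0 < z.im} {z : ℂ | z.im ≠ 0} :=
    fun z hz => conj_im_ne hz
  have cV : ContinuousOn (fun z => Wf ε f (starRingEnd ℂ z)) {z : ℂ | 0 < z.im} :=
    (continuousOn_Wf hf).comp Complex.continuous_conj.continuousOn hmaps
  have cV' : ContinuousOn (fun z => deriv (Wf ε f) (starRingEnd ℂ z)) {z : ℂ | 0 < z.im} :=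
    (continuousOn_deriv_Wf hf).comp Complex.continuous_conj.continuousOn hmaps
  have cim : ContinuousOn (fun z : ℂ => (z.im : ℂ)) {z : ℂ | 0 < z.im} :=
    Continuous.continuousOn (by fun_prop)
  obtain ⟨z₁, ρ, hρ, hball, hzero⟩ := uniqueness_ball (E := E₀) (C₀ := 2 * ‖c‖ / π) (r₀ := r₀)
    (x₀ := x₀) (M := M) (A := A) (A' := A')
    (F₁ := Phi c ε f) (F₂ := fun z => starRingEnd ℂ (Psi c ε f z))
    (p₁ := fun z => deriv (Wf ε f) z - c * ((1 / (2 * π * I)) * Wf ε f z) +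
      (c / π) * (-(I / 2) * Wf ε f z + (z.im : ℂ) * deriv (Wf ε f) z))
    (q₁ := fun z => -(c / (2 * π * I)) * (Wf ε f z - Wf ε f (starRingEnd ℂ z)))
    (p₂ := fun z => starRingEnd ℂ (deriv (Wf ε f) (starRingEnd ℂ z) +
      c * ((1 / (2 * π * I)) * Wf ε f (starRingEnd ℂ z)) +
      (c / π) * ((I / 2) * Wf ε f (starRingEnd ℂ z) + (z.im : ℂ) *
        deriv (Wf ε f) (starRingEnd ℂ z))))
    (q₂ := fun z => starRingEnd ℂ (-(c / (2 * π * I)) * (Wf ε f z - Wf ε f (starRingEnd ℂ z))))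
    hr₀ hE₀m (by positivity) hMfin
    (fun z hz => hasDbar_Phi hε hf hz)
    (fun z hz => (hasDbar_Psi hε hf hz).conj)
    (by fun_prop)
    (by fun_prop)
    (by
      refine Complex.continuous_conj.comp_continuousOn ?_
      fun_prop)
    (by
      refine Complex.continuous_conj.comp_continuousOn ?_
      fun_prop)
    (by
      intro z hz hzr _
      have h1 := diff_bound (f := f) (ε := ε) hz (hsmall z.im hz hzr)
      simp only [RCLike.norm_conj]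
      rw [norm_mul, norm_neg, norm_div]
      have h2 : ‖(2 * π * I : ℂ)‖ = 2 * π := by simp [abs_of_pos hπ]
      rw [h2]
      have h3 : ‖c‖ / (2 * π) * ‖Wf ε f z - Wf ε f (starRingEnd ℂ z)‖ +
          ‖c‖ / (2 * π) * ‖Wf ε f z - Wf ε f (starRingEnd ℂ z)‖ =
          ‖c‖ / π * ‖Wf ε f z - Wf ε f (starRingEnd ℂ z)‖ := by
        field_simp
        ring
      rw [h3]
      calc ‖c‖ / π * ‖Wf ε f z - Wf ε f (starRingEnd ℂ z)‖
          ≤ ‖c‖ / π * (2 * (‖Phi c ε f z‖ + ‖Psi c ε f z‖)) := by gcongr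
        _ = _ := by ring)
    hM
    (by
      filter_upwards [hpair] with x hx hxE
      obtain ⟨t1, t2⟩ := hx hxE.1
      have t3 := t1.enorm
      have t4 := t2.enorm
      have t5 := t3.add t4
      simp only [enorm_zero, add_zero] at t5
      refine t5.congr fun y => ?_
      rw [enorm_conj'])
    hA cA' hA1' hAE hx₀
  -- the derivative of `Wf` vanishes near `z₁` and near `conj z₁`
  have hUV : ∀ z ∈ Metric.ball z₁ ρ, Wf ε f z - Wf ε f (starRingEnd ℂ z) = 0 := by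
    intro z hz
    obtain ⟨him, himr⟩ := hball z hz
    obtain ⟨h1, h2⟩ := hzero z hz
    have h3 : Psi c ε f z = 0 := by
      have := congrArg (starRingEnd ℂ) h2
      simpa using this
    have h4 := diff_bound (f := f) (ε := ε) him (hsmall z.im him himr)
    rw [h1, h3, norm_zero, add_zero, mul_zero] at h4
    exact norm_le_zero_iff.mp h4
  have hder : ∀ z ∈ Metric.ball z₁ ρ, deriv (Wf ε f) z = 0 ∧
      deriv (Wf ε f) (starRingEnd ℂ z) = 0 := by
    intro z hz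
    obtain ⟨him, -⟩ := hball z hz
    have hU : HasDbar (Wf ε f) (deriv (Wf ε f) z) 0 z :=
      hasDbar_of_hasDerivAt ((hasDerivAt_Wf (ε := ε) hf him.ne').differentiableAt.hasDerivAt)
    have hV : HasDbar (fun w => Wf ε f (starRingEnd ℂ w)) 0 (deriv (Wf ε f) (starRingEnd ℂ z)) z :=
      hasDbar_of_hasDerivAt_conj
        ((hasDerivAt_Wf (ε := ε) hf (conj_im_ne him)).differentiableAt.hasDerivAt)
    have hev : (fun w => Wf ε f w - Wf ε f (starRingEnd ℂ w)) =ᶠ[𝓝 z] fun _ => 0 := by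
      filter_upwards [Metric.isOpen_ball.mem_nhds hz] with w hw
      exact hUV w hw
    have h0' : HasFDerivAt (fun _ : ℂ => (0 : ℂ)) (dlin 0 0) z := hasDbar_const 0 z
    have h1 : HasDbar (fun w => Wf ε f w - Wf ε f (starRingEnd ℂ w)) 0 0 z :=
      h0'.congr_of_eventuallyEq hev
    obtain ⟨h2, h3⟩ := (hU.sub hV).unique h1
    constructor
    · simpa using h2
    · simpa using h3
  have him₁ : 0 < z₁.im := (hball z₁ (Metric.mem_ball_self hρ)).1
  have up : ∀ z : ℂ, 0 < z.im → cau f z = 0 := by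
    refine cau_eq_zero hε hf (H := {z : ℂ | 0 < z.im}) (z₀ := z₁)
      (isOpen_lt continuous_const Complex.continuous_im) (convex_halfSpace_im_gt 0)
      (fun z (hz : 0 < z.im) => hz.ne') (fun z (hz : 0 < z.im) x => ?_) him₁ ?_
    · show 0 < (z + x).im
      simpa using hz
    · filter_upwards [Metric.isOpen_ball.mem_nhds (Metric.mem_ball_self hρ)] with z hz
      exact (hder z hz).1
  have down : ∀ z : ℂ, z.im < 0 → cau f z = 0 := by
    refine cau_eq_zero hε hf (H := {z : ℂ | z.im < 0}) (z₀ := starRingEnd ℂ z₁)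
      (isOpen_lt Complex.continuous_im continuous_const) (convex_halfSpace_im_lt 0)
      (fun z (hz : z.im < 0) => hz.ne) (fun z (hz : z.im < 0) x => ?_) ?_ ?_
    · show (z + x).im < 0
      simpa using hz
    · show (starRingEnd ℂ z₁).im < 0
      simpa using him₁
    · have hmem : Metric.ball (starRingEnd ℂ z₁) ρ ∈ 𝓝 (starRingEnd ℂ z₁) :=
        Metric.ball_mem_nhds _ hρ
      filter_upwards [hmem] with z hz
      have hz' : starRingEnd ℂ z ∈ Metric.ball z₁ ρ := by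
        rw [Metric.mem_ball, dist_eq_norm] at hz ⊢
        rw [← RCLike.norm_conj, map_sub, Complex.conj_conj]
        exact hz
      have := (hder _ hz').2
      rwa [Complex.conj_conj] at this
  filter_upwards [ae_tendsto_jump hf] with x hx
  have h1 : Tendsto (fun y : ℝ => (cau f (x + y * I) - cau f (x - y * I)) / (2 * π * I))
      (𝓝[>] 0) (𝓝 0) := by
    refine tendsto_const_nhds.congr' ?_
    filter_upwards [self_mem_nhdsWithin] with y hy
    have hy : 0 < y := hy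
    rw [up _ (by simpa using hy), down _ (by simpa using hy)]
    simp
  exact tendsto_nhds_unique hx h1

end Pool.Agent.Lib.MP_0e9c6a_an
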