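import Pool.Agent.Lib.MP_0e9c6a_an.Cau3

set_option autoImplicit false

open MeasureTheory Complex Set Filter Topology
open scoped Real ENNReal

namespace Pool.Agent.Lib.MP_0e9c6a_an

/-- `g(t) = ∫_{-∞}^t e^{ε(τ-t)} f(τ) dτ`. -/
noncomputable def gee (ε : ℝ) (f : ℝ → ℂ) (t : ℝ) : ℂ :=
  ∫ τ in Set.Iic t, ((Real.exp (ε * (τ - t)) : ℝ) : ℂ) * f τ

/-- the kernel -/
noncomputable def ker (ε : ℝ) (t τ : ℝ) : ℝ :=
  (Set.Iic t).indicator (fun τ => Real.exp (ε * (τ - t))) τ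

lemma ker_nonneg (ε t τ : ℝ) : 0 ≤ ker ε t τ :=
  indicator_nonneg (fun _ _ => (Real.exp_pos _).le) _

lemma measurable_ker (ε : ℝ) : Measurable (fun p : ℝ × ℝ => ker ε p.1 p.2) := by
  have h1 : (fun p : ℝ × ℝ => ker ε p.1 p.2) =
      {p : ℝ × ℝ | p.2 ≤ p.1}.indicator (fun p => Real.exp (ε * (p.2 - p.1))) := by
    ext p
    by_cases h : p.2 ≤ p.1
    · rw [indicator_of_mem (show p ∈ {p : ℝ × ℝ | p.2 ≤ p.1} from h), ker,
        indicator_of_mem (show p.2 ∈ Iic p.1 from h)]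
    · rw [indicator_of_notMem (show p ∉ {p : ℝ × ℝ | p.2 ≤ p.1} from h), ker,
        indicator_of_notMem (show p.2 ∉ Iic p.1 from h)]
  rw [h1]
  refine Measurable.indicator (by fun_prop) ?_
  exact (isClosed_le continuous_snd continuous_fst).measurableSet

lemma gee_eq (ε : ℝ) (f : ℝ → ℂ) (t : ℝ) : gee ε f t = ∫ τ : ℝ, (ker ε t τ : ℂ) * f τ := by
  rw [gee, ← integral_indicator measurableSet_Iic]
  congr 1
  ext τ
  by_cases h : τ ∈ Iic t
  · simp [indicator_of_mem h, ker]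
  · simp [indicator_of_notMem h, ker]

lemma lintegral_ker_left {ε : ℝ} (hε : 0 < ε) (τ : ℝ) :
    ∫⁻ t : ℝ, ENNReal.ofReal (ker ε t τ) = ENNReal.ofReal (1 / ε) := by
  have h1 : ∫⁻ t : ℝ, ENNReal.ofReal (ker ε t τ) =
      ∫⁻ t in Ici τ, ENNReal.ofReal (Real.exp (ε * (τ - t))) := by
    rw [← lintegral_indicator measurableSet_Ici]
    refine lintegral_congr fun t => ?_
    by_cases h : τ ≤ t
    · rw [indicator_of_mem (show t ∈ Ici τ from h), ker, indicator_of_mem (show τ ∈ Iic t from h)]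
    · rw [indicator_of_notMem (show t ∉ Ici τ from h), ker,
        indicator_of_notMem (show τ ∉ Iic t from h)]
      simp
  have hd : ∀ x ∈ Ici τ, HasDerivAt (fun t : ℝ => -(Real.exp (ε * (τ - t)) / ε))
      (Real.exp (ε * (τ - x))) x := by
    intro x _
    have e1 : HasDerivAt (fun t : ℝ => Real.exp (ε * (τ - t)))
      (Real.exp (ε * (τ - x)) * (ε * (-1))) x :=
      (((hasDerivAt_id x).const_sub τ).const_mul ε).exp
    have := (e1.div_const ε).neg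
    convert! this using 1
    field_simp
  have hlim : Tendsto (fun t : ℝ => -(Real.exp (ε * (τ - t)) / ε)) atTop (𝓝 0) := by
    have h2 : Tendsto (fun t : ℝ => ε * (τ - t)) atTop atBot :=
      (tendsto_atBot_add_const_left _ τ tendsto_neg_atTop_atBot).const_mul_atBot hε
    simpa using ((Real.tendsto_exp_atBot.comp h2).div_const ε).neg
  have hi := integrableOn_Ioi_deriv_of_nonneg' hd (fun x _ => (Real.exp_pos _).le) hlim
  have hI := integral_Ioi_of_hasDerivAt_of_tendsto' hd hi hlim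
  rw [h1, setLIntegral_congr Ioi_ae_eq_Ici.symm, ← ofReal_integral_eq_lintegral_ofReal hi
    (Filter.Eventually.of_forall fun x => (Real.exp_pos _).le), hI]
  simp

lemma lintegral_ker_right {ε : ℝ} (hε : 0 < ε) (t : ℝ) :
    ∫⁻ τ : ℝ, ENNReal.ofReal (ker ε t τ) = ENNReal.ofReal (1 / ε) := by
  have h := lintegral_ker_left hε (-t)
  rw [← h, ← lintegral_neg_eq_self]
  refine lintegral_congr fun τ => ?_
  congr 1
  by_cases h : -τ ≤ t
  · have h' : -t ≤ τ := by linarith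
    simp only [ker]
    rw [indicator_of_mem (show -τ ∈ Iic t from h), indicator_of_mem (show -t ∈ Iic τ from h')]
    congr 1
    ring
  · have h' : ¬ -t ≤ τ := by
      intro h2
      exact h (by linarith)
    simp only [ker]
    rw [indicator_of_notMem (show -τ ∉ Iic t from h),
      indicator_of_notMem (show -t ∉ Iic τ from h')]

/-- majorant -/
noncomputable def geeAbs (ε : ℝ) (f : ℝ → ℂ) (t : ℝ) : ℝ≥0∞ :=
  ∫⁻ τ : ℝ, ENNReal.ofReal (ker ε t τ) * ‖f τ‖ₑ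

lemma enorm_gee_le (ε : ℝ) (f : ℝ → ℂ) (t : ℝ) : ‖gee ε f t‖ₑ ≤ geeAbs ε f t := by
  rw [gee_eq]
  refine (enorm_integral_le_lintegral_enorm _).trans (le_of_eq ?_)
  refine lintegral_congr fun τ => ?_
  rw [enorm_mul]
  congr 1
  rw [← ofReal_norm, Complex.norm_real, Real.norm_of_nonneg (ker_nonneg _ _ _)]

lemma geeAbs_sq_le {ε : ℝ} (hε : 0 < ε) {f : ℝ → ℂ} (hf : AEStronglyMeasurable f) (t : ℝ) :
    geeAbs ε f t ^ 2 ≤ ENNReal.ofReal (1 / ε) *
      ∫⁻ τ : ℝ, ENNReal.ofReal (ker ε t τ) * ‖f τ‖ₑ ^ 2 := by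
  have hm : Measurable (fun τ : ℝ => ENNReal.ofReal (ker ε t τ)) :=
    ((measurable_ker ε).comp (measurable_const.prodMk measurable_id)).ennreal_ofReal
  set a : ℝ → ℝ≥0∞ := fun τ => (ENNReal.ofReal (ker ε t τ)) ^ (1/2 : ℝ) with ha
  have ham : Measurable a := hm.pow_const _
  have ha2 : ∀ τ, a τ ^ 2 = ENNReal.ofReal (ker ε t τ) := by
    intro τ
    simp only [ha]
    rw [← ENNReal.rpow_natCast, ← ENNReal.rpow_mul]
    norm_num
  have hcs := cauchy_schwarz (μ := (volume : Measure ℝ)) (f := a) (g := fun τ => a τ * ‖f τ‖ₑ)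
    ham.aemeasurable (ham.aemeasurable.mul hf.enorm)
  calc geeAbs ε f t ^ 2 = (∫⁻ τ : ℝ, a τ * (a τ * ‖f τ‖ₑ)) ^ 2 := by
        congr 1
        refine lintegral_congr fun τ => ?_
        rw [← mul_assoc, ← sq, ha2]
    _ ≤ (∫⁻ τ, a τ ^ 2) * ∫⁻ τ, (a τ * ‖f τ‖ₑ) ^ 2 := hcs
    _ = _ := by
        simp_rw [mul_pow, ha2]
        rw [lintegral_ker_right hε]

lemma lintegral_geeAbs_sq {ε : ℝ} (hε : 0 < ε) {f : ℝ → ℂ} (hf : AEStronglyMeasurable f) :
    ∫⁻ t, geeAbs ε f t ^ 2 ≤ ENNReal.ofReal (1 / ε) * (ENNReal.ofReal (1 / ε) *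
      ∫⁻ τ, ‖f τ‖ₑ ^ 2) := by
  calc ∫⁻ t, geeAbs ε f t ^ 2 ≤ ∫⁻ t, ENNReal.ofReal (1 / ε) *
      ∫⁻ τ : ℝ, ENNReal.ofReal (ker ε t τ) * ‖f τ‖ₑ ^ 2 := lintegral_mono fun t => geeAbs_sq_le hε hf t
    _ = ENNReal.ofReal (1 / ε) * ∫⁻ t, ∫⁻ τ : ℝ, ENNReal.ofReal (ker ε t τ) * ‖f τ‖ₑ ^ 2 := by
        rw [lintegral_const_mul' _ _ ENNReal.ofReal_ne_top]
    _ = ENNReal.ofReal (1 / ε) * ∫⁻ τ, ∫⁻ t : ℝ, ENNReal.ofReal (ker ε t τ) * ‖f τ‖ₑ ^ 2 := by
        rw [lintegral_lintegral_swap]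
        refine AEMeasurable.mul (measurable_ker ε).ennreal_ofReal.aemeasurable ?_
        exact (hf.enorm.pow_const 2).comp_snd
    _ = ENNReal.ofReal (1 / ε) * ∫⁻ τ, ENNReal.ofReal (1 / ε) * ‖f τ‖ₑ ^ 2 := by
        congr 1
        refine lintegral_congr fun τ => ?_
        rw [lintegral_mul_const' _ _ (by simp), lintegral_ker_left hε]
    _ = _ := by
        rw [lintegral_const_mul' _ _ ENNReal.ofReal_ne_top]

lemma aesm_prod (ε : ℝ) {f : ℝ → ℂ} (hf : AEStronglyMeasurable f) :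
    AEStronglyMeasurable (fun p : ℝ × ℝ => (ker ε p.1 p.2 : ℂ) * f p.2)
      ((volume : Measure ℝ).prod (volume : Measure ℝ)) := by
  refine AEStronglyMeasurable.mul ?_ hf.comp_snd
  exact (Complex.measurable_ofReal.comp (measurable_ker ε)).aestronglyMeasurable

lemma memLp_gee {ε : ℝ} (hε : 0 < ε) {f : ℝ → ℂ} (hf : MemLp f 2) : MemLp (gee ε f) 2 := by
  refine memLp_two_of_lintegral ?_ ?_
  · have := (aesm_prod ε hf.1).integral_prod_right'
    refine this.congr (Filter.Eventually.of_forall fun t => ?_)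
    exact (gee_eq ε f t).symm
  · have h1 : ∫⁻ t, ‖gee ε f t‖ₑ ^ 2 ≤ ∫⁻ t, geeAbs ε f t ^ 2 := by
      refine lintegral_mono fun t => ?_
      gcongr
      exact enorm_gee_le ε f t
    refine ne_top_of_le_ne_top ?_ (h1.trans (lintegral_geeAbs_sq hε hf.1))
    exact ENNReal.mul_ne_top ENNReal.ofReal_ne_top (ENNReal.mul_ne_top ENNReal.ofReal_ne_top
      (lintegral_sq_ne_top hf))

/-- the inner integral `∫_{τ}^∞ e^{ε(τ-t)} (1/(t-z)² + ε/(t-z)) dt = 1/(τ-z)`. -/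
lemma inner_ker {ε : ℝ} (hε : 0 < ε) {z : ℂ} (hz : z.im ≠ 0) (τ : ℝ) :
    ∫ t : ℝ, (ker ε t τ : ℂ) * ((((t:ℂ) - z) ^ 2)⁻¹ + ε * ((t:ℂ) - z)⁻¹) = ((τ:ℂ) - z)⁻¹ := by
  have habs : 0 < |z.im| := abs_pos.mpr hz
  have h1 : ∫ t : ℝ, (ker ε t τ : ℂ) * ((((t:ℂ) - z) ^ 2)⁻¹ + ε * ((t:ℂ) - z)⁻¹) =
      ∫ t in Ici τ, ((Real.exp (ε * (τ - t)) : ℝ) : ℂ) * ((((t:ℂ) - z) ^ 2)⁻¹ + ε * ((t:ℂ) - z)⁻¹) := by
    rw [← integral_indicator measurableSet_Ici]
    congr 1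
    ext t
    by_cases h : τ ≤ t
    · rw [indicator_of_mem (show t ∈ Ici τ from h), ker, indicator_of_mem (show τ ∈ Iic t from h)]
    · rw [indicator_of_notMem (show t ∉ Ici τ from h), ker,
        indicator_of_notMem (show τ ∉ Iic t from h)]
      simp
  rw [h1, integral_Ici_eq_integral_Ioi]
  set Φ : ℝ → ℂ := fun t => -(((Real.exp (ε * (τ - t)) : ℝ) : ℂ) * ((t:ℂ) - z)⁻¹) with hΦ
  have hd : ∀ t ∈ Ici τ, HasDerivAt Φ (((Real.exp (ε * (τ - t)) : ℝ) : ℂ) *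
      ((((t:ℂ) - z) ^ 2)⁻¹ + ε * ((t:ℂ) - z)⁻¹)) t := by
    intro t _
    have e1 : HasDerivAt (fun t : ℝ => Real.exp (ε * (τ - t))) (Real.exp (ε * (τ - t)) * (ε * (-1)))
        t := (((hasDerivAt_id t).const_sub τ).const_mul ε).exp
    have e2 := e1.ofReal_comp
    have e3 : HasDerivAt (fun t : ℝ => (t:ℂ) - z) 1 t :=
      (Complex.ofRealCLM.hasDerivAt (x := t)).sub_const z
    have e4 := e3.inv (sub_ne_zero_of_im hz t)
    have := (e2.mul e4).neg
    convert! this using 1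
    simp only [Pi.inv_apply]
    push_cast
    have := sub_ne_zero_of_im hz t
    field_simp
    ring
  have hlimE : Tendsto (fun t : ℝ => Real.exp (ε * (τ - t))) atTop (𝓝 0) := by
    have h2 : Tendsto (fun t : ℝ => ε * (τ - t)) atTop atBot :=
      (tendsto_atBot_add_const_left _ τ tendsto_neg_atTop_atBot).const_mul_atBot hε
    exact Real.tendsto_exp_atBot.comp h2
  have hlim : Tendsto Φ atTop (𝓝 0) := by
    have h3 : Tendsto (fun t : ℝ => Real.exp (ε * (τ - t)) * |z.im|⁻¹) atTop (𝓝 0) := by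
      simpa using hlimE.mul_const (|z.im|⁻¹)
    refine squeeze_zero_norm (fun t => ?_) h3
    simp only [hΦ]
    rw [norm_neg, norm_mul, Complex.norm_real, Real.norm_of_nonneg (Real.exp_pos _).le, norm_inv]
    gcongr
    exact abs_im_le_norm_sub t z
  have hexpi : IntegrableOn (fun t : ℝ => Real.exp (ε * (τ - t))) (Ioi τ) := by
    have hd' : ∀ x ∈ Ici τ, HasDerivAt (fun t : ℝ => -(Real.exp (ε * (τ - t)) / ε))
        (Real.exp (ε * (τ - x))) x := by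
      intro x _
      have e1 : HasDerivAt (fun t : ℝ => Real.exp (ε * (τ - t)))
        (Real.exp (ε * (τ - x)) * (ε * (-1))) x :=
        (((hasDerivAt_id x).const_sub τ).const_mul ε).exp
      have := (e1.div_const ε).neg
      convert! this using 1
      field_simp
    have hl : Tendsto (fun t : ℝ => -(Real.exp (ε * (τ - t)) / ε)) atTop (𝓝 0) := by
      simpa using (hlimE.div_const ε).neg
    exact integrableOn_Ioi_deriv_of_nonneg' hd' (fun x _ => (Real.exp_pos _).le) hl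
  have hc : Continuous (fun t : ℝ => (((t:ℂ) - z) ^ 2)⁻¹ + ε * ((t:ℂ) - z)⁻¹) := by
    have h2 := continuous_kernel hz
    have : (fun t : ℝ => (((t:ℂ) - z) ^ 2)⁻¹ + ε * ((t:ℂ) - z)⁻¹) =
        fun t : ℝ => (((t:ℂ) - z)⁻¹) ^ 2 + ε * ((t:ℂ) - z)⁻¹ := by
      ext t
      rw [inv_pow]
    rw [this]
    fun_prop
  have hi : IntegrableOn (fun t : ℝ => ((Real.exp (ε * (τ - t)) : ℝ) : ℂ) *
      ((((t:ℂ) - z) ^ 2)⁻¹ + ε * ((t:ℂ) - z)⁻¹)) (Ioi τ) := by
    refine Integrable.mul_bdd (c := (|z.im| ^ 2)⁻¹ + ε * |z.im|⁻¹) hexpi.ofReal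
      hc.aestronglyMeasurable.restrict ?_
    refine Filter.Eventually.of_forall fun t => ?_
    refine (norm_add_le _ _).trans ?_
    rw [norm_inv, norm_pow, norm_mul, norm_inv, Complex.norm_real, Real.norm_of_nonneg hε.le]
    have := abs_im_le_norm_sub t z
    gcongr
  have := integral_Ioi_of_hasDerivAt_of_tendsto' hd hi hlim
  rw [this]
  simp [hΦ]

lemma memLp_kernel_sq {z : ℂ} (hz : z.im ≠ 0) : MemLp (fun t : ℝ => (((t:ℂ) - z) ^ 2)⁻¹) 2 := by
  have habs : 0 < |z.im| := abs_pos.mpr hz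
  refine MemLp.of_le_mul (c := |z.im|⁻¹) (memLp_kernel hz) ?_ ?_
  · have : (fun t : ℝ => (((t:ℂ) - z) ^ 2)⁻¹) = fun t : ℝ => (((t:ℂ) - z)⁻¹) ^ 2 := by
      ext t
      rw [inv_pow]
    rw [this]
    exact ((continuous_kernel hz).pow 2).aestronglyMeasurable
  · refine Filter.Eventually.of_forall fun t => ?_
    rw [← inv_pow, norm_pow, sq, norm_inv]
    gcongr
    exact abs_im_le_norm_sub t z

/-- The differential identity `(cau g)' + ε cau g = cau f`. -/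
theorem gee_identity {ε : ℝ} (hε : 0 < ε) {f : ℝ → ℂ} (hf : MemLp f 2) {z : ℂ} (hz : z.im ≠ 0) :
    (∫ t : ℝ, gee ε f t / ((t : ℂ) - z) ^ 2) + ε * cau (gee ε f) z = cau f z := by
  have hg := memLp_gee hε hf
  have i1 := (hasDerivAt_cau hg hz).1
  have i2 := integrable_cau hg hz
  set k : ℝ → ℂ := fun t => (((t:ℂ) - z) ^ 2)⁻¹ + ε * ((t:ℂ) - z)⁻¹ with hk
  have hkL : MemLp k 2 := (memLp_kernel_sq hz).add ((memLp_kernel hz).const_mul _)
  have e1 : (∫ t : ℝ, gee ε f t / ((t : ℂ) - z) ^ 2) + ε * cau (gee ε f) z =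
      ∫ t : ℝ, gee ε f t * k t := by
    unfold cau
    rw [← integral_const_mul, ← integral_add i1 (i2.const_mul _)]
    congr 1
    ext t
    simp only [hk]
    ring
  rw [e1]
  have hswap : Integrable (Function.uncurry fun (t : ℝ) (τ : ℝ) => ((ker ε t τ : ℂ) * f τ) * k t)
      ((volume : Measure ℝ).prod (volume : Measure ℝ)) := by
    have hmeas : AEStronglyMeasurable (Function.uncurry fun (t : ℝ) (τ : ℝ) =>
        ((ker ε t τ : ℂ) * f τ) * k t) ((volume : Measure ℝ).prod (volume : Measure ℝ)) :=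
      (aesm_prod ε hf.1).mul hkL.1.comp_fst
    refine ⟨hmeas, ?_⟩
    rw [HasFiniteIntegral, lintegral_prod _ hmeas.enorm]
    refine lt_of_le_of_lt (b := (∫⁻ t : ℝ, geeAbs ε f t ^ 2) + ∫⁻ t, ‖k t‖ₑ ^ 2) ?_ ?_
    · rw [← lintegral_add_right' _ (hkL.1.enorm.pow_const 2)]
      refine lintegral_mono fun t => ?_
      simp only [Function.uncurry_apply_pair, enorm_mul]
      rw [lintegral_mul_const' _ _ enorm_ne_top]
      have : ∫⁻ τ : ℝ, ‖(ker ε t τ : ℂ)‖ₑ * ‖f τ‖ₑ = geeAbs ε f t := by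
        refine lintegral_congr fun τ => ?_
        congr 1
        rw [← ofReal_norm, Complex.norm_real, Real.norm_of_nonneg (ker_nonneg _ _ _)]
      rw [this]
      exact ennreal_mul_le_sq_add_sq' _ _
    · refine ENNReal.add_lt_top.mpr ⟨lt_of_le_of_lt (lintegral_geeAbs_sq hε hf.1) ?_,
        (lintegral_sq_ne_top hkL).lt_top⟩
      exact ENNReal.mul_lt_top ENNReal.ofReal_lt_top (ENNReal.mul_lt_top ENNReal.ofReal_lt_top
        (lintegral_sq_ne_top hf).lt_top)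
  have e2 : ∀ t : ℝ, gee ε f t * k t = ∫ τ : ℝ, ((ker ε t τ : ℂ) * f τ) * k t := by
    intro t
    rw [gee_eq, integral_mul_const]
  simp_rw [e2]
  rw [integral_integral_swap hswap]
  unfold cau
  congr 1
  ext τ
  have e3 : ∀ t : ℝ, ((ker ε t τ : ℂ) * f τ) * k t = f τ * ((ker ε t τ : ℂ) * k t) := by
    intro t
    ring
  simp_rw [e3]
  rw [integral_const_mul, inner_ker hε hz τ, div_eq_mul_inv]

end Pool.Agent.Lib.MP_0e9c6a_an
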