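import Pool.Agent.Lib.MP_0e9c6a_an.Pompeiu

set_option autoImplicit false

open MeasureTheory Complex Set Filter Topology
open scoped Real ENNReal

namespace Pool.Agent.Lib.MP_0e9c6a_an

lemma lintegral_inv_enorm_closedBall {R : ℝ} (hR : 0 ≤ R) :
    ∫⁻ w in Metric.closedBall (0:ℂ) R, ‖w‖ₑ⁻¹ = ENNReal.ofReal (2 * π * R) := by
  rw [← lintegral_indicator Metric.isClosed_closedBall.measurableSet,
    ← Complex.lintegral_comp_polarCoord_symm]
  have ht : polarCoord.target = Ioi (0:ℝ) ×ˢ Ioo (-π) π := rfl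
  rw [ht]
  have hcongr : ∀ x ∈ Ioi (0:ℝ) ×ˢ Ioo (-π) π,
      ENNReal.ofReal x.1 • (Metric.closedBall (0:ℂ) R).indicator (fun w => ‖w‖ₑ⁻¹)
        (Complex.polarCoord.symm x) = (Ioc (0:ℝ) R ×ˢ Ioo (-π) π).indicator (fun _ => (1:ℝ≥0∞)) x := by
    rintro ⟨r, θ⟩ ⟨hr, hθ⟩
    simp only [mem_Ioi] at hr
    have hn : ‖Complex.polarCoord.symm (r, θ)‖ = r := by
      rw [Complex.norm_polarCoord_symm, abs_of_pos hr]
    by_cases hrR : r ≤ R
    · rw [indicator_of_mem (by rw [Metric.mem_closedBall, dist_zero_right, hn]; exact hrR),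
        indicator_of_mem (show (r, θ) ∈ Ioc (0:ℝ) R ×ˢ Ioo (-π) π from ⟨⟨hr, hrR⟩, hθ⟩)]
      rw [← ofReal_norm, hn, smul_eq_mul]
      exact ENNReal.mul_inv_cancel (by simpa using hr) ENNReal.ofReal_ne_top
    · rw [indicator_of_notMem (by rw [Metric.mem_closedBall, dist_zero_right, hn]; exact hrR),
        indicator_of_notMem (fun hmem : (r, θ) ∈ Ioc (0:ℝ) R ×ˢ Ioo (-π) π => hrR hmem.1.2)]
      simp
  rw [setLIntegral_congr_fun (measurableSet_Ioi.prod measurableSet_Ioo) hcongr]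
  rw [lintegral_indicator (measurableSet_Ioc.prod measurableSet_Ioo), lintegral_one,
    Measure.restrict_restrict (measurableSet_Ioc.prod measurableSet_Ioo)]
  rw [Measure.restrict_apply MeasurableSet.univ, univ_inter]
  have : (Ioc (0:ℝ) R ×ˢ Ioo (-π) π) ∩ (Ioi (0:ℝ) ×ˢ Ioo (-π) π) = Ioc (0:ℝ) R ×ˢ Ioo (-π) π := by
    apply inter_eq_left.mpr
    exact prod_mono (fun x hx => hx.1) (subset_refl _)
  rw [this, Measure.volume_eq_prod, Measure.prod_prod, Real.volume_Ioc, Real.volume_Ioo,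
    ← ENNReal.ofReal_mul (by linarith)]
  congr 1
  ring

theorem L1_est {h p q : ℂ → ℂ} (H : ∀ z, HasDbar h (p z) (q z) z)
    (hp : Continuous p) (hq : Continuous q) {c : ℂ} {ρ : ℝ} (hρ : 0 < ρ)
    (hsupp : ∀ z, z ∉ Metric.closedBall c ρ → h z = 0) :
    ∫⁻ z, ‖h z‖ₑ ≤ ENNReal.ofReal (4 * ρ) * ∫⁻ z, ‖q z‖ₑ := by
  have hcomp : HasCompactSupport h :=
    HasCompactSupport.intro (isCompact_closedBall c ρ) hsupp
  have hqs : ∀ z, z ∉ Metric.closedBall c ρ → q z = 0 := by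
    intro z hz
    have hev : h =ᶠ[𝓝 z] fun _ => 0 := by
      filter_upwards [Metric.isClosed_closedBall.isOpen_compl.mem_nhds hz] with y hy
      exact hsupp y hy
    have hz0 : HasDbar h 0 0 z := by
      have h0 : HasFDerivAt (fun _ : ℂ => (0 : ℂ)) (dlin 0 0) z := hasDbar_const 0 z
      exact h0.congr_of_eventuallyEq hev
    exact ((H z).unique hz0).2
  have hhc : Continuous h := continuous_iff_continuousAt.mpr fun z => (H z).continuousAt
  -- pointwise bound
  have hpt : ∀ z, ENNReal.ofReal π * ‖h z‖ₑ ≤ ∫⁻ ζ, ‖q ζ‖ₑ * ‖ζ - z‖ₑ⁻¹ := by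
    intro z
    have h1 := cauchy_pompeiu H hp hq hcomp z
    have h2 : ‖∫ w : ℂ, q (z + w) / w‖ₑ = ENNReal.ofReal π * ‖h z‖ₑ := by
      rw [h1, enorm_mul, enorm_neg]
      congr 1
      rw [← ofReal_norm, Complex.norm_real, Real.norm_of_nonneg Real.pi_pos.le]
    rw [← h2]
    refine (enorm_integral_le_lintegral_enorm _).trans ?_
    have h3 : ∫⁻ ζ, ‖q ζ‖ₑ * ‖ζ - z‖ₑ⁻¹ = ∫⁻ w, ‖q (z + w)‖ₑ * ‖w‖ₑ⁻¹ := by
      rw [← lintegral_add_left_eq_self (μ := (volume : Measure ℂ)) _ z]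
      simp
    rw [h3]
    refine lintegral_mono fun w => ?_
    by_cases hw : w = 0
    · simp [hw]
    · rw [div_eq_mul_inv, enorm_mul]
      gcongr
      rw [enorm_inv hw]
  -- restrict to the ball
  have hmeas : MeasurableSet (Metric.closedBall c ρ) := Metric.isClosed_closedBall.measurableSet
  have hL : ∫⁻ z, ‖h z‖ₑ = ∫⁻ z in Metric.closedBall c ρ, ‖h z‖ₑ := by
    rw [← lintegral_indicator hmeas]
    congr 1
    ext z
    by_cases hz : z ∈ Metric.closedBall c ρ
    · simp [indicator_of_mem hz]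
    · simp [indicator_of_notMem hz, hsupp z hz]
  have hmul : ENNReal.ofReal π * ∫⁻ z, ‖h z‖ₑ ≤
      ENNReal.ofReal (4 * π * ρ) * ∫⁻ z, ‖q z‖ₑ := by
    calc ENNReal.ofReal π * ∫⁻ z, ‖h z‖ₑ
        = ∫⁻ z in Metric.closedBall c ρ, ENNReal.ofReal π * ‖h z‖ₑ := by
          rw [hL, lintegral_const_mul _ hhc.enorm.measurable]
      _ ≤ ∫⁻ z in Metric.closedBall c ρ, ∫⁻ ζ, ‖q ζ‖ₑ * ‖ζ - z‖ₑ⁻¹ :=
          lintegral_mono fun z => hpt z
      _ = ∫⁻ ζ, ∫⁻ z in Metric.closedBall c ρ, ‖q ζ‖ₑ * ‖ζ - z‖ₑ⁻¹ := by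
          rw [lintegral_lintegral_swap]
          refine Measurable.aemeasurable ?_
          have := hq.measurable
          fun_prop
      _ ≤ ∫⁻ ζ, ‖q ζ‖ₑ * ENNReal.ofReal (4 * π * ρ) := by
          refine lintegral_mono fun ζ => ?_
          by_cases hζ : ζ ∈ Metric.closedBall c ρ
          · rw [lintegral_const_mul _ (by fun_prop)]
            gcongr
            have e1 : ENNReal.ofReal (4 * π * ρ) = ∫⁻ w in Metric.closedBall (0:ℂ) (2 * ρ), ‖w‖ₑ⁻¹ := by
              rw [lintegral_inv_enorm_closedBall (by linarith)]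
              congr 1
              ring
            rw [e1, ← lintegral_indicator hmeas, ← lintegral_indicator
              Metric.isClosed_closedBall.measurableSet]
            rw [← lintegral_sub_left_eq_self (μ := (volume : Measure ℂ)) _ ζ]
            refine lintegral_mono fun z => ?_
            by_cases hz : ζ - z ∈ Metric.closedBall c ρ
            · have : z ∈ Metric.closedBall (0:ℂ) (2 * ρ) := by
                simp only [Metric.mem_closedBall, dist_eq_norm] at *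
                calc ‖z - 0‖ = ‖(ζ - c) - (ζ - z - c)‖ := by congr 1; ring
                  _ ≤ ‖ζ - c‖ + ‖ζ - z - c‖ := norm_sub_le _ _
                  _ ≤ 2 * ρ := by linarith
              rw [indicator_of_mem hz, indicator_of_mem this, sub_sub_cancel]
            · rw [indicator_of_notMem hz]
              exact bot_le
          · simp [hqs ζ hζ]
      _ = ENNReal.ofReal (4 * π * ρ) * ∫⁻ z, ‖q z‖ₑ := by
          rw [lintegral_mul_const _ hq.enorm.measurable, mul_comm]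
  have hπ : ENNReal.ofReal π ≠ 0 := by simpa using Real.pi_pos
  have hπ' : ENNReal.ofReal π ≠ ⊤ := ENNReal.ofReal_ne_top
  have e2 : ENNReal.ofReal (4 * π * ρ) = ENNReal.ofReal π * ENNReal.ofReal (4 * ρ) := by
    rw [← ENNReal.ofReal_mul Real.pi_pos.le]
    congr 1
    ring
  rw [e2, mul_assoc] at hmul
  exact (ENNReal.mul_le_mul_iff_right hπ hπ').mp hmul

end Pool.Agent.Lib.MP_0e9c6a_an
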