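import Mathlib

set_option autoImplicit false

open MeasureTheory Complex Set Filter Topology
open scoped Real ENNReal

namespace Pool.Agent.Lib.MP_0e9c6a_an

/-- normalised ball average -/
noncomputable def avg (h : ℝ → ℝ≥0∞) (x δ : ℝ) : ℝ≥0∞ :=
  (∫⁻ t in Metric.closedBall x δ, h t) / ENNReal.ofReal (2 * δ)

lemma ae_leb {f : ℝ → ℂ} (hf : LocallyIntegrable f) :
    ∀ᵐ x : ℝ, Tendsto (fun δ : ℝ => avg (fun t => ‖f t - f x‖ₑ) x δ) (𝓝[>] 0) (𝓝 0) := by
  filter_upwards [(IsUnifLocDoublingMeasure.vitaliFamily (volume : Measure ℝ)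
    1).ae_tendsto_lintegral_enorm_sub_div hf] with x hx
  have := hx.comp (IsUnifLocDoublingMeasure.tendsto_closedBall_filterAt (volume : Measure ℝ) (K := 1)
    (fun _ => x) (fun δ : ℝ => δ) tendsto_id (by
      filter_upwards [self_mem_nhdsWithin] with δ hδ
      simp only [one_mul]
      exact Metric.mem_closedBall_self (le_of_lt hδ)))
  refine this.congr fun δ => ?_
  simp only [Function.comp, avg, Real.volume_closedBall]

lemma exists_dyadic {s y : ℝ} (hy : 0 < y) (_hs : 0 ≤ s) :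
    ∃ k : ℕ, s ≤ 2 ^ k * y ∧ y / (s ^ 2 + y ^ 2) ≤ 4 / 4 ^ k / y := by
  classical
  have hex : ∃ k : ℕ, s ≤ 2 ^ k * y := by
    obtain ⟨k, hk⟩ := pow_unbounded_of_one_lt (s / y) (show (1:ℝ) < 2 by norm_num)
    refine ⟨k, ?_⟩
    rw [div_lt_iff₀ hy] at hk
    exact hk.le
  refine ⟨Nat.find hex, Nat.find_spec hex, ?_⟩
  set k := Nat.find hex with hk
  rcases Nat.eq_zero_or_pos k with h0 | hpos
  · rw [h0, pow_zero, div_one, div_le_div_iff₀ (by positivity) hy]
    nlinarith [sq_nonneg s, sq_nonneg y]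
  · have hlt : ¬ s ≤ 2 ^ (k - 1) * y := Nat.find_min hex (by omega)
    have hlt := not_le.mp hlt
    have h1 : (2 ^ (k - 1) * y) ^ 2 ≤ s ^ 2 := by
      have : 0 ≤ 2 ^ (k - 1) * y := by positivity
      exact pow_le_pow_left₀ this hlt.le 2
    have h2 : (4:ℝ) * (2 ^ (k - 1) * y) ^ 2 = 4 ^ k * y ^ 2 := by
      have : k = (k - 1) + 1 := by omega
      conv_rhs => rw [this]
      rw [mul_pow, ← pow_mul, mul_comm (k - 1) 2, pow_mul, pow_succ]
      norm_num
      ring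
    rw [div_div, div_le_div_iff₀ (by positivity) (by positivity)]
    nlinarith [sq_nonneg y]

lemma poisson_le_tsum {h : ℝ → ℝ≥0∞} (hh : AEMeasurable h) (x : ℝ) {y : ℝ} (hy : 0 < y) :
    ∫⁻ t, h t * ENNReal.ofReal (y / ((t - x) ^ 2 + y ^ 2)) ≤
      ∑' k : ℕ, ENNReal.ofReal (8 / 2 ^ k) * avg h x (2 ^ k * y) := by
  have hpt : ∀ t : ℝ, h t * ENNReal.ofReal (y / ((t - x) ^ 2 + y ^ 2)) ≤
      ∑' k : ℕ, ENNReal.ofReal (4 / 4 ^ k / y) *
        (Metric.closedBall x (2 ^ k * y)).indicator h t := by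
    intro t
    obtain ⟨k, hk1, hk2⟩ := exists_dyadic hy (abs_nonneg (t - x))
    rw [sq_abs] at hk2
    refine le_trans ?_ (ENNReal.le_tsum k)
    rw [indicator_of_mem (by rw [Metric.mem_closedBall, Real.dist_eq]; exact hk1), mul_comm]
    gcongr
  refine (lintegral_mono hpt).trans (le_of_eq ?_)
  rw [lintegral_tsum]
  · refine tsum_congr fun k => ?_
    rw [lintegral_const_mul' _ _ ENNReal.ofReal_ne_top, lintegral_indicator
      Metric.isClosed_closedBall.measurableSet, avg, ENNReal.div_eq_inv_mul, ← mul_assoc]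
    congr 1
    rw [← ENNReal.ofReal_inv_of_pos (by positivity), ← ENNReal.ofReal_mul (by positivity)]
    congr 1
    have : (4:ℝ) ^ k = 2 ^ k * 2 ^ k := by
      rw [← mul_pow]; norm_num
    rw [this]
    field_simp
    norm_num
  · intro k
    exact (hh.indicator Metric.isClosed_closedBall.measurableSet).const_mul _

lemma tendsto_poisson_of_avg {h : ℝ → ℝ≥0∞} (hh : AEMeasurable h) {x : ℝ} {B : ℝ≥0∞}
    (hB : B ≠ ⊤) (hb : ∀ δ : ℝ, 0 < δ → avg h x δ ≤ B)
    (ht : Tendsto (fun δ : ℝ => avg h x δ) (𝓝[>] 0) (𝓝 0)) :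
    Tendsto (fun y : ℝ => ∫⁻ t, h t * ENNReal.ofReal (y / ((t - x) ^ 2 + y ^ 2))) (𝓝[>] 0)
      (𝓝 0) := by
  have key : Tendsto (fun y : ℝ => ∫⁻ k : ℕ, ENNReal.ofReal (8 / 2 ^ k) * avg h x (2 ^ k * y)
      ∂Measure.count) (𝓝[>] 0) (𝓝 (∫⁻ k : ℕ, 0 ∂Measure.count)) := by
    refine tendsto_lintegral_filter_of_dominated_convergence
      (fun k : ℕ => ENNReal.ofReal (8 / 2 ^ k) * B) ?_ ?_ ?_ ?_
    · exact Filter.Eventually.of_forall fun y => Measurable.of_discrete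
    · filter_upwards [self_mem_nhdsWithin] with y hy
      have hy : 0 < y := hy
      exact Filter.Eventually.of_forall fun k => by
        gcongr
        exact hb _ (by positivity)
    · rw [lintegral_count]
      rw [ENNReal.tsum_mul_right]
      refine ENNReal.mul_ne_top ?_ hB
      have hs : Summable (fun k : ℕ => (8:ℝ) / 2 ^ k) := by
        have := (summable_geometric_two).mul_left 8
        refine this.congr fun k => ?_
        rw [one_div, inv_pow, div_eq_mul_inv]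
      exact hs.tsum_ofReal_ne_top
    · refine Filter.Eventually.of_forall fun k => ?_
      have h1 : Tendsto (fun y : ℝ => 2 ^ k * y) (𝓝[>] 0) (𝓝[>] 0) := by
        refine tendsto_nhdsWithin_iff.mpr ⟨?_, ?_⟩
        · have : Tendsto (fun y : ℝ => 2 ^ k * y) (𝓝 0) (𝓝 (2 ^ k * 0)) := by
            apply Continuous.tendsto
            fun_prop
          rw [mul_zero] at this
          exact this.mono_left nhdsWithin_le_nhds
        · filter_upwards [self_mem_nhdsWithin] with y hy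
          have hy : 0 < y := hy
          exact mul_pos (by positivity) hy
      have h2 := ENNReal.Tendsto.const_mul (a := ENNReal.ofReal (8 / 2 ^ k)) (ht.comp h1)
        (Or.inr ENNReal.ofReal_ne_top)
      simpa using h2
  rw [lintegral_zero] at key
  refine tendsto_of_tendsto_of_tendsto_of_le_of_le' tendsto_const_nhds key
    (Filter.Eventually.of_forall fun _ => bot_le) ?_
  filter_upwards [self_mem_nhdsWithin] with y hy
  rw [lintegral_count]
  exact poisson_le_tsum hh x hy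

lemma memLp_two_locallyIntegrable {f : ℝ → ℂ} (hf : MemLp f 2) : LocallyIntegrable f :=
  hf.locallyIntegrable (by norm_num)

/-- For `f ∈ L²`, at almost every point the Poisson-type integral of `|f - f x|` tends to `0`. -/
theorem ae_tendsto_poisson {f : ℝ → ℂ} (hf : MemLp f 2) :
    ∀ᵐ x : ℝ, Tendsto (fun y : ℝ => ∫⁻ t, ‖f t - f x‖ₑ * ENNReal.ofReal (y / ((t - x) ^ 2 + y ^ 2)))
      (𝓝[>] 0) (𝓝 0) := by
  filter_upwards [ae_leb (memLp_two_locallyIntegrable hf)] with x hx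
  have hm : AEMeasurable (fun t => ‖f t - f x‖ₑ) :=
    (hf.1.sub aestronglyMeasurable_const).enorm
  -- boundedness
  have hfin : ∫⁻ t, ‖f t‖ₑ ^ 2 ≠ ⊤ := by
    have h1 := hf.2
    rw [eLpNorm_lt_top_iff_lintegral_rpow_enorm_lt_top (by norm_num) (by norm_num)] at h1
    simpa using h1.ne
  have hlt := hx.eventually (gt_mem_nhds (show (0:ℝ≥0∞) < 1 by simp))
  obtain ⟨δ₁, hδ₁, hδ₁'⟩ := mem_nhdsGT_iff_exists_Ioo_subset.mp hlt
  have hδ₁ : 0 < δ₁ := hδ₁
  set B : ℝ≥0∞ := 1 + (1 + ‖f x‖ₑ + (∫⁻ t, ‖f t‖ₑ ^ 2) / ENNReal.ofReal (2 * δ₁)) with hB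
  have hBfin : B ≠ ⊤ := by
    rw [hB]
    refine ENNReal.add_ne_top.mpr ⟨by simp, ENNReal.add_ne_top.mpr ⟨by simp, ?_⟩⟩
    refine ENNReal.div_ne_top hfin ?_
    simpa using hδ₁
  refine tendsto_poisson_of_avg hm hBfin ?_ hx
  intro δ hδ
  by_cases hcase : δ < δ₁
  · exact (le_of_lt (hδ₁' ⟨hδ, hcase⟩)).trans le_self_add
  · have hcase := not_lt.mp hcase
    refine le_trans ?_ le_add_self
    rw [avg, ENNReal.div_le_iff (by simpa using hδ) ENNReal.ofReal_ne_top]
    have hm2 : AEMeasurable (fun t => ‖f t‖ₑ ^ 2) (volume.restrict (Metric.closedBall x δ)) :=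
      (hf.1.enorm.pow_const 2).restrict
    calc ∫⁻ t in Metric.closedBall x δ, ‖f t - f x‖ₑ
        ≤ ∫⁻ t in Metric.closedBall x δ, ((1 + ‖f x‖ₑ) + ‖f t‖ₑ ^ 2) := by
          refine lintegral_mono fun t => ?_
          have h1 : ‖f t - f x‖ₑ ≤ ‖f t‖ₑ + ‖f x‖ₑ := enorm_sub_le
          have h2 : ‖f t‖ₑ ≤ 1 + ‖f t‖ₑ ^ 2 := by
            rcases le_total ‖f t‖ₑ 1 with h | h
            · exact h.trans le_self_add
            · calc ‖f t‖ₑ = ‖f t‖ₑ * 1 := (mul_one _).symm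
                _ ≤ ‖f t‖ₑ * ‖f t‖ₑ := by gcongr
                _ = ‖f t‖ₑ ^ 2 := (sq _).symm
                _ ≤ _ := le_add_self
          calc ‖f t - f x‖ₑ ≤ ‖f t‖ₑ + ‖f x‖ₑ := h1
            _ ≤ (1 + ‖f t‖ₑ ^ 2) + ‖f x‖ₑ := by gcongr
            _ = _ := by ring
      _ = (1 + ‖f x‖ₑ) * ENNReal.ofReal (2 * δ) + ∫⁻ t in Metric.closedBall x δ, ‖f t‖ₑ ^ 2 := by
          rw [lintegral_add_left measurable_const, setLIntegral_const, Real.volume_closedBall]
      _ ≤ (1 + ‖f x‖ₑ) * ENNReal.ofReal (2 * δ) + ∫⁻ t, ‖f t‖ₑ ^ 2 := by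
          gcongr
          exact Measure.restrict_le_self
      _ ≤ (1 + ‖f x‖ₑ) * ENNReal.ofReal (2 * δ) +
            ((∫⁻ t, ‖f t‖ₑ ^ 2) / ENNReal.ofReal (2 * δ₁)) * ENNReal.ofReal (2 * δ) := by
          gcongr
          calc ∫⁻ t, ‖f t‖ₑ ^ 2 = ((∫⁻ t, ‖f t‖ₑ ^ 2) / ENNReal.ofReal (2 * δ₁)) *
                ENNReal.ofReal (2 * δ₁) := by
                rw [ENNReal.div_mul_cancel (by simpa using hδ₁) ENNReal.ofReal_ne_top]
            _ ≤ _ := by gcongr
      _ = _ := by ring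

end Pool.Agent.Lib.MP_0e9c6a_an
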