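import Pool.Agent.Lib.MP_0e9c6a_an.Bottom

set_option autoImplicit false

open MeasureTheory Complex Set Filter Topology
open scoped Real ENNReal

namespace Pool.Agent.Lib.MP_0e9c6a_an

lemma enorm_exp (w : ℂ) : ‖cexp w‖ₑ = ENNReal.ofReal (Real.exp w.re) := by
  rw [← ofReal_norm, Complex.norm_exp]

/-- If a finite quantity dominates `exp (N/2) * S` for all `N`, then `S = 0`. -/
lemma eq_zero_of_exp_mul_le {S B : ℝ≥0∞} (hB : B ≠ ⊤)
    (h : ∀ N : ℕ, ENNReal.ofReal (Real.exp (N / 2)) * S ≤ B) : S = 0 := by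
  by_contra hS
  have hS' : S ≠ ⊤ := by
    intro hS'
    have := h 0
    rw [hS'] at this
    simp at this
    exact hB this
  have hpos : 0 < S.toReal := ENNReal.toReal_pos hS hS'
  obtain ⟨N, hN⟩ := exists_nat_gt (2 * (B.toReal / S.toReal))
  have h1 := h N
  have h2 : Real.exp (N / 2) * S.toReal ≤ B.toReal := by
    have := (ENNReal.toReal_le_toReal (ENNReal.mul_ne_top ENNReal.ofReal_ne_top hS') hB).mpr h1
    rwa [ENNReal.toReal_mul, ENNReal.toReal_ofReal (Real.exp_pos _).le] at this
  have h3 : Real.exp (N / 2) ≤ B.toReal / S.toReal := by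
    rw [le_div_iff₀ hpos]; exact h2
  have h4 : (N:ℝ) / 2 + 1 ≤ Real.exp (N / 2) := Real.add_one_le_exp _
  linarith

theorem uniqueness_ball
    {F₁ F₂ p₁ q₁ p₂ q₂ A A' : ℂ → ℂ} {E : Set ℝ} {C₀ r₀ x₀ : ℝ} {M : ℝ≥0∞}
    (hr₀ : 0 < r₀) (hE : MeasurableSet E) (hC₀ : 0 ≤ C₀) (hM : M ≠ ⊤)
    (h₁ : ∀ z : ℂ, 0 < z.im → HasDbar F₁ (p₁ z) (q₁ z) z)
    (h₂ : ∀ z : ℂ, 0 < z.im → HasDbar F₂ (p₂ z) (q₂ z) z)
    (cp₁ : ContinuousOn p₁ {z : ℂ | 0 < z.im}) (cq₁ : ContinuousOn q₁ {z : ℂ | 0 < z.im})
    (cp₂ : ContinuousOn p₂ {z : ℂ | 0 < z.im}) (cq₂ : ContinuousOn q₂ {z : ℂ | 0 < z.im})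
    (hq : ∀ z : ℂ, 0 < z.im → z.im < r₀ → |z.re - x₀| ≤ r₀ →
      ‖q₁ z‖ + ‖q₂ z‖ ≤ C₀ * (‖F₁ z‖ + ‖F₂ z‖))
    (hL2 : ∀ y : ℝ, 0 < y → y < r₀ → ∫⁻ x in Icc (x₀ - r₀) (x₀ + r₀),
      (‖F₁ (x + y * I)‖ₑ + ‖F₂ (x + y * I)‖ₑ) ^ 2 ≤ M)
    (hlim : ∀ᵐ x : ℝ, x ∈ E →
      Tendsto (fun y : ℝ => ‖F₁ (x + y * I)‖ₑ + ‖F₂ (x + y * I)‖ₑ) (𝓝[>] 0) (𝓝 0))
    (hA : ∀ z : ℂ, 0 < z.im → HasDerivAt A (A' z) z)
    (cA' : ContinuousOn A' {z : ℂ | 0 < z.im})
    (hA1' : ∀ z : ℂ, 0 < z.im → (A z).re ≤ 1)
    (hAE : ∀ᵐ x : ℝ, x ∉ E → Tendsto (fun y : ℝ => (A (x + y * I)).re) (𝓝[>] 0) (𝓝 0))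
    (hA1 : Tendsto (fun y : ℝ => (A (x₀ + y * I)).re) (𝓝[>] 0) (𝓝 1)) :
    ∃ z₁ : ℂ, ∃ ρ : ℝ, 0 < ρ ∧ (∀ z ∈ Metric.ball z₁ ρ, 0 < z.im ∧ z.im < r₀) ∧
      ∀ z ∈ Metric.ball z₁ ρ, F₁ z = 0 ∧ F₂ z = 0 := by
  have hopen : IsOpen {z : ℂ | 0 < z.im} := isOpen_lt continuous_const Complex.continuous_im
  have cF₁ : ContinuousOn F₁ {z : ℂ | 0 < z.im} := fun z hz =>
    (h₁ z hz).continuousAt.continuousWithinAt
  have cF₂ : ContinuousOn F₂ {z : ℂ | 0 < z.im} := fun z hz =>
    (h₂ z hz).continuousAt.continuousWithinAt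
  have cA : ContinuousOn A {z : ℂ | 0 < z.im} := fun z hz =>
    (hA z hz).continuousAt.continuousWithinAt
  -- choice of the scale
  set r : ℝ := min r₀ (1 / (16 * (C₀ + 1))) with hrdef
  have hr : 0 < r := lt_min hr₀ (by positivity)
  have hrr₀ : r ≤ r₀ := min_le_left _ _
  have hrC : 8 * r * C₀ ≤ 1 / 2 := by
    have h1 : r ≤ 1 / (16 * (C₀ + 1)) := min_le_right _ _
    have h2 : r * (16 * (C₀ + 1)) ≤ 1 := by
      rwa [le_div_iff₀ (by positivity)] at h1
    nlinarith
  set η : ℝ := r / 4 with hη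
  have hη0 : 0 < η := by positivity
  set κ : ℝ := 16 / r with hκ
  set lam : ℝ := 6 / r ^ 2 with hlam
  set ψ : ℂ → ℂ := fun z => A z + I * κ * (z - x₀) - lam * (z - x₀) ^ 2 with hψ
  have ψre : ∀ z : ℂ, (ψ z).re = (A z).re - κ * z.im - lam * ((z.re - x₀) ^ 2 - z.im ^ 2) := by
    intro z
    simp [hψ, sq]
    ring
  have hψd : ∀ z : ℂ, 0 < z.im → HasDerivAt ψ (A' z + I * κ - lam * (2 * (z - x₀))) z := by
    intro z hz
    have e1 : HasDerivAt (fun z : ℂ => z - x₀) 1 z := (hasDerivAt_id z).sub_const _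
    have e2 : HasDerivAt (fun z : ℂ => I * κ * (z - x₀)) (I * κ * 1) z := e1.const_mul _
    have e3 : HasDerivAt (fun z : ℂ => (lam : ℂ) * (z - x₀) ^ 2)
        ((lam : ℂ) * (((2 : ℕ) : ℂ) * (z - x₀) ^ (2 - 1) * 1)) z := (e1.pow 2).const_mul _
    have := ((hA z hz).add e2).sub e3
    convert! this using 1
    simp
  have cψ : ContinuousOn ψ {z : ℂ | 0 < z.im} := fun z hz =>
    (hψd z hz).continuousAt.continuousWithinAt
  have hκη : κ * (η / 2) = 2 := by
    simp only [hκ, hη]; field_simp; norm_num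
  have hlη : lam * η ^ 2 = 3 / 8 := by
    simp only [hlam, hη]; field_simp; norm_num
  have hlr : lam * (r / 2) ^ 2 = 3 / 2 := by
    simp only [hlam]; field_simp; norm_num
  have hlam0 : 0 < lam := by positivity
  have hκ0 : 0 < κ := by positivity
  -- bounds of the weight exponent
  have ψ_le : ∀ z : ℂ, 0 < z.im → z.im ≤ η → (ψ z).re ≤ (A z).re := by
    intro z hz hz'
    rw [ψre]
    have h1 : lam * z.im ^ 2 ≤ κ * z.im := by
      have : lam * η ≤ κ := by
        simp only [hlam, hκ, hη]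
        have : 6 / r ^ 2 * (r / 4) = (3/2) / r := by field_simp; norm_num
        rw [this]
        gcongr
        norm_num
      nlinarith [mul_le_mul_of_nonneg_left hz' hlam0.le]
    nlinarith [sq_nonneg (z.re - x₀), mul_nonneg hlam0.le (sq_nonneg (z.re - x₀))]
  have ψ_side : ∀ z : ℂ, 0 < z.im → z.im ≤ η → r / 2 ≤ |z.re - x₀| → (ψ z).re ≤ 0 := by
    intro z hz hz' hx
    rw [ψre]
    have h1 := hA1' z hz
    have h2 : (r / 2) ^ 2 ≤ (z.re - x₀) ^ 2 := by
      rw [← sq_abs (z.re - x₀)]
      exact pow_le_pow_left₀ (by positivity) hx 2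
    have h3 : z.im ^ 2 ≤ η ^ 2 := pow_le_pow_left₀ hz.le hz' 2
    have h4 := mul_le_mul_of_nonneg_left h2 hlam0.le
    have h5 := mul_le_mul_of_nonneg_left h3 hlam0.le
    have h6 : 0 ≤ κ * z.im := by positivity
    nlinarith
  have ψ_top : ∀ z : ℂ, 0 < z.im → z.im ≤ η → η / 2 ≤ z.im → (ψ z).re ≤ 0 := by
    intro z hz hz' hy
    rw [ψre]
    have h1 := hA1' z hz
    have h3 : z.im ^ 2 ≤ η ^ 2 := pow_le_pow_left₀ hz.le hz' 2
    have h5 := mul_le_mul_of_nonneg_left h3 hlam0.le
    have h6 := mul_le_mul_of_nonneg_left hy hκ0.le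
    have h7 : 0 ≤ lam * (z.re - x₀) ^ 2 := by positivity
    nlinarith
  -- the good point
  obtain ⟨y₁, hy₁0, hy₁η, hy₁⟩ : ∃ y₁ : ℝ, 0 < y₁ ∧ y₁ < η / 2 ∧ 1 / 2 < (ψ (x₀ + y₁ * I)).re := by
    have t1 : Tendsto (fun y : ℝ => (ψ (x₀ + y * I)).re) (𝓝[>] 0) (𝓝 1) := by
      have e : ∀ y : ℝ, (ψ (x₀ + y * I)).re = (A (x₀ + y * I)).re - κ * y + lam * y ^ 2 := by
        intro y
        rw [ψre]
        simp
      simp only [e]
      have t2 : Tendsto (fun y : ℝ => - κ * y + lam * y ^ 2) (𝓝[>] 0) (𝓝 0) := by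
        have : Tendsto (fun y : ℝ => - κ * y + lam * y ^ 2) (𝓝 0) (𝓝 (-κ * 0 + lam * 0 ^ 2)) := by
          apply Continuous.tendsto
          fun_prop
        simp only [mul_zero, ne_eq, OfNat.ofNat_ne_zero, not_false_eq_true, zero_pow, add_zero] at this
        exact this.mono_left nhdsWithin_le_nhds
      have := hA1.add t2
      simp only [add_zero] at this
      refine this.congr fun y => by ring
    have t3 := t1.eventually (lt_mem_nhds (show (1/2:ℝ) < 1 by norm_num))
    have t4 : ∀ᶠ y in 𝓝[>] (0:ℝ), y ∈ Ioo 0 (η / 2) := Ioo_mem_nhdsGT (by positivity)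
    obtain ⟨y, hy1, hy2⟩ := (t3.and t4).exists
    exact ⟨y, hy2.1, hy2.2, hy1⟩
  set z₁ : ℂ := x₀ + y₁ * I with hz₁
  have hz₁im : z₁.im = y₁ := by simp [hz₁]
  have hz₁re : z₁.re = x₀ := by simp [hz₁]
  obtain ⟨ρ, hρ0, hρ⟩ : ∃ ρ > 0, ∀ z ∈ Metric.ball z₁ ρ, y₁ / 2 < z.im ∧ z.im < η / 2 ∧
      |z.re - x₀| < r / 2 ∧ 1 / 2 < (ψ z).re := by
    have e1 : ∀ᶠ z in 𝓝 z₁, y₁ / 2 < z.im :=
      Complex.continuous_im.continuousAt.eventually (lt_mem_nhds (by rw [hz₁im]; linarith))
    have e2 : ∀ᶠ z in 𝓝 z₁, z.im < η / 2 :=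
      Complex.continuous_im.continuousAt.eventually (gt_mem_nhds (by rw [hz₁im]; linarith))
    have e3 : ∀ᶠ z : ℂ in 𝓝 z₁, |z.re - x₀| < r / 2 := by
      have hc : Continuous fun z : ℂ => |z.re - x₀| := by fun_prop
      refine hc.continuousAt.eventually (gt_mem_nhds ?_)
      simp only [hz₁re, sub_self, abs_zero]
      linarith
    have e4 : ∀ᶠ z : ℂ in 𝓝 z₁, 1 / 2 < (ψ z).re := by
      have hc : ContinuousAt (fun z : ℂ => (ψ z).re) z₁ :=
        Complex.continuous_re.continuousAt.comp
          (cψ.continuousAt (hopen.mem_nhds (show 0 < z₁.im by rw [hz₁im]; exact hy₁0)))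
      exact hc.eventually (lt_mem_nhds hy₁)
    obtain ⟨ρ, hρ0, hρ⟩ := Metric.eventually_nhds_iff_ball.mp (e1.and (e2.and (e3.and e4)))
    exact ⟨ρ, hρ0, hρ⟩
  refine ⟨z₁, ρ, hρ0, fun z hz => ⟨by linarith [(hρ z hz).1], by
    have := (hρ z hz).2.1
    have h2 : η / 2 ≤ r := by rw [hη]; linarith
    linarith⟩, ?_⟩
  -- cut-off constant
  obtain ⟨K, hK0, hK⟩ := exists_cut
  set a₀ : ℝ := x₀ - r with ha₀
  set b₀ : ℝ := x₀ + r with hb₀
  set Mb : ℝ≥0∞ := 3 * M + 3 * ENNReal.ofReal (b₀ - a₀) + 1 with hMb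
  set f : ℂ → ℝ≥0∞ := fun z => ‖F₁ z‖ₑ + ‖F₂ z‖ₑ with hf
  have hMbfin : Mb ≠ ⊤ := by
    rw [hMb]
    exact ENNReal.add_ne_top.mpr ⟨ENNReal.add_ne_top.mpr ⟨ENNReal.mul_ne_top (by simp) hM,
      ENNReal.mul_ne_top (by simp) ENNReal.ofReal_ne_top⟩, by simp⟩
  have hsub : Icc a₀ b₀ ⊆ Icc (x₀ - r₀) (x₀ + r₀) := Icc_subset_Icc (by linarith) (by linarith)
  have hL2' : ∀ y : ℝ, 0 < y → y < r₀ → ∫⁻ x in Icc a₀ b₀, (f (x + y * I)) ^ 2 ≤ M := by
    intro y hy hy'
    exact (lintegral_mono_set hsub).trans (hL2 y hy hy')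
  have meas_line : ∀ G : ℂ → ℂ, ContinuousOn G {z : ℂ | 0 < z.im} → ∀ y : ℝ, 0 < y →
      Continuous (fun x : ℝ => G (x + y * I)) := by
    intro G hG y hy
    refine hG.comp_continuous (by fun_prop) ?_
    intro x
    show 0 < ((x:ℂ) + y * I).im
    simpa using hy
  have hfm : ∀ y : ℝ, 0 < y → Measurable (fun x : ℝ => f (x + y * I)) := by
    intro y hy
    have m1 := (meas_line F₁ cF₁ y hy).enorm.measurable
    have m2 := (meas_line F₂ cF₂ y hy).enorm.measurable
    exact m1.add m2
  -- the constants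
  set CS : ℝ := K / (r / 2) + K / (η / 2) with hCS
  set MY : ℝ≥0∞ := ENNReal.ofReal CS * (ENNReal.ofReal η * (M + ENNReal.ofReal (b₀ - a₀))) +
    ENNReal.ofReal K * Mb with hMY
  have hMYfin : MY ≠ ⊤ := by
    rw [hMY]
    refine ENNReal.add_ne_top.mpr ⟨ENNReal.mul_ne_top ENNReal.ofReal_ne_top
      (ENNReal.mul_ne_top ENNReal.ofReal_ne_top (ENNReal.add_ne_top.mpr
        ⟨hM, ENNReal.ofReal_ne_top⟩)), ENNReal.mul_ne_top ENNReal.ofReal_ne_top hMbfin⟩
  have main : ∀ N : ℕ, ENNReal.ofReal (Real.exp (N / 2)) * ∫⁻ z in Metric.ball z₁ ρ, f z ≤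
      ENNReal.ofReal (16 * r) * MY := by
    intro N
    set Ω : ℂ → ℂ := fun z => cexp (N * ψ z) with hΩdef
    have hΩ : ∀ z : ℂ, 0 < z.im → HasDerivAt Ω
        (cexp (N * ψ z) * (N * (A' z + I * κ - lam * (2 * (z - x₀))))) z := by
      intro z hz
      exact ((hψd z hz).const_mul (N : ℂ)).cexp
    have cΩ' : ContinuousOn (fun z => cexp (N * ψ z) * (N * (A' z + I * κ - lam * (2 * (z - x₀)))))
        {z : ℂ | 0 < z.im} := by
      refine ContinuousOn.mul ?_ ?_
      · exact (continuousOn_const.mul cψ).cexp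
      · refine continuousOn_const.mul ?_
        refine (cA'.add continuousOn_const).sub ?_
        exact Continuous.continuousOn (by fun_prop)
    have enΩ : ∀ z, ‖Ω z‖ₑ = ENNReal.ofReal (Real.exp (N * (ψ z).re)) := by
      intro z
      rw [hΩdef, enorm_exp]
      congr 2
      simp
    -- bottom estimate
    have hbot := bottom (g := fun y x => f (x + y * I)) (W := fun y x => ‖Ω (x + y * I)‖ₑ)
      (ω := fun y x => (A (x + y * I)).re) (E := E) (a := a₀) (b := b₀) (r₀ := η) (M := M) hη0 hE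
      (N := N) hfm
      (fun y hy => (Complex.continuous_re.comp (meas_line A cA y hy)).measurable)
      (Nat.cast_nonneg N)
      (by
        intro y hy hy' x
        simp only [enΩ]
        refine ENNReal.ofReal_le_ofReal (Real.exp_le_exp.mpr ?_)
        refine mul_le_mul_of_nonneg_left ?_ (Nat.cast_nonneg N)
        refine ψ_le _ (by simpa using hy) (by simpa using hy'.le))
      (by
        intro y hy x
        exact hA1' _ (by simpa using hy))
      (by
        intro y hy hy'
        refine hL2' y hy ?_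
        have : η ≤ r := by rw [hη]; linarith
        linarith)
      hlim hAE
    -- choose τ
    obtain ⟨τ, hτ0, hτη, hτy, hτbot⟩ : ∃ τ : ℝ, 0 < τ ∧ 2 * τ < η / 2 ∧ 2 * τ < y₁ / 2 ∧
        ∀ y : ℝ, τ ≤ y → y ≤ 2 * τ →
          ∫⁻ x in Icc a₀ b₀, f (x + y * I) * ‖Ω (x + y * I)‖ₑ ≤ Mb := by
      obtain ⟨δ, hδ0, hδ⟩ := mem_nhdsGT_iff_exists_Ioo_subset.mp hbot
      have hδ0 : 0 < δ := hδ0
      refine ⟨min δ (min η y₁) / 8, ?_, ?_, ?_, ?_⟩
      · have := lt_min hδ0 (lt_min hη0 hy₁0)
        positivity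
      · have := (min_le_right δ (min η y₁)).trans (min_le_left η y₁)
        linarith
      · have := (min_le_right δ (min η y₁)).trans (min_le_right η y₁)
        linarith
      · intro y hy1 hy2
        have h3 := min_le_left δ (min η y₁)
        have h4 : 0 < min δ (min η y₁) := lt_min hδ0 (lt_min hη0 hy₁0)
        exact hδ ⟨by linarith, by linarith⟩
    -- cut-offs
    obtain ⟨a, a', ha, ca', ha01, ha1, haL, haR, ha'0, ha'L, ha'R⟩ :=
      hK (x₀ - r) (x₀ - r / 2) (x₀ + r / 2) (x₀ + r) (by linarith) (by linarith) (by linarith)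
    obtain ⟨b, b', hb, cb', hb01, hb1, hbL, hbR, hb'0, hb'L, hb'R⟩ :=
      hK τ (2 * τ) (η / 2) η (by linarith) hτη.le (by linarith)
    set χ : ℂ → ℂ := fun z => (a z.re : ℂ) * (b z.im : ℂ) with hχdef
    set pχ : ℂ → ℂ := fun z => (a' z.re : ℂ) / 2 * (b z.im) + a z.re * (-(I * (b' z.im) / 2))
      with hpχdef
    set qχ : ℂ → ℂ := fun z => (a' z.re : ℂ) / 2 * (b z.im) + a z.re * (I * (b' z.im) / 2)
      with hqχdef
    have ca : Continuous a := continuous_iff_continuousAt.mpr fun x => (ha x).continuousAt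
    have cb : Continuous b := continuous_iff_continuousAt.mpr fun x => (hb x).continuousAt
    have hχ : ∀ z, HasDbar χ (pχ z) (qχ z) z := fun z => hasDbar_cut2 ha hb z
    have cpχ : Continuous pχ := by
      simp only [hpχdef]
      fun_prop
    have cqχ : Continuous qχ := by
      simp only [hqχdef]
      fun_prop
    have hzero : ∀ z : ℂ, z.im ≤ τ → χ z = 0 ∧ pχ z = 0 ∧ qχ z = 0 := by
      intro z hz
      have h1 := hbL z.im hz
      simp [hχdef, hpχdef, hqχdef, h1.1, h1.2]
    have hχreg : ∀ z : ℂ, χ z ≠ 0 → a₀ ≤ z.re ∧ z.re ≤ b₀ ∧ τ ≤ z.im ∧ z.im ≤ η := by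
      intro z hz
      refine ⟨?_, ?_, ?_, ?_⟩
      · by_contra h
        exact hz (by simp [hχdef, (haL z.re (not_le.mp h).le).1])
      · by_contra h
        exact hz (by simp [hχdef, (haR z.re (not_le.mp h).le).1])
      · by_contra h
        exact hz (by simp [hχdef, (hbL z.im (not_le.mp h).le).1])
      · by_contra h
        exact hz (by simp [hχdef, (hbR z.im (not_le.mp h).le).1])
    have hsupp : ∀ z, z ∉ Metric.closedBall (x₀ : ℂ) (2 * r) → χ z = 0 := by
      intro z hz
      by_contra hne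
      obtain ⟨h1, h2, h3, h4⟩ := hχreg z hne
      apply hz
      rw [Metric.mem_closedBall, dist_eq_norm]
      have h5 : |(z - x₀).re| ≤ r := by
        simp only [sub_re, ofReal_re]
        rw [abs_le]
        constructor <;> linarith
      have h6 : |(z - x₀).im| ≤ r := by
        simp only [sub_im, ofReal_im, sub_zero]
        rw [abs_le]
        constructor
        · linarith
        · have : η ≤ r := by rw [hη]; linarith
          linarith
      calc ‖z - x₀‖ ≤ |(z - x₀).re| + |(z - x₀).im| := Complex.norm_le_abs_re_add_abs_im _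
        _ ≤ 2 * r := by linarith
    have hqq : ∀ z, χ z ≠ 0 → ‖q₁ z‖ + ‖q₂ z‖ ≤ C₀ * (‖F₁ z‖ + ‖F₂ z‖) := by
      intro z hz
      obtain ⟨h1, h2, h3, h4⟩ := hχreg z hz
      refine hq z (by linarith) ?_ ?_
      · have : η < r := by rw [hη]; linarith
        linarith
      · rw [abs_le]
        constructor <;> linarith
    have hw := weighted (x₀ := x₀) hr hτ0 hC₀ hrC h₁ h₂ cp₁ cq₁ cp₂ cq₂ hΩ cΩ' hχ cpχ cqχ hzero
      hsupp hqq
    -- lower bound
    have lower : ENNReal.ofReal (Real.exp (N / 2)) * ∫⁻ z in Metric.ball z₁ ρ, f z ≤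
        ∫⁻ z, ‖χ z‖ₑ * ((‖F₁ z‖ₑ + ‖F₂ z‖ₑ) * ‖Ω z‖ₑ) := by
      rw [← lintegral_const_mul' _ _ ENNReal.ofReal_ne_top]
      refine le_trans ?_ (setLIntegral_le_lintegral (Metric.ball z₁ ρ) _)
      refine setLIntegral_mono' Metric.isOpen_ball.measurableSet fun z hz => ?_
      obtain ⟨g1, g2, g3, g4⟩ := hρ z hz
      have hχ1 : χ z = 1 := by
        have e1 : a z.re = 1 := by
          rw [abs_lt] at g3
          exact ha1 _ (by linarith) (by linarith)
        have e2 : b z.im = 1 := hb1 _ (by linarith) g2.le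
        simp [hχdef, e1, e2]
      rw [hχ1, enorm_one, one_mul, mul_comm, enΩ]
      gcongr
      rw [div_eq_mul_inv]
      gcongr
      linarith
    -- upper bound
    have upper : ∫⁻ z, ‖qχ z‖ₑ * ((‖F₁ z‖ₑ + ‖F₂ z‖ₑ) * ‖Ω z‖ₑ) ≤ MY := by
      -- pointwise
      set R₁ : Set ℂ := {z | z.re ∈ Icc a₀ b₀ ∧ z.im ∈ Ioc 0 η} with hR₁
      set R₂ : Set ℂ := {z | z.re ∈ Icc a₀ b₀ ∧ z.im ∈ Icc τ (2 * τ)} with hR₂
      have pt : ∀ z, ‖qχ z‖ₑ * ((‖F₁ z‖ₑ + ‖F₂ z‖ₑ) * ‖Ω z‖ₑ) ≤
          R₁.indicator (fun z => ENNReal.ofReal CS * f z) z +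
          R₂.indicator (fun z => ENNReal.ofReal (K / τ) * (f z * ‖Ω z‖ₑ)) z := by
        intro z
        by_cases hz : z ∈ R₁
        swap
        · -- then qχ z = 0
          have hq0 : qχ z = 0 := by
            by_contra hne
            apply hz
            refine ⟨⟨?_, ?_⟩, ⟨?_, ?_⟩⟩
            · by_contra h
              have := haL z.re (not_le.mp h).le
              exact hne (by simp [hqχdef, this.1, this.2])
            · by_contra h
              have := haR z.re (not_le.mp h).le
              exact hne (by simp [hqχdef, this.1, this.2])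
            · by_contra h
              have := hbL z.im (by linarith)
              exact hne (by simp [hqχdef, this.1, this.2])
            · by_contra h
              have := hbR z.im (not_le.mp h).le
              exact hne (by simp [hqχdef, this.1, this.2])
          rw [hq0]
          simp
        · obtain ⟨⟨hx1, hx2⟩, ⟨hy1, hy2⟩⟩ := hz
          have hzR₁ : z ∈ R₁ := ⟨⟨hx1, hx2⟩, ⟨hy1, hy2⟩⟩
          have enq : ‖qχ z‖ₑ ≤ ENNReal.ofReal |a' z.re| + ENNReal.ofReal |b' z.im| := by
            rw [← ofReal_norm, ← ENNReal.ofReal_add (abs_nonneg _) (abs_nonneg _)]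
            refine ENNReal.ofReal_le_ofReal ?_
            simp only [hqχdef]
            refine (norm_add_le _ _).trans ?_
            rw [norm_mul, norm_mul, norm_div, norm_div, norm_mul, Complex.norm_I,
              Complex.norm_real, Complex.norm_real, Complex.norm_real, Complex.norm_real,
              Real.norm_eq_abs, Real.norm_eq_abs, Real.norm_eq_abs, Real.norm_eq_abs,
              abs_of_nonneg (ha01 z.re).1, abs_of_nonneg (hb01 z.im).1]
            have i1 := (ha01 z.re).2
            have i2 := (hb01 z.im).2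
            have i3 := (ha01 z.re).1
            have i4 := (hb01 z.im).1
            have i5 := abs_nonneg (a' z.re)
            have i6 := abs_nonneg (b' z.im)
            have n2 : ‖(2:ℂ)‖ = 2 := by simp
            rw [n2]
            have j1 : |a' z.re| / 2 * b z.im ≤ |a' z.re| := by nlinarith
            have j2 : a z.re * (1 * |b' z.im| / 2) ≤ |b' z.im| := by nlinarith
            linarith
          have side : ENNReal.ofReal |a' z.re| * ‖Ω z‖ₑ ≤ ENNReal.ofReal (K / (r / 2)) := by
            by_cases hmid : |z.re - x₀| < r / 2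
            · have : a' z.re = 0 := by
                rw [abs_lt] at hmid
                exact ha'0 _ (by linarith) (by linarith)
              simp [this]
            · have hmid := not_lt.mp hmid
              have h1 : ‖Ω z‖ₑ ≤ 1 := by
                rw [enΩ]
                rw [ENNReal.ofReal_le_one]
                apply Real.exp_le_one_iff.mpr
                exact mul_nonpos_of_nonneg_of_nonpos (Nat.cast_nonneg N)
                  (ψ_side z hy1 hy2 hmid)
              have h2 : |a' z.re| ≤ K / (r / 2) := by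
                rcases le_abs.mp hmid with h | h
                · have := ha'R z.re (by linarith)
                  have e : x₀ + r - (x₀ + r / 2) = r / 2 := by ring
                  rwa [e] at this
                · have := ha'L z.re (by linarith)
                  have e : x₀ - r / 2 - (x₀ - r) = r / 2 := by ring
                  rwa [e] at this
              calc ENNReal.ofReal |a' z.re| * ‖Ω z‖ₑ ≤ ENNReal.ofReal (K / (r / 2)) * 1 := by
                    gcongr
                _ = _ := mul_one _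
          have vert : ENNReal.ofReal |b' z.im| * ‖Ω z‖ₑ ≤ ENNReal.ofReal (K / (η / 2)) +
              R₂.indicator (fun z => ENNReal.ofReal (K / τ) * ‖Ω z‖ₑ) z := by
            by_cases htop : η / 2 ≤ z.im
            · have h1 : ‖Ω z‖ₑ ≤ 1 := by
                rw [enΩ]
                rw [ENNReal.ofReal_le_one]
                apply Real.exp_le_one_iff.mpr
                exact mul_nonpos_of_nonneg_of_nonpos (Nat.cast_nonneg N)
                  (ψ_top z hy1 hy2 htop)
              have h2 : |b' z.im| ≤ K / (η / 2) := by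
                have := hb'R z.im htop
                have e : η - η / 2 = η / 2 := by ring
                rwa [e] at this
              calc ENNReal.ofReal |b' z.im| * ‖Ω z‖ₑ ≤ ENNReal.ofReal (K / (η / 2)) * 1 := by
                    gcongr
                _ = ENNReal.ofReal (K / (η / 2)) := mul_one _
                _ ≤ _ := le_self_add
            · have htop := not_le.mp htop
              by_cases hmid : 2 * τ ≤ z.im
              · have : b' z.im = 0 := hb'0 _ hmid htop.le
                simp [this]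
              · have hmid := not_le.mp hmid
                by_cases hlow : τ ≤ z.im
                · have hzR₂ : z ∈ R₂ := ⟨⟨hx1, hx2⟩, ⟨hlow, hmid.le⟩⟩
                  rw [indicator_of_mem hzR₂]
                  have h2 : |b' z.im| ≤ K / τ := by
                    have := hb'L z.im hmid.le
                    have e : 2 * τ - τ = τ := by ring
                    rwa [e] at this
                  refine le_trans ?_ le_add_self
                  gcongr
                · have : b' z.im = 0 := (hbL _ (not_le.mp hlow).le).2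
                  simp [this]
          rw [indicator_of_mem hzR₁]
          calc ‖qχ z‖ₑ * ((‖F₁ z‖ₑ + ‖F₂ z‖ₑ) * ‖Ω z‖ₑ)
              = f z * (‖qχ z‖ₑ * ‖Ω z‖ₑ) := by simp only [hf]; ring
            _ ≤ f z * ((ENNReal.ofReal |a' z.re| + ENNReal.ofReal |b' z.im|) * ‖Ω z‖ₑ) := by
                gcongr
            _ = f z * (ENNReal.ofReal |a' z.re| * ‖Ω z‖ₑ + ENNReal.ofReal |b' z.im| * ‖Ω z‖ₑ) := by
                ring
            _ ≤ f z * (ENNReal.ofReal (K / (r / 2)) + (ENNReal.ofReal (K / (η / 2)) +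
                  R₂.indicator (fun z => ENNReal.ofReal (K / τ) * ‖Ω z‖ₑ) z)) := by
                gcongr
            _ = ENNReal.ofReal CS * f z + f z *
                  R₂.indicator (fun z => ENNReal.ofReal (K / τ) * ‖Ω z‖ₑ) z := by
                rw [hCS, ENNReal.ofReal_add (by positivity) (by positivity)]
                ring
            _ = _ := by
                congr 1
                by_cases hz2 : z ∈ R₂
                · rw [indicator_of_mem hz2, indicator_of_mem hz2]
                  ring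
                · rw [indicator_of_notMem hz2, indicator_of_notMem hz2, mul_zero]
      -- integrate
      have sectl : ∀ (s t : Set ℝ), MeasurableSet s → MeasurableSet t → ∀ (G : ℂ → ℝ≥0∞),
          ∀ B : ℝ≥0∞, (∀ y ∈ t, ∫⁻ x in s, G (x + y * I) ≤ B) →
          ∫⁻ z, ({z : ℂ | z.re ∈ s ∧ z.im ∈ t}).indicator G z ≤ volume t * B := by
        intro s t hs ht G B hB
        refine (lintegral_complex_le _).trans ?_
        calc ∫⁻ y : ℝ, ∫⁻ x : ℝ, ({z : ℂ | z.re ∈ s ∧ z.im ∈ t}).indicator G (x + y * I)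
            ≤ ∫⁻ y : ℝ, t.indicator (fun _ => B) y := by
              refine lintegral_mono fun y => ?_
              by_cases hy : y ∈ t
              · rw [indicator_of_mem hy]
                refine le_trans (le_of_eq ?_) (hB y hy)
                rw [← lintegral_indicator hs]
                refine lintegral_congr fun x => ?_
                by_cases hx : x ∈ s
                · rw [indicator_of_mem hx, indicator_of_mem]
                  exact ⟨by simpa using hx, by simpa using hy⟩
                · rw [indicator_of_notMem hx, indicator_of_notMem]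
                  intro h
                  exact hx (by simpa using h.1)
              · rw [indicator_of_notMem hy]
                have : ∀ x : ℝ, ({z : ℂ | z.re ∈ s ∧ z.im ∈ t}).indicator G (x + y * I) = 0 := by
                  intro x
                  rw [indicator_of_notMem]
                  intro h
                  exact hy (by simpa using h.2)
                simp only [this, lintegral_zero]
                exact le_refl _
          _ = volume t * B := by
              rw [lintegral_indicator ht, setLIntegral_const, mul_comm]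
      have I₁ : ∫⁻ z, R₁.indicator (fun z => ENNReal.ofReal CS * f z) z ≤
          ENNReal.ofReal CS * (ENNReal.ofReal η * (M + ENNReal.ofReal (b₀ - a₀))) := by
        have := sectl (Icc a₀ b₀) (Ioc 0 η) measurableSet_Icc measurableSet_Ioc
          (fun z => ENNReal.ofReal CS * f z) (ENNReal.ofReal CS * (M + ENNReal.ofReal (b₀ - a₀)))
          (by
            intro y hy
            rw [lintegral_const_mul' _ _ ENNReal.ofReal_ne_top]
            gcongr
            calc ∫⁻ x in Icc a₀ b₀, f (x + y * I) ≤ ∫⁻ x in Icc a₀ b₀, ((f (x + y * I)) ^ 2 + 1) := by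
                  refine lintegral_mono fun x => ?_
                  have := ennreal_mul_le_sq_add_sq (f (x + y * I)) 1
                  simpa using this
              _ = (∫⁻ x in Icc a₀ b₀, (f (x + y * I)) ^ 2) + ENNReal.ofReal (b₀ - a₀) := by
                  rw [lintegral_add_right _ measurable_const]
                  simp
              _ ≤ M + ENNReal.ofReal (b₀ - a₀) := by
                  gcongr
                  refine hL2' y hy.1 ?_
                  have h1 : η < r := by rw [hη]; linarith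
                  linarith [hy.2])
        refine this.trans (le_of_eq ?_)
        rw [Real.volume_Ioc, sub_zero]
        ring
      have I₂ : ∫⁻ z, R₂.indicator (fun z => ENNReal.ofReal (K / τ) * (f z * ‖Ω z‖ₑ)) z ≤
          ENNReal.ofReal K * Mb := by
        have := sectl (Icc a₀ b₀) (Icc τ (2 * τ)) measurableSet_Icc measurableSet_Icc
          (fun z => ENNReal.ofReal (K / τ) * (f z * ‖Ω z‖ₑ)) (ENNReal.ofReal (K / τ) * Mb)
          (by
            intro y hy
            rw [lintegral_const_mul' _ _ ENNReal.ofReal_ne_top]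
            gcongr
            exact hτbot y hy.1 hy.2)
        refine this.trans (le_of_eq ?_)
        rw [Real.volume_Icc, ← mul_assoc, ← ENNReal.ofReal_mul (by linarith)]
        congr 2
        field_simp
        ring
      have mR₁ : Measurable (R₁.indicator (fun z => ENNReal.ofReal CS * f z)) := by
        classical
        have hR₁m : MeasurableSet R₁ :=
          (Complex.measurable_re measurableSet_Icc).inter (Complex.measurable_im measurableSet_Ioc)
        have hU : MeasurableSet {z : ℂ | 0 < z.im} := hopen.measurableSet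
        have : R₁.indicator (fun z => ENNReal.ofReal CS * f z) =
            R₁.indicator (fun z => ENNReal.ofReal CS *
              ({z : ℂ | 0 < z.im}.piecewise f (fun _ => 0)) z) := by
          ext z
          by_cases hz : z ∈ R₁
          · rw [indicator_of_mem hz, indicator_of_mem hz, piecewise_eq_of_mem]
            exact hz.2.1
          · rw [indicator_of_notMem hz, indicator_of_notMem hz]
        rw [this]
        refine Measurable.indicator ?_ hR₁m
        refine Measurable.const_mul ?_ _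
        refine ContinuousOn.measurable_piecewise ?_ continuousOn_const hU
        exact cF₁.enorm.add cF₂.enorm
      calc ∫⁻ z, ‖qχ z‖ₑ * ((‖F₁ z‖ₑ + ‖F₂ z‖ₑ) * ‖Ω z‖ₑ)
          ≤ ∫⁻ z, (R₁.indicator (fun z => ENNReal.ofReal CS * f z) z +
            R₂.indicator (fun z => ENNReal.ofReal (K / τ) * (f z * ‖Ω z‖ₑ)) z) :=
            lintegral_mono pt
        _ = (∫⁻ z, R₁.indicator (fun z => ENNReal.ofReal CS * f z) z) +
            ∫⁻ z, R₂.indicator (fun z => ENNReal.ofReal (K / τ) * (f z * ‖Ω z‖ₑ)) z :=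
            lintegral_add_left mR₁ _
        _ ≤ MY := by
            rw [hMY]
            exact add_le_add I₁ I₂
    calc ENNReal.ofReal (Real.exp (N / 2)) * ∫⁻ z in Metric.ball z₁ ρ, f z
        ≤ _ := lower
      _ ≤ _ := hw
      _ ≤ ENNReal.ofReal (16 * r) * MY := by gcongr
  have hzero : ∫⁻ z in Metric.ball z₁ ρ, f z = 0 :=
    eq_zero_of_exp_mul_le (ENNReal.mul_ne_top ENNReal.ofReal_ne_top hMYfin) main
  have hballU : Metric.ball z₁ ρ ⊆ {z : ℂ | 0 < z.im} := by
    intro z hz
    have := (hρ z hz).1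
    show 0 < z.im
    linarith
  have concl : ∀ F : ℂ → ℂ, ContinuousOn F {z : ℂ | 0 < z.im} → (∀ z, ‖F z‖ₑ ≤ f z) →
      ∀ z ∈ Metric.ball z₁ ρ, F z = 0 := by
    intro F cF hF
    have h1 : ∫⁻ z in Metric.ball z₁ ρ, ‖F z‖ₑ = 0 :=
      le_antisymm ((lintegral_mono hF).trans (le_of_eq hzero)) bot_le
    have h2 : AEMeasurable (fun z => ‖F z‖ₑ) (volume.restrict (Metric.ball z₁ ρ)) :=
      ((cF.mono hballU).aemeasurable Metric.isOpen_ball.measurableSet).enorm
    rw [lintegral_eq_zero_iff' h2] at h1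
    have h3 : F =ᵐ[volume.restrict (Metric.ball z₁ ρ)] fun _ => 0 := by
      filter_upwards [h1] with z hz
      simpa using hz
    have := Measure.eqOn_open_of_ae_eq h3 Metric.isOpen_ball (cF.mono hballU) continuousOn_const
    intro z hz
    exact this hz
  intro z hz
  exact ⟨concl F₁ cF₁ (fun z => le_self_add) z hz, concl F₂ cF₂ (fun z => le_add_self) z hz⟩

end Pool.Agent.Lib.MP_0e9c6a_an
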