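import Pool.Agent.Lib.MP_0e9c6a_an.Gee
import Pool.Agent.Lib.MP_0e9c6a_an.ThmA

set_option autoImplicit false

open MeasureTheory Complex Set Filter Topology
open scoped Real ENNReal

namespace Pool.Agent.Lib.MP_0e9c6a_an

lemma conj_pt (x y : ℝ) : starRingEnd ℂ ((x:ℂ) + y * I) = (x:ℂ) - y * I := by
  simp
  ring

/-! ### The weight -/

lemma indicator_cau_real (E : Set ℝ) (z : ℂ) :
    cau (E.indicator (fun _ => (1:ℂ))) (starRingEnd ℂ z) =
      starRingEnd ℂ (cau (E.indicator (fun _ => (1:ℂ))) z) := by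
  rw [cau_conj]
  congr 2
  ext t
  by_cases h : t ∈ E
  · simp [indicator_of_mem h]
  · simp [indicator_of_notMem h]

lemma re_div_pi_I (w : ℂ) : (w / (π * I)).re = w.im / π := by
  have hπ : (π:ℂ) ≠ 0 := by exact_mod_cast Real.pi_ne_zero
  have : w / (π * I) = ((w.im / π : ℝ) : ℂ) + ((-(w.re / π) : ℝ) : ℂ) * I := by
    conv_lhs => rw [← Complex.re_add_im w]
    push_cast
    have hI : (I:ℂ) ≠ 0 := Complex.I_ne_zero
    field_simp
    ring_nf
    simp only [Complex.I_sq]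
    ring
  rw [this]
  simp

/-- existence of the weight function for a bounded set of positive measure -/
lemma exists_weight {E : Set ℝ} (hE : MeasurableSet E) (hfin : volume E ≠ ⊤) :
    ∃ A A' : ℂ → ℂ, (∀ z : ℂ, 0 < z.im → HasDerivAt A (A' z) z) ∧
      ContinuousOn A' {z : ℂ | 0 < z.im} ∧ (∀ z : ℂ, 0 < z.im → (A z).re ≤ 1) ∧
      (∀ᵐ x : ℝ, x ∉ E → Tendsto (fun y : ℝ => (A (x + y * I)).re) (𝓝[>] 0) (𝓝 0)) ∧
      (∀ᵐ x : ℝ, x ∈ E → Tendsto (fun y : ℝ => (A (x + y * I)).re) (𝓝[>] 0) (𝓝 1)) := by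
  have hopen : IsOpen {z : ℂ | 0 < z.im} := isOpen_lt continuous_const Complex.continuous_im
  set χ : ℝ → ℂ := E.indicator (fun _ => (1:ℂ)) with hχ
  have hL : MemLp χ 2 := memLp_indicator_const 2 hE (1:ℂ) (Or.inr hfin)
  set A : ℂ → ℂ := fun z => cau χ z / (π * I) with hA
  have hd : ∀ z : ℂ, 0 < z.im → DifferentiableAt ℂ A z := by
    intro z hz
    exact ((hasDerivAt_cau hL hz.ne').2.differentiableAt).div_const _
  have hdo : DifferentiableOn ℂ A {z : ℂ | 0 < z.im} := fun z hz =>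
    (hd z hz).differentiableWithinAt
  have hre : ∀ z : ℂ, (A z).re = (cau χ z).im / π := fun z => re_div_pi_I _
  have hjump := ae_tendsto_jump hL
  have hjre : ∀ x y : ℝ, (A (x + y * I)).re =
      ((cau χ (x + y * I) - cau χ (x - y * I)) / (2 * π * I)).re := by
    intro x y
    have h1 : cau χ (x - y * I) = starRingEnd ℂ (cau χ (x + y * I)) := by
      rw [← conj_pt, hχ, indicator_cau_real]
    rw [h1]
    have h2 : cau χ (x + y * I) - starRingEnd ℂ (cau χ (x + y * I)) =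
        2 * I * ((cau χ (x + y * I)).im : ℂ) := by
      rw [Complex.sub_conj]
      push_cast
      ring
    rw [h2, hre]
    have hπ : (π:ℂ) ≠ 0 := by exact_mod_cast Real.pi_ne_zero
    have hI : (I:ℂ) ≠ 0 := Complex.I_ne_zero
    have h3 : 2 * I * ((cau χ (x + y * I)).im : ℂ) / (2 * π * I) =
        (((cau χ (x + y * I)).im / π : ℝ) : ℂ) := by
      push_cast
      field_simp
    rw [h3, Complex.ofReal_re]
  refine ⟨A, deriv A, fun z hz => (hd z hz).hasDerivAt, (hdo.deriv hopen).continuousOn, ?_, ?_, ?_⟩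
  · intro z hz
    rw [hre]
    have hpos := Real.pi_pos
    rw [div_le_one hpos]
    have hi := integrable_cau hL hz.ne'
    have h1 : (cau χ z).im = ∫ t : ℝ, (χ t / ((t:ℂ) - z)).im := by
      have := integral_im hi
      exact this.symm
    rw [h1, ← poisson_integral z.re hz]
    refine integral_mono hi.im (poisson_integrable z.re hz) fun t => ?_
    simp only
    have hpos2 : 0 < (t - z.re) ^ 2 + z.im ^ 2 := by positivity
    by_cases ht : t ∈ E
    · simp only [hχ, indicator_of_mem ht]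
      have hns : Complex.normSq ((t:ℂ) - z) = (t - z.re) ^ 2 + z.im ^ 2 := by
        rw [Complex.normSq_eq_norm_sq, norm_sub_sq]
      refine le_of_eq ?_
      show ((1:ℂ) / ((t:ℂ) - z)).im = _
      rw [one_div, Complex.inv_im, hns]
      simp
    · simp only [hχ, indicator_of_notMem ht, zero_div]
      show (0:ℂ).im ≤ _
      simp only [Complex.zero_im]
      positivity
  · filter_upwards [hjump] with x hx hxE
    have h1 := (Complex.continuous_re.tendsto _).comp hx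
    simp only [hχ, indicator_of_notMem hxE, Complex.zero_re] at h1
    exact h1.congr fun y => (hjre x y).symm
  · filter_upwards [hjump] with x hx hxE
    have h1 := (Complex.continuous_re.tendsto _).comp hx
    simp only [hχ, indicator_of_mem hxE, Complex.one_re] at h1
    exact h1.congr fun y => (hjre x y).symm

/-! ### The pair `(F₁, F₂)` -/

section Pair

variable (c : ℂ) (ε : ℝ) (f : ℝ → ℂ)

noncomputable def Wf (w : ℂ) : ℂ := cexp (ε * w) * cau f w
noncomputable def Gh (z : ℂ) : ℂ :=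
  (1 / (2 * π * I)) * (Wf ε (gee ε f) z - Wf ε (gee ε f) (starRingEnd ℂ z))
noncomputable def Phi (z : ℂ) : ℂ := Wf ε f z - c * Gh ε f z + (c / π) * ((z.im : ℂ) * Wf ε f z)
noncomputable def Psi (z : ℂ) : ℂ :=
  Wf ε f (starRingEnd ℂ z) - c * Gh ε f z + (c / π) * ((z.im : ℂ) * Wf ε f (starRingEnd ℂ z))

variable {c ε f}

lemma isOpen_im_ne : IsOpen {z : ℂ | z.im ≠ 0} :=
  isOpen_ne_fun Complex.continuous_im continuous_const

lemma hasDerivAt_Wf (hf : MemLp f 2) {z : ℂ} (hz : z.im ≠ 0) :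
    HasDerivAt (Wf ε f) (cexp (ε * z) * (ε * cau f z + ∫ t : ℝ, f t / ((t : ℂ) - z) ^ 2)) z := by
  have e1 : HasDerivAt (fun w : ℂ => cexp (ε * w)) (cexp (ε * z) * (ε * 1)) z :=
    ((hasDerivAt_id z).const_mul (ε:ℂ)).cexp
  have := e1.mul (hasDerivAt_cau hf hz).2
  convert! this using 1
  ring

lemma differentiableOn_Wf (hf : MemLp f 2) : DifferentiableOn ℂ (Wf ε f) {z : ℂ | z.im ≠ 0} :=
  fun z hz => (hasDerivAt_Wf (ε := ε) hf hz).differentiableAt.differentiableWithinAt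

lemma continuousOn_Wf (hf : MemLp f 2) : ContinuousOn (Wf ε f) {z : ℂ | z.im ≠ 0} :=
  (differentiableOn_Wf hf).continuousOn

lemma continuousOn_deriv_Wf (hf : MemLp f 2) :
    ContinuousOn (deriv (Wf ε f)) {z : ℂ | z.im ≠ 0} :=
  ((differentiableOn_Wf hf).deriv isOpen_im_ne).continuousOn

lemma hasDerivAt_Wf_gee (hε : 0 < ε) (hf : MemLp f 2) {z : ℂ} (hz : z.im ≠ 0) :
    HasDerivAt (Wf ε (gee ε f)) (Wf ε f z) z := by
  have := hasDerivAt_Wf (ε := ε) (memLp_gee hε hf) hz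
  convert this using 1
  rw [Wf, ← gee_identity hε hf hz]
  ring

lemma conj_im_ne {z : ℂ} (hz : 0 < z.im) : (starRingEnd ℂ z).im ≠ 0 := by
  simp only [Complex.conj_im, ne_eq, neg_eq_zero]
  exact hz.ne'

lemma hasDbar_Gh (hε : 0 < ε) (hf : MemLp f 2) {z : ℂ} (hz : 0 < z.im) :
    HasDbar (Gh ε f) ((1 / (2 * π * I)) * Wf ε f z)
      (-((1 / (2 * π * I)) * Wf ε f (starRingEnd ℂ z))) z := by
  have h1 := hasDbar_of_hasDerivAt (hasDerivAt_Wf_gee hε hf hz.ne')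
  have h2 := hasDbar_of_hasDerivAt_conj (hasDerivAt_Wf_gee hε hf (conj_im_ne hz))
  have := (h1.sub h2).const_mul (1 / (2 * π * I))
  convert! this using 1
  · ring
  · ring

lemma hasDbar_Phi (hε : 0 < ε) (hf : MemLp f 2) {z : ℂ} (hz : 0 < z.im) :
    HasDbar (Phi c ε f) (deriv (Wf ε f) z - c * ((1 / (2 * π * I)) * Wf ε f z) +
      (c / π) * (-(I / 2) * Wf ε f z + (z.im : ℂ) * deriv (Wf ε f) z))
      (-(c / (2 * π * I)) * (Wf ε f z - Wf ε f (starRingEnd ℂ z))) z := by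
  have hU : HasDbar (Wf ε f) (deriv (Wf ε f) z) 0 z :=
    hasDbar_of_hasDerivAt ((hasDerivAt_Wf (ε := ε) hf hz.ne').differentiableAt.hasDerivAt)
  have hG := (hasDbar_Gh hε hf hz).const_mul c
  have hy := ((hasDbar_im z).mul hU).const_mul (c / π)
  have := (hU.sub hG).add hy
  convert! this using 1
  have hπ : (π:ℂ) ≠ 0 := by exact_mod_cast Real.pi_ne_zero
  have hI : (I:ℂ) ≠ 0 := Complex.I_ne_zero
  field_simp
  ring_nf
  simp only [Complex.I_sq]
  ring

lemma hasDbar_Psi (hε : 0 < ε) (hf : MemLp f 2) {z : ℂ} (hz : 0 < z.im) :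
    HasDbar (Psi c ε f) (-(c / (2 * π * I)) * (Wf ε f z - Wf ε f (starRingEnd ℂ z)))
      (deriv (Wf ε f) (starRingEnd ℂ z) + c * ((1 / (2 * π * I)) * Wf ε f (starRingEnd ℂ z)) +
      (c / π) * ((I / 2) * Wf ε f (starRingEnd ℂ z) + (z.im : ℂ) *
        deriv (Wf ε f) (starRingEnd ℂ z))) z := by
  have hV : HasDbar (fun w => Wf ε f (starRingEnd ℂ w)) 0 (deriv (Wf ε f) (starRingEnd ℂ z)) z :=
    hasDbar_of_hasDerivAt_conj
      ((hasDerivAt_Wf (ε := ε) hf (conj_im_ne hz)).differentiableAt.hasDerivAt)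
  have hG := (hasDbar_Gh hε hf hz).const_mul c
  have hy := ((hasDbar_im z).mul hV).const_mul (c / π)
  have := (hV.sub hG).add hy
  convert! this using 1
  · have hπ : (π:ℂ) ≠ 0 := by exact_mod_cast Real.pi_ne_zero
    have hI : (I:ℂ) ≠ 0 := Complex.I_ne_zero
    field_simp
    ring_nf
    simp only [Complex.I_sq]
    ring
  · ring

lemma Phi_sub_Psi (z : ℂ) : Phi c ε f z - Psi c ε f z =
    (1 + (c / π) * z.im) * (Wf ε f z - Wf ε f (starRingEnd ℂ z)) := by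
  simp only [Phi, Psi]
  ring

lemma norm_one_add_ge {y : ℝ} (hy : 0 ≤ y) (h : ‖c‖ / π * y ≤ 1 / 2) :
    1 / 2 ≤ ‖1 + (c / π) * (y:ℂ)‖ := by
  have h1 : ‖(c / π) * (y:ℂ)‖ ≤ 1 / 2 := by
    rw [norm_mul, norm_div, Complex.norm_real, Complex.norm_real,
      Real.norm_of_nonneg Real.pi_pos.le, Real.norm_of_nonneg hy]
    exact h
  have h2 : ‖(1:ℂ)‖ - ‖-((c / π) * (y:ℂ))‖ ≤ ‖(1:ℂ) - -((c / π) * (y:ℂ))‖ := norm_sub_norm_le _ _
  rw [norm_one, norm_neg, sub_neg_eq_add] at h2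
  linarith

lemma diff_bound {z : ℂ} (hz : 0 < z.im) (h : ‖c‖ / π * z.im ≤ 1 / 2) :
    ‖Wf ε f z - Wf ε f (starRingEnd ℂ z)‖ ≤ 2 * (‖Phi c ε f z‖ + ‖Psi c ε f z‖) := by
  have h1 := norm_one_add_ge hz.le h
  have h2 : ‖Phi c ε f z - Psi c ε f z‖ = ‖1 + (c / π) * (z.im : ℂ)‖ *
      ‖Wf ε f z - Wf ε f (starRingEnd ℂ z)‖ := by
    rw [Phi_sub_Psi, norm_mul]
  have h3 : ‖Phi c ε f z - Psi c ε f z‖ ≤ ‖Phi c ε f z‖ + ‖Psi c ε f z‖ := norm_sub_le _ _
  nlinarith [norm_nonneg (Wf ε f z - Wf ε f (starRingEnd ℂ z))]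

/-! ### boundary behaviour -/

lemma tendsto_exp_line (x σ : ℝ) :
    Tendsto (fun y : ℝ => cexp (ε * (x + σ * y * I))) (𝓝[>] 0) (𝓝 (cexp (ε * x))) := by
  have : Tendsto (fun y : ℝ => cexp (ε * (x + σ * y * I))) (𝓝 0)
      (𝓝 (cexp (ε * (x + σ * (0:ℝ) * I)))) := by
    apply Continuous.tendsto
    fun_prop
  simp only [Complex.ofReal_zero, mul_zero, zero_mul, add_zero] at this
  exact this.mono_left nhdsWithin_le_nhds

/-- The error term `(e^{ε z} - e^{ε x}) cau g(z) → 0`. -/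
lemma tendsto_err {g : ℝ → ℂ} (hg : MemLp g 2) (x : ℝ) {σ : ℝ} (hσ : σ = 1 ∨ σ = -1) :
    Tendsto (fun y : ℝ => (cexp (ε * (x + σ * y * I)) - cexp (ε * x)) * cau g (x + σ * y * I))
      (𝓝[>] 0) (𝓝 0) := by
  obtain ⟨C, hC0, hC⟩ := exists_norm_cau_le hg
  -- difference quotient is bounded
  have hder : HasDerivAt (fun y : ℝ => cexp (ε * (x + σ * y * I))) (cexp (ε * (x + σ * (0:ℝ) * I)) *
      (ε * (σ * 1 * I))) 0 := by
    have e0 : HasDerivAt (fun y : ℝ => (y:ℂ)) 1 0 := Complex.ofRealCLM.hasDerivAt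
    have e1 : HasDerivAt (fun y : ℝ => (ε:ℂ) * (x + σ * y * I)) (ε * (σ * 1 * I)) 0 :=
      (((e0.const_mul (σ:ℂ)).mul_const I).const_add (x:ℂ)).const_mul (ε:ℂ)
    exact e1.cexp
  have hO := hder.isBigO_sub
  simp only [Complex.ofReal_zero, mul_zero, zero_mul, add_zero, sub_zero] at hO
  obtain ⟨K, hK⟩ := hO.bound
  have hK' : ∀ᶠ y : ℝ in 𝓝[>] 0, ‖cexp (ε * (x + σ * y * I)) - cexp (ε * x)‖ ≤ |K| * y := by
    filter_upwards [nhdsWithin_le_nhds hK, self_mem_nhdsWithin] with y hy hy0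
    have hy0 : 0 < y := hy0
    refine hy.trans ?_
    rw [Real.norm_of_nonneg hy0.le]
    exact mul_le_mul_of_nonneg_right (le_abs_self K) hy0.le
  have hlim : Tendsto (fun y : ℝ => √(|K| ^ 2 * C * y)) (𝓝[>] 0) (𝓝 0) := by
    have : Tendsto (fun y : ℝ => √(|K| ^ 2 * C * y)) (𝓝 0) (𝓝 (√(|K| ^ 2 * C * 0))) := by
      apply Continuous.tendsto
      fun_prop
    rw [mul_zero, Real.sqrt_zero] at this
    exact this.mono_left nhdsWithin_le_nhds
  refine squeeze_zero_norm' ?_ hlim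
  filter_upwards [hK', self_mem_nhdsWithin] with y hy hy0
  have hy0 : 0 < y := hy0
  have him : ((x:ℂ) + σ * y * I).im = σ * y := by simp
  have him0 : ((x:ℂ) + σ * y * I).im ≠ 0 := by
    rw [him]
    have : σ ≠ 0 := by rcases hσ with h | h <;> rw [h] <;> norm_num
    exact mul_ne_zero this hy0.ne'
  have habs : |((x:ℂ) + σ * y * I).im| = y := by
    rw [him, abs_mul, abs_of_pos hy0]
    have : |σ| = 1 := by rcases hσ with h | h <;> rw [h] <;> norm_num
    rw [this, one_mul]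
  have h2 := hC _ him0
  rw [habs] at h2
  apply Real.le_sqrt_of_sq_le
  rw [norm_mul, mul_pow]
  calc ‖cexp (ε * (x + σ * y * I)) - cexp (ε * x)‖ ^ 2 * ‖cau g (x + σ * y * I)‖ ^ 2
      ≤ (|K| * y) ^ 2 * (C / y) := by gcongr
    _ = |K| ^ 2 * C * y := by field_simp

lemma ae_tendsto_Gh (hε : 0 < ε) (hf : MemLp f 2) :
    ∀ᵐ x : ℝ, Tendsto (fun y : ℝ => Gh ε f (x + y * I)) (𝓝[>] 0)
      (𝓝 (cexp (ε * x) * gee ε f x)) := by
  have hg := memLp_gee hε hf
  filter_upwards [ae_tendsto_jump hg] with x hx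
  have t1 := hx.const_mul (cexp (ε * x))
  have t2 := (tendsto_err (ε := ε) hg x (σ := 1) (Or.inl rfl)).const_mul (1 / (2 * π * I))
  have t3 := (tendsto_err (ε := ε) hg x (σ := -1) (Or.inr rfl)).const_mul (1 / (2 * π * I))
  have t4 := (t1.add t2).sub t3
  simp only [mul_zero, add_zero, sub_zero] at t4
  refine t4.congr fun y => ?_
  simp only [Gh, Wf, conj_pt]
  have e1 : (x:ℂ) + ((1:ℝ):ℂ) * y * I = x + y * I := by push_cast; ring
  have e2 : (x:ℂ) + ((-1:ℝ):ℂ) * y * I = x - y * I := by push_cast; ring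
  rw [e1, e2]
  ring

lemma ae_tendsto_pair (hε : 0 < ε) (hf : MemLp f 2) {E : Set ℝ}
    (h0 : ∀ᵐ x : ℝ, x ∈ E → f x = 0)
    (hH : ∀ᵐ x : ℝ, x ∈ E → Tendsto (fun δ : ℝ =>
      (∫ τ in {τ : ℝ | δ < |x - τ|}, f τ / ((x - τ : ℝ) : ℂ)) + c * gee ε f x) (𝓝[>] 0) (𝓝 0)) :
    ∀ᵐ x : ℝ, x ∈ E → Tendsto (fun y : ℝ => Phi c ε f (x + y * I)) (𝓝[>] 0) (𝓝 0) ∧
      Tendsto (fun y : ℝ => Psi c ε f (x + y * I)) (𝓝[>] 0) (𝓝 0) := by
  filter_upwards [h0, hH, ae_tendsto_hilbert hf, ae_tendsto_Gh hε hf] with x h0x hHx hhx hGx hxE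
  have hfx := h0x hxE
  have hHx := hHx hxE
  -- Cauchy integral limits
  have lim : ∀ σ : ℝ, (σ = 1 ∨ σ = -1) →
      Tendsto (fun y : ℝ => cau f (x + σ * y * I)) (𝓝[>] 0) (𝓝 (c * gee ε f x)) := by
    intro σ hσ
    have := ((hhx hfx σ hσ).sub hHx).add_const (c * gee ε f x)
    simp only [sub_zero, zero_add] at this
    refine this.congr fun y => ?_
    ring
  have lW : ∀ σ : ℝ, (σ = 1 ∨ σ = -1) →
      Tendsto (fun y : ℝ => Wf ε f (x + σ * y * I)) (𝓝[>] 0)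
        (𝓝 (cexp (ε * x) * (c * gee ε f x))) := by
    intro σ hσ
    exact (tendsto_exp_line x σ).mul (lim σ hσ)
  have lW1 : Tendsto (fun y : ℝ => Wf ε f (x + y * I)) (𝓝[>] 0)
      (𝓝 (cexp (ε * x) * (c * gee ε f x))) := by
    refine (lW 1 (Or.inl rfl)).congr fun y => ?_
    congr 1
    push_cast
    ring
  have lW2 : Tendsto (fun y : ℝ => Wf ε f (x - y * I)) (𝓝[>] 0)
      (𝓝 (cexp (ε * x) * (c * gee ε f x))) := by
    refine (lW (-1) (Or.inr rfl)).congr fun y => ?_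
    congr 1
    push_cast
    ring
  have ly : Tendsto (fun y : ℝ => (((x:ℂ) + y * I).im : ℂ)) (𝓝[>] 0) (𝓝 0) := by
    have : Tendsto (fun y : ℝ => (y : ℂ)) (𝓝 0) (𝓝 ((0:ℝ):ℂ)) := by
      apply Continuous.tendsto
      fun_prop
    rw [Complex.ofReal_zero] at this
    refine (this.mono_left nhdsWithin_le_nhds).congr fun y => ?_
    simp
  constructor
  · have := (lW1.sub (hGx.const_mul c)).add ((ly.mul lW1).const_mul (c / π))
    refine (this.congr fun y => ?_).trans (le_of_eq ?_)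
    · simp only [Phi]
    · congr 1
      ring
  · have := (lW2.sub (hGx.const_mul c)).add ((ly.mul lW2).const_mul (c / π))
    refine (this.congr fun y => ?_).trans (le_of_eq ?_)
    · simp only [Psi, conj_pt]
    · congr 1
      ring

end Pair

end Pool.Agent.Lib.MP_0e9c6a_an
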