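import Pool.Agent.Lib.MP_0e9c6a_an.Dbar

set_option autoImplicit false

open MeasureTheory Complex Set Filter Topology
open scoped Real ENNReal

namespace Pool.Agent.Lib.MP_0e9c6a_an

lemma dlin_injective {p q p' q' : ℂ} (h : dlin p q = dlin p' q') : p = p' ∧ q = q' := by
  have h1 : dlin p q 1 = dlin p' q' 1 := by rw [h]
  have h2 : dlin p q I = dlin p' q' I := by rw [h]
  simp only [dlin_apply, map_one, mul_one, Complex.conj_I] at h1 h2
  have h3 : (p - q) * I = (p' - q') * I := by linear_combination h2
  have h4 : p - q = p' - q' := mul_right_cancel₀ Complex.I_ne_zero h3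
  constructor
  · linear_combination (h1 + h4) / 2
  · linear_combination (h1 - h4) / 2

lemma HasDbar.unique {h : ℂ → ℂ} {p q p' q' z : ℂ} (H : HasDbar h p q z)
    (K : HasDbar h p' q' z) : p = p' ∧ q = q' :=
  dlin_injective (HasFDerivAt.unique H K)

/-- derivative along a curve -/
lemma HasDbar.comp_curve {h : ℂ → ℂ} {p q : ℂ} {γ : ℝ → ℂ} {γ' : ℂ} {t : ℝ}
    (H : HasDbar h p q (γ t)) (hγ : HasDerivAt γ γ' t) :
    HasDerivAt (fun s => h (γ s)) (p * γ' + q * starRingEnd ℂ γ') t := by
  have := HasFDerivAt.comp_hasDerivAt t H hγ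
  simpa [dlin_apply, Function.comp_def] using this

lemma polar_point (x : ℝ × ℝ) :
    Complex.polarCoord.symm x = x.1 * cexp (x.2 * I) := by
  rw [Complex.polarCoord_symm_apply, Complex.exp_mul_I]
  simp

/-- Cauchy–Pompeiu formula for compactly supported continuously real-differentiable functions. -/
theorem cauchy_pompeiu {h p q : ℂ → ℂ} (H : ∀ z, HasDbar h (p z) (q z) z)
    (hp : Continuous p) (hq : Continuous q) (hc : HasCompactSupport h) (z : ℂ) :
    ∫ w : ℂ, q (z + w) / w = -(π : ℂ) * h z := by
  -- radius outside of which everything vanishes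
  obtain ⟨R, hR0, hR⟩ : ∃ R : ℝ, 0 < R ∧ ∀ w : ℂ, R ≤ ‖w‖ →
      h (z + w) = 0 ∧ p (z + w) = 0 ∧ q (z + w) = 0 := by
    obtain ⟨R0, hR0⟩ := hc.isCompact.isBounded.subset_closedBall z
    refine ⟨max R0 0 + 1, by positivity, fun w hw => ?_⟩
    have hnot : z + w ∉ tsupport h := by
      intro hmem
      have := hR0 hmem
      simp only [Metric.mem_closedBall, dist_self_add_left] at this
      linarith [le_max_left R0 0]
    have hev : h =ᶠ[𝓝 (z + w)] fun _ => 0 := by
      have := (isClosed_tsupport h).isOpen_compl.mem_nhds hnot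
      filter_upwards [this] with y hy
      exact image_eq_zero_of_notMem_tsupport hy
    have hz : HasDbar h 0 0 (z + w) := by
      have h0 : HasFDerivAt (fun _ : ℂ => (0 : ℂ)) (dlin 0 0) (z + w) := hasDbar_const 0 (z + w)
      exact h0.congr_of_eventuallyEq hev
    obtain ⟨h1, h2⟩ := (H (z + w)).unique hz
    exact ⟨hev.eq_of_nhds, h1, h2⟩
  -- the two auxiliary functions
  set E : ℝ × ℝ → ℂ := fun x => z + x.1 * cexp (x.2 * I) with hE
  have hEc : Continuous E := by fun_prop
  set A : ℝ × ℝ → ℂ := fun x => p (E x) * cexp (x.2 * I) + q (E x) * cexp (-(x.2 * I)) with hA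
  set B : ℝ × ℝ → ℂ := fun x => -(p (E x) * cexp (x.2 * I)) + q (E x) * cexp (-(x.2 * I)) with hB
  have hAc : Continuous A := by fun_prop
  have hBc : Continuous B := by fun_prop
  have hvan : ∀ x : ℝ × ℝ, R ≤ x.1 → A x = 0 ∧ B x = 0 := by
    intro x hx
    have : R ≤ ‖(x.1 : ℂ) * cexp (x.2 * I)‖ := by
      rw [norm_mul, Complex.norm_exp_ofReal_mul_I, mul_one, Complex.norm_real, Real.norm_eq_abs]
      exact hx.trans (le_abs_self _)
    obtain ⟨-, h1, h2⟩ := hR _ this
    simp only [hA, hB, hE, h1, h2]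
    simp
  have hint : ∀ G : ℝ × ℝ → ℂ, Continuous G → (∀ x : ℝ × ℝ, R ≤ x.1 → G x = 0) →
      IntegrableOn G (Ioi 0 ×ˢ Ioo (-π) π) (volume.prod volume) := by
    intro G hG hG0
    have h1 : IntegrableOn G (Icc 0 R ×ˢ Icc (-π) π) (volume.prod volume) :=
      hG.continuousOn.integrableOn_compact (isCompact_Icc.prod isCompact_Icc)
    have h2 : IntegrableOn G (Ioi R ×ˢ Icc (-π) π) (volume.prod volume) := by
      refine (integrableOn_zero (μ := volume.prod volume)).congr_fun ?_
        (measurableSet_Ioi.prod measurableSet_Icc)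
      intro x hx
      exact (hG0 x (le_of_lt hx.1)).symm
    refine (h1.union h2).mono_set ?_
    rintro ⟨r, θ⟩ ⟨hr, hθ⟩
    simp only [mem_Ioi] at hr
    by_cases hrR : r ≤ R
    · exact Or.inl ⟨⟨hr.le, hrR⟩, ⟨hθ.1.le, hθ.2.le⟩⟩
    · exact Or.inr ⟨not_le.mp hrR, ⟨hθ.1.le, hθ.2.le⟩⟩
  have hAi := hint A hAc (fun x hx => (hvan x hx).1)
  have hBi := hint B hBc (fun x hx => (hvan x hx).2)
  -- integral of A
  have hIA : ∫ x in Ioi (0:ℝ) ×ˢ Ioo (-π) π, A x ∂(volume.prod volume) = -(2 * π) * h z := by
    rw [← Measure.prod_restrict] at *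
    rw [IntegrableOn, ← Measure.prod_restrict] at hAi
    rw [integral_prod_symm _ hAi]
    have : ∀ θ : ℝ, ∫ r in Ioi (0:ℝ), A (r, θ) = - h z := by
      intro θ
      have hd : ∀ r ∈ Ici (0:ℝ), HasDerivAt (fun s : ℝ => h (E (s, θ))) (A (r, θ)) r := by
        intro r _
        have hγ : HasDerivAt (fun s : ℝ => E (s, θ)) (cexp (θ * I)) r := by
          have h1 : HasDerivAt (fun s : ℝ => (s : ℂ)) 1 r := Complex.ofRealCLM.hasDerivAt
          have := (h1.mul_const (cexp (θ * I))).const_add z
          simpa [hE] using this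
        have := HasDbar.comp_curve (γ := fun s : ℝ => E (s, θ)) (H (E (r, θ))) hγ
        convert! this using 1
        simp only [hA]
        rw [← Complex.exp_conj]
        simp
      have hii : IntegrableOn (fun r : ℝ => A (r, θ)) (Ioi 0) := by
        have h1 : IntegrableOn (fun r : ℝ => A (r, θ)) (Icc 0 R) :=
          (hAc.comp (by fun_prop : Continuous fun r : ℝ => (r, θ))).continuousOn.integrableOn_compact
            isCompact_Icc
        have h2 : IntegrableOn (fun r : ℝ => A (r, θ)) (Ioi R) := by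
          refine (integrableOn_zero).congr_fun ?_ measurableSet_Ioi
          intro r hr
          exact ((hvan (r, θ) (le_of_lt hr)).1).symm
        refine (h1.union h2).mono_set ?_
        intro r hr
        by_cases hrR : r ≤ R
        · exact Or.inl ⟨le_of_lt hr, hrR⟩
        · exact Or.inr (not_le.mp hrR)
      have hlim : Tendsto (fun s : ℝ => h (E (s, θ))) atTop (𝓝 0) := by
        refine tendsto_const_nhds.congr' ?_
        filter_upwards [eventually_ge_atTop R] with s hs
        have : R ≤ ‖(s : ℂ) * cexp (θ * I)‖ := by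
          rw [norm_mul, Complex.norm_exp_ofReal_mul_I, mul_one, Complex.norm_real,
            Real.norm_eq_abs]
          exact hs.trans (le_abs_self _)
        exact ((hR _ this).1).symm
      have := integral_Ioi_of_hasDerivAt_of_tendsto' hd hii hlim
      rw [this]
      simp [hE]
    simp_rw [this]
    rw [setIntegral_const]
    simp only [Measure.real, Real.volume_Ioo]
    rw [ENNReal.toReal_ofReal (by linarith [Real.pi_pos])]
    simp only [real_smul]
    push_cast
    ring
  have hIB : ∫ x in Ioi (0:ℝ) ×ˢ Ioo (-π) π, B x ∂(volume.prod volume) = 0 := by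
    rw [IntegrableOn, ← Measure.prod_restrict] at hBi
    rw [← Measure.prod_restrict, integral_prod _ hBi]
    refine setIntegral_eq_zero_of_forall_eq_zero ?_
    intro r hr
    have hr0 : (r : ℂ) ≠ 0 := by
      exact_mod_cast (ne_of_gt hr)
    have hd : ∀ θ ∈ uIcc (-π) π, HasDerivAt (fun s : ℝ => (I / r) * h (E (r, s))) (B (r, θ)) θ := by
      intro θ _
      have hγ : HasDerivAt (fun s : ℝ => E (r, s)) (r * (cexp (θ * I) * I)) θ := by
        have h1 : HasDerivAt (fun s : ℝ => (s : ℂ) * I) I θ := by
          simpa using (Complex.ofRealCLM.hasDerivAt (x := θ)).mul_const I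
        have := ((h1.cexp).const_mul (r : ℂ)).const_add z
        simpa [hE] using this
      have := (HasDbar.comp_curve (γ := fun s : ℝ => E (r, s)) (H (E (r, θ))) hγ).const_mul (I / r)
      convert! this using 1
      simp only [hB]
      have e1 : starRingEnd ℂ (r * (cexp (θ * I) * I)) = r * (cexp (-(θ * I)) * (-I)) := by
        rw [map_mul, map_mul, ← Complex.exp_conj]
        simp
      rw [e1]
      field_simp
      ring_nf
      simp only [Complex.I_sq]
      ring
    have hii : IntervalIntegrable (fun θ : ℝ => B (r, θ)) volume (-π) π :=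
      (hBc.comp (by fun_prop : Continuous fun θ : ℝ => (r, θ))).intervalIntegrable _ _
    have := intervalIntegral.integral_eq_sub_of_hasDerivAt hd hii
    rw [intervalIntegral.integral_of_le (by linarith [Real.pi_pos]),
      integral_Ioc_eq_integral_Ioo] at this
    rw [this]
    simp only [hE]
    have : cexp ((π : ℝ) * I) = cexp (((-π : ℝ) : ℂ) * I) := by
      push_cast
      rw [Complex.exp_pi_mul_I, neg_mul, Complex.exp_neg, Complex.exp_pi_mul_I]
      norm_num
    rw [this]
    ring
  -- combine
  rw [← Complex.integral_comp_polarCoord_symm]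
  have hconv : ∫ x in polarCoord.target, x.1 • (q (z + Complex.polarCoord.symm x) /
      Complex.polarCoord.symm x) = ∫ x in Ioi (0:ℝ) ×ˢ Ioo (-π) π, (1/2 : ℂ) * (A x + B x)
        ∂(volume.prod volume) := by
    have ht : polarCoord.target = Ioi (0:ℝ) ×ˢ Ioo (-π) π := rfl
    rw [ht, ← Measure.volume_eq_prod]
    refine setIntegral_congr_fun (measurableSet_Ioi.prod measurableSet_Ioo) ?_
    rintro ⟨r, θ⟩ ⟨hr, -⟩
    have hr0 : (r : ℂ) ≠ 0 := by
      exact_mod_cast (ne_of_gt hr)
    simp only [polar_point, real_smul, hA, hB, hE]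
    rw [Complex.exp_neg]
    have he : cexp (θ * I) ≠ 0 := Complex.exp_ne_zero _
    field_simp
    ring
  rw [hconv, integral_const_mul, integral_add hAi hBi, hIA, hIB]
  ring

end Pool.Agent.Lib.MP_0e9c6a_an
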