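import Pool.Agent.Lib.MP_0e9c6a_an.Cut

set_option autoImplicit false

open MeasureTheory Complex Set Filter Topology
open scoped Real ENNReal

namespace Pool.Agent.Lib.MP_0e9c6a_an

lemma cont_glue {χ G : ℂ → ℂ} {τ : ℝ} (hτ : 0 < τ) (hχ : Continuous χ)
    (hz : ∀ z : ℂ, z.im ≤ τ → χ z = 0) (hG : ContinuousOn G {z : ℂ | 0 < z.im}) :
    Continuous (fun z => χ z * G z) := by
  have hopen : IsOpen {z : ℂ | 0 < z.im} := isOpen_lt continuous_const Complex.continuous_im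
  have hopen' : IsOpen {z : ℂ | z.im < τ} := isOpen_lt Complex.continuous_im continuous_const
  rw [continuous_iff_continuousAt]
  intro z
  by_cases h : 0 < z.im
  · exact hχ.continuousAt.mul (hG.continuousAt (hopen.mem_nhds h))
  · have hzt : z ∈ {z : ℂ | z.im < τ} := by
      show z.im < τ
      linarith
    have h1 : (fun z => χ z * G z) =ᶠ[𝓝 z] fun _ => 0 := by
      filter_upwards [hopen'.mem_nhds hzt] with w hw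
      have hw : w.im < τ := hw
      simp [hz w hw.le]
    exact continuousAt_const.congr h1.symm

lemma absorb_ennreal {X A : ℝ≥0∞} (hX : X ≠ ⊤) (h : X ≤ A + X / 2) : X ≤ 2 * A := by
  have h1 : X / 2 + X / 2 ≤ A + X / 2 := by rwa [ENNReal.add_halves]
  have h2 : X / 2 ≠ ⊤ := by
    intro h3
    have := ENNReal.div_eq_top.mp h3
    rcases this with h | h
    · simp at h
    · exact hX h.1
  have h3 : X / 2 ≤ A := (ENNReal.add_le_add_iff_right h2).mp h1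
  calc X = X / 2 + X / 2 := (ENNReal.add_halves X).symm
    _ ≤ A + A := add_le_add h3 h3
    _ = 2 * A := (two_mul A).symm

/-- The absorbed weighted `L¹` inequality. -/
theorem weighted {F₁ F₂ p₁ q₁ p₂ q₂ Ω Ω' χ pχ qχ : ℂ → ℂ} {x₀ r τ C₀ : ℝ}
    (hr : 0 < r) (hτ : 0 < τ) (hC₀ : 0 ≤ C₀) (hrC : 8 * r * C₀ ≤ 1 / 2)
    (h₁ : ∀ z : ℂ, 0 < z.im → HasDbar F₁ (p₁ z) (q₁ z) z)
    (h₂ : ∀ z : ℂ, 0 < z.im → HasDbar F₂ (p₂ z) (q₂ z) z)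
    (cp₁ : ContinuousOn p₁ {z : ℂ | 0 < z.im}) (cq₁ : ContinuousOn q₁ {z : ℂ | 0 < z.im})
    (cp₂ : ContinuousOn p₂ {z : ℂ | 0 < z.im}) (cq₂ : ContinuousOn q₂ {z : ℂ | 0 < z.im})
    (hΩ : ∀ z : ℂ, 0 < z.im → HasDerivAt Ω (Ω' z) z)
    (cΩ' : ContinuousOn Ω' {z : ℂ | 0 < z.im})
    (hχ : ∀ z, HasDbar χ (pχ z) (qχ z) z) (hpχ : Continuous pχ) (hqχ : Continuous qχ)
    (hz : ∀ z : ℂ, z.im ≤ τ → χ z = 0 ∧ pχ z = 0 ∧ qχ z = 0)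
    (hsupp : ∀ z, z ∉ Metric.closedBall (x₀ : ℂ) (2 * r) → χ z = 0)
    (hq : ∀ z, χ z ≠ 0 → ‖q₁ z‖ + ‖q₂ z‖ ≤ C₀ * (‖F₁ z‖ + ‖F₂ z‖)) :
    ∫⁻ z, ‖χ z‖ₑ * ((‖F₁ z‖ₑ + ‖F₂ z‖ₑ) * ‖Ω z‖ₑ) ≤
      ENNReal.ofReal (16 * r) * ∫⁻ z, ‖qχ z‖ₑ * ((‖F₁ z‖ₑ + ‖F₂ z‖ₑ) * ‖Ω z‖ₑ) := by
  have hopen : IsOpen {z : ℂ | 0 < z.im} := isOpen_lt continuous_const Complex.continuous_im
  have hχc : Continuous χ := continuous_iff_continuousAt.mpr fun z => (hχ z).continuousAt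
  have cF₁ : ContinuousOn F₁ {z : ℂ | 0 < z.im} := fun z hz =>
    (h₁ z hz).continuousAt.continuousWithinAt
  have cF₂ : ContinuousOn F₂ {z : ℂ | 0 < z.im} := fun z hz =>
    (h₂ z hz).continuousAt.continuousWithinAt
  have cΩ : ContinuousOn Ω {z : ℂ | 0 < z.im} := fun z hz =>
    (hΩ z hz).continuousAt.continuousWithinAt
  -- single function statement
  have single : ∀ F p q : ℂ → ℂ, (∀ z : ℂ, 0 < z.im → HasDbar F (p z) (q z) z) →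
      ContinuousOn p {z : ℂ | 0 < z.im} → ContinuousOn q {z : ℂ | 0 < z.im} →
      ContinuousOn F {z : ℂ | 0 < z.im} →
      ∫⁻ z, ‖χ z * (F z * Ω z)‖ₑ ≤ ENNReal.ofReal (8 * r) *
        ((∫⁻ z, ‖qχ z * (F z * Ω z)‖ₑ) + ∫⁻ z, ‖χ z * (q z * Ω z)‖ₑ) := by
    intro F p q hF cp cq cF
    have hG : ∀ z : ℂ, 0 < z.im → HasDbar (fun w => F w * Ω w) (p z * Ω z + F z * Ω' z)
        (q z * Ω z) z := by
      intro z hz
      have := (hF z hz).mul (hasDbar_of_hasDerivAt (hΩ z hz))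
      simpa using this
    obtain ⟨g1, g2, g3⟩ := glue hτ hχ hpχ hqχ hz hG ((cp.mul cΩ).add (cF.mul cΩ')) (cq.mul cΩ)
    have := L1_est g1 g2 g3 (c := (x₀ : ℂ)) (ρ := 2 * r) (by linarith)
      (fun z hz => by simp [hsupp z hz])
    refine this.trans ?_
    have e8 : 4 * (2 * r) = 8 * r := by ring
    rw [e8]
    gcongr
    calc ∫⁻ z, ‖qχ z * (F z * Ω z) + χ z * (q z * Ω z)‖ₑ
        ≤ ∫⁻ z, (‖qχ z * (F z * Ω z)‖ₑ + ‖χ z * (q z * Ω z)‖ₑ) :=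
          lintegral_mono fun z => enorm_add_le _ _
      _ = _ := by
          rw [lintegral_add_left]
          exact (cont_glue hτ hqχ (fun z hz' => (hz z hz').2.2) (cF.mul cΩ)).enorm.measurable
  have s₁ := single F₁ p₁ q₁ h₁ cp₁ cq₁ cF₁
  have s₂ := single F₂ p₂ q₂ h₂ cp₂ cq₂ cF₂
  have cc₁ : Continuous (fun z => χ z * (F₁ z * Ω z)) :=
    cont_glue hτ hχc (fun z hz' => (hz z hz').1) (cF₁.mul cΩ)
  have cc₂ : Continuous (fun z => χ z * (F₂ z * Ω z)) :=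
    cont_glue hτ hχc (fun z hz' => (hz z hz').1) (cF₂.mul cΩ)
  have cd₁ : Continuous (fun z => qχ z * (F₁ z * Ω z)) :=
    cont_glue hτ hqχ (fun z hz' => (hz z hz').2.2) (cF₁.mul cΩ)
  have ce₁ : Continuous (fun z => χ z * (q₁ z * Ω z)) :=
    cont_glue hτ hχc (fun z hz' => (hz z hz').1) (cq₁.mul cΩ)
  have split : ∀ k : ℂ → ℂ, Continuous (fun z => k z * (F₁ z * Ω z)) →
      ∫⁻ z, ‖k z‖ₑ * ((‖F₁ z‖ₑ + ‖F₂ z‖ₑ) * ‖Ω z‖ₑ) =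
      (∫⁻ z, ‖k z * (F₁ z * Ω z)‖ₑ) + ∫⁻ z, ‖k z * (F₂ z * Ω z)‖ₑ := by
    intro k hk
    rw [← lintegral_add_left hk.enorm.measurable]
    congr 1
    ext z
    simp only [enorm_mul]
    ring
  set X := ∫⁻ z, ‖χ z‖ₑ * ((‖F₁ z‖ₑ + ‖F₂ z‖ₑ) * ‖Ω z‖ₑ) with hX
  set Y := ∫⁻ z, ‖qχ z‖ₑ * ((‖F₁ z‖ₑ + ‖F₂ z‖ₑ) * ‖Ω z‖ₑ) with hY
  have hXs : X = (∫⁻ z, ‖χ z * (F₁ z * Ω z)‖ₑ) + ∫⁻ z, ‖χ z * (F₂ z * Ω z)‖ₑ := split χ cc₁
  have hYs : Y = (∫⁻ z, ‖qχ z * (F₁ z * Ω z)‖ₑ) + ∫⁻ z, ‖qχ z * (F₂ z * Ω z)‖ₑ := split qχ cd₁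
  -- finiteness
  have fin : ∀ h : ℂ → ℂ, Continuous h → (∀ z, χ z = 0 → h z = 0) → ∫⁻ z, ‖h z‖ₑ ≠ ⊤ := by
    intro h hh h0
    have hcs : HasCompactSupport h := HasCompactSupport.intro (isCompact_closedBall (x₀:ℂ) (2 * r))
      (fun z hz => h0 z (hsupp z hz))
    exact (hh.integrable_of_hasCompactSupport hcs).2.ne
  have hXfin : X ≠ ⊤ := by
    rw [hXs]
    exact ENNReal.add_ne_top.mpr ⟨fin _ cc₁ (fun z hz => by simp [hz]),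
      fin _ cc₂ (fun z hz => by simp [hz])⟩
  -- the q-terms
  have hZ : (∫⁻ z, ‖χ z * (q₁ z * Ω z)‖ₑ) + ∫⁻ z, ‖χ z * (q₂ z * Ω z)‖ₑ ≤ ENNReal.ofReal C₀ * X := by
    rw [← lintegral_add_left ce₁.enorm.measurable, hX, ← lintegral_const_mul']
    · refine lintegral_mono fun z => ?_
      by_cases hχz : χ z = 0
      · simp [hχz]
      · simp only [enorm_mul]
        have h3 : ‖q₁ z‖ₑ + ‖q₂ z‖ₑ ≤ ENNReal.ofReal C₀ * (‖F₁ z‖ₑ + ‖F₂ z‖ₑ) := by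
          simp only [← ofReal_norm]
          rw [← ENNReal.ofReal_add (norm_nonneg _) (norm_nonneg _),
            ← ENNReal.ofReal_add (norm_nonneg _) (norm_nonneg _), ← ENNReal.ofReal_mul hC₀]
          exact ENNReal.ofReal_le_ofReal (hq z hχz)
        calc ‖χ z‖ₑ * (‖q₁ z‖ₑ * ‖Ω z‖ₑ) + ‖χ z‖ₑ * (‖q₂ z‖ₑ * ‖Ω z‖ₑ)
            = ‖χ z‖ₑ * ((‖q₁ z‖ₑ + ‖q₂ z‖ₑ) * ‖Ω z‖ₑ) := by ring
          _ ≤ ‖χ z‖ₑ * ((ENNReal.ofReal C₀ * (‖F₁ z‖ₑ + ‖F₂ z‖ₑ)) * ‖Ω z‖ₑ) := by gcongr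
          _ = _ := by ring
    · exact ENNReal.ofReal_ne_top
  have hmain : X ≤ ENNReal.ofReal (8 * r) * Y + X / 2 := by
    calc X = (∫⁻ z, ‖χ z * (F₁ z * Ω z)‖ₑ) + ∫⁻ z, ‖χ z * (F₂ z * Ω z)‖ₑ := hXs
      _ ≤ _ := add_le_add s₁ s₂
      _ = ENNReal.ofReal (8 * r) * Y + ENNReal.ofReal (8 * r) *
          ((∫⁻ z, ‖χ z * (q₁ z * Ω z)‖ₑ) + ∫⁻ z, ‖χ z * (q₂ z * Ω z)‖ₑ) := by
          rw [hYs]; ring
      _ ≤ ENNReal.ofReal (8 * r) * Y + ENNReal.ofReal (8 * r) * (ENNReal.ofReal C₀ * X) := by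
          gcongr
      _ ≤ ENNReal.ofReal (8 * r) * Y + X / 2 := by
          gcongr
          rw [← mul_assoc, ← ENNReal.ofReal_mul (by linarith), ENNReal.div_eq_inv_mul]
          gcongr
          have : (2:ℝ≥0∞)⁻¹ = ENNReal.ofReal (1/2) := by
            rw [one_div, ENNReal.ofReal_inv_of_pos (by norm_num)]
            norm_num
          rw [this]
          exact ENNReal.ofReal_le_ofReal hrC
  have := absorb_ennreal hXfin hmain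
  refine this.trans (le_of_eq ?_)
  rw [← mul_assoc]
  congr 1
  have : (2:ℝ≥0∞) = ENNReal.ofReal 2 := by norm_num
  rw [this, ← ENNReal.ofReal_mul (by norm_num)]
  congr 1
  ring

end Pool.Agent.Lib.MP_0e9c6a_an
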